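import Pool.Agent.SFL.Defs

/-!
# APL1: a dilation with no small values.
p prime, all t in D nonzero with |t| < p, and |D| * (2r) < p - 1. For t in D the map λ -> λ t is injective on ZMod p \ {0} and has nonzero values; there are at most 2r nonzero
residues u with |u.valMinAbs| <= r. So at most |D| 2r < p-1 of the λ != 0 are excluded.
-/

namespace SFL

theorem exists_dilate {D : Finset ℤ} {p r : ℕ} [Fact p.Prime] (hD : ∀ t ∈ D, t ≠ 0 ∧ |t| < p)
    (h : D.card * (2 * r) < p - 1) :
    ∃ l : ZMod p, ∀ t ∈ D, (r : ℤ) < |(l * (t : ZMod p)).valMinAbs| := by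
  classical
  by_contra hcon
  push Not at hcon
  have hsub : (Finset.univ.erase (0 : ZMod p)) ⊆ D.biUnion (fun t =>
      (Finset.univ.erase (0 : ZMod p)).filter
        (fun l => |(l * (t : ZMod p)).valMinAbs| ≤ (r : ℤ))) := by
    intro l hl
    obtain ⟨t, ht, hlt⟩ := hcon l
    rw [Finset.mem_biUnion]
    exact ⟨t, ht, Finset.mem_filter.2 ⟨hl, hlt⟩⟩
  have hcard : (Finset.univ.erase (0 : ZMod p)).card = p - 1 := by
    rw [Finset.card_erase_of_mem (Finset.mem_univ _), Finset.card_univ, ZMod.card]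
  have h1 := (Finset.card_le_card hsub).trans Finset.card_biUnion_le
  have h2 : ∀ t ∈ D, ((Finset.univ.erase (0 : ZMod p)).filter
        (fun l => |(l * (t : ZMod p)).valMinAbs| ≤ (r : ℤ))).card ≤ 2 * r := by
    intro t ht
    obtain ⟨ht0, htp⟩ := hD t ht
    have htz : (t : ZMod p) ≠ 0 := by
      intro h0
      rw [ZMod.intCast_zmod_eq_zero_iff_dvd] at h0
      exact ht0 (Int.eq_zero_of_abs_lt_dvd h0 htp)
    have h3 : ((Finset.Icc (-(r : ℤ)) r).erase 0).card = 2 * r := by
      rw [Finset.card_erase_of_mem (by simp), Int.card_Icc]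
      omega
    rw [← h3]
    apply Finset.card_le_card_of_injOn (fun l => (l * (t : ZMod p)).valMinAbs)
    · intro l hl
      have hl' := Finset.mem_coe.1 hl
      rw [Finset.mem_filter, Finset.mem_erase] at hl'
      obtain ⟨⟨hl0, -⟩, hlr⟩ := hl'
      rw [Finset.mem_coe, Finset.mem_erase, Finset.mem_Icc]
      refine ⟨?_, abs_le.1 hlr⟩
      intro h0
      rw [ZMod.valMinAbs_eq_zero] at h0
      rcases mul_eq_zero.1 h0 with h4 | h4
      · exact hl0 h4
      · exact htz h4
    · intro l _ l' _ hll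
      have h4 : l * (t : ZMod p) = l' * (t : ZMod p) := ZMod.injective_valMinAbs hll
      exact mul_right_cancel₀ htz h4
  have h4 := Finset.sum_le_card_nsmul D _ (2 * r) h2
  rw [hcard] at h1
  simp only [smul_eq_mul] at h4
  omega

end SFL
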