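import Pool.Agent.SFL.Defs

/-!
# APL2: Bogolyubov in ZMod p.
u = 1_U, u^(m) = sum_{x in U} exp(-2πi m x/p), sum_m |u^(m)|^2 = p|U|. Γ = {m : |u^(m)|^2 >= |U|^3/(2p)}; |Γ| |U|^3/(2p) <= p|U| so |Γ| <= 2p^2/|U|^2 <= 2/σ^2.
The number of (a,b,c,d) in U^4 with a+b-c-d = τ is (1/p) sum_m |u^(m)|^4 cos(2πmτ/p) (real part; it is real).
For m in Γ: cos(2πmτ/p) >= 1/2 >= 0 (|valMinAbs(mτ)| <= p/6), for m = 0 (in Γ) it is 1: the sum over Γ is >= |U|^4; the sum over m not in Γ is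
> -(|U|^3/(2p)) * p|U| ... >= -|U|^4/2. So the number is >= |U|^4/(2p) > 0.
(Mathlib: ZMod.stdAddChar, ZMod.dft, AddChar.sum_eq_ite / ZMod.toCircle. Or use own exponential sums.)
-/

namespace SFL
open scoped Pointwise

open Finset in
private theorem APL2_pars {p : ℕ} [Fact p.Prime] (U : Finset (ZMod p)) :
    ∑ m : ZMod p, ‖∑ x ∈ U, (ZMod.stdAddChar (m * x) : ℂ)‖ ^ 2 = (p : ℝ) * U.card := by
  have hprim := ZMod.isPrimitive_stdAddChar p
  have h1 : ((∑ m : ZMod p, ‖∑ x ∈ U, (ZMod.stdAddChar (m * x) : ℂ)‖ ^ 2 : ℝ) : ℂ) = (p : ℂ) * U.card := by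
    push_cast
    have h2 : ∀ m : ZMod p, ((‖∑ x ∈ U, (ZMod.stdAddChar (m * x) : ℂ)‖ : ℂ)) ^ 2 =
        ∑ x ∈ U, ∑ y ∈ U, (ZMod.stdAddChar (m * (x - y)) : ℂ) := by
      intro m
      rw [← Complex.ofReal_pow, ← Complex.normSq_eq_norm_sq, ← Complex.mul_conj, map_sum, sum_mul_sum]
      refine sum_congr rfl fun x _ => sum_congr rfl fun y _ => ?_
      rw [← AddChar.map_neg_eq_conj, ← AddChar.map_add_eq_mul]
      congr 1
      ring
    simp_rw [h2]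
    rw [sum_comm]
    have h3 : ∀ x ∈ U, ∑ m : ZMod p, ∑ y ∈ U, (ZMod.stdAddChar (m * (x - y)) : ℂ) = p := by
      intro x hx
      rw [sum_comm]
      have h4 : ∀ y ∈ U, ∑ m : ZMod p, (ZMod.stdAddChar (m * (x - y)) : ℂ) =
          if y = x then (p : ℂ) else 0 := by
        intro y _
        rw [AddChar.sum_mulShift (x - y) hprim]
        by_cases hxy : y = x
        · simp [hxy, ZMod.card]
        · have : x - y ≠ 0 := fun h => hxy (sub_eq_zero.mp h).symm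
          simp [hxy, this]
      rw [sum_congr rfl h4, sum_ite_eq' U x (fun _ => (p : ℂ)), if_pos hx]
    rw [sum_congr rfl h3, sum_const, nsmul_eq_mul, mul_comm]
  exact_mod_cast h1

open Finset in
private theorem APL2_four {p : ℕ} [Fact p.Prime] (U : Finset (ZMod p)) (τ : ZMod p)
    (hτ : ∀ a ∈ U, ∀ b ∈ U, ∀ c ∈ U, ∀ d ∈ U, τ ≠ a + b - c - d) :
    ∑ m : ZMod p, ((‖∑ x ∈ U, (ZMod.stdAddChar (m * x) : ℂ)‖ ^ 4 : ℝ) : ℂ) *
      (ZMod.stdAddChar (-(m * τ)) : ℂ) = 0 := by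
  have hprim := ZMod.isPrimitive_stdAddChar p
  have h2 : ∀ m : ZMod p, ((‖∑ x ∈ U, (ZMod.stdAddChar (m * x) : ℂ)‖ ^ 4 : ℝ) : ℂ) *
      (ZMod.stdAddChar (-(m * τ)) : ℂ) =
      ∑ a ∈ U, ∑ b ∈ U, ∑ c ∈ U, ∑ d ∈ U, (ZMod.stdAddChar (m * (a + b - c - d - τ)) : ℂ) := by
    intro m
    have e1 : ((‖∑ x ∈ U, (ZMod.stdAddChar (m * x) : ℂ)‖ ^ 4 : ℝ) : ℂ) =
        ((∑ a ∈ U, (ZMod.stdAddChar (m * a) : ℂ)) * (∑ b ∈ U, (ZMod.stdAddChar (m * b) : ℂ))) *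
        ((∑ c ∈ U, (ZMod.stdAddChar (-(m * c)) : ℂ)) * (∑ d ∈ U, (ZMod.stdAddChar (-(m * d)) : ℂ))) := by
      have e2 : ∑ c ∈ U, (ZMod.stdAddChar (-(m * c)) : ℂ) =
          (starRingEnd ℂ) (∑ x ∈ U, (ZMod.stdAddChar (m * x) : ℂ)) := by
        rw [map_sum]
        exact sum_congr rfl fun x _ => AddChar.map_neg_eq_conj _ _
      rw [e2]
      have e3 : ((‖∑ x ∈ U, (ZMod.stdAddChar (m * x) : ℂ)‖ ^ 2 : ℝ) : ℂ) =
          (∑ x ∈ U, (ZMod.stdAddChar (m * x) : ℂ)) *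
            (starRingEnd ℂ) (∑ x ∈ U, (ZMod.stdAddChar (m * x) : ℂ)) := by
        rw [← Complex.normSq_eq_norm_sq, ← Complex.mul_conj]
      have e4 : ((‖∑ x ∈ U, (ZMod.stdAddChar (m * x) : ℂ)‖ ^ 4 : ℝ) : ℂ) =
          ((‖∑ x ∈ U, (ZMod.stdAddChar (m * x) : ℂ)‖ ^ 2 : ℝ) : ℂ) ^ 2 := by
        push_cast; ring
      rw [e4, e3]; ring
    rw [e1, sum_mul_sum, sum_mul_sum, sum_mul, sum_mul]
    refine sum_congr rfl fun a _ => ?_
    rw [sum_mul, sum_mul]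
    refine sum_congr rfl fun b _ => ?_
    rw [mul_sum, sum_mul]
    refine sum_congr rfl fun c _ => ?_
    rw [mul_sum, sum_mul]
    refine sum_congr rfl fun d _ => ?_
    rw [← AddChar.map_add_eq_mul, ← AddChar.map_add_eq_mul, ← AddChar.map_add_eq_mul,
      ← AddChar.map_add_eq_mul]
    congr 1
    ring
  simp_rw [h2]
  rw [sum_comm]
  refine sum_eq_zero fun a ha => ?_
  rw [sum_comm]
  refine sum_eq_zero fun b hb => ?_
  rw [sum_comm]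
  refine sum_eq_zero fun c hc => ?_
  rw [sum_comm]
  refine sum_eq_zero fun d hd => ?_
  rw [AddChar.sum_mulShift _ hprim, if_neg]
  · simp
  · intro h0
    exact hτ a ha b hb c hc d hd (sub_eq_zero.mp h0).symm

open Finset in
theorem bogol {p : ℕ} [Fact p.Prime] {U : Finset (ZMod p)} (hU : U.Nonempty) {σ : ℝ} (hσ : 0 < σ)
    (h : σ * p ≤ U.card) :
    ∃ Γ : Finset (ZMod p), (Γ.card : ℝ) ≤ 2 / σ ^ 2 ∧
      ∀ τ : ZMod p, (∀ m ∈ Γ, 6 * |(m * τ).valMinAbs| ≤ p) →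
        ∃ a ∈ U, ∃ b ∈ U, ∃ c ∈ U, ∃ d ∈ U, τ = a + b - c - d := by
  have hp0 : (0 : ℝ) < p := by exact_mod_cast (Fact.out : p.Prime).pos
  have hU0 : (0 : ℝ) < U.card := by exact_mod_cast hU.card_pos
  obtain ⟨S, hS⟩ : ∃ S : ZMod p → ℝ, S = fun m => ‖∑ x ∈ U, (ZMod.stdAddChar (m * x) : ℂ)‖ := ⟨_, rfl⟩
  have hS0 : ∀ m, 0 ≤ S m := fun m => by rw [hS]; exact norm_nonneg _
  have hpars : ∑ m : ZMod p, S m ^ 2 = (p : ℝ) * U.card := by rw [hS]; exact APL2_pars U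
  have hSz : S 0 = U.card := by
    rw [hS]
    simp
  have hUp : (U.card : ℝ) ≤ p := by
    have := card_le_univ U
    rw [ZMod.card] at this
    exact_mod_cast this
  obtain ⟨Γ, hΓ⟩ : ∃ Γ : Finset (ZMod p), Γ = univ.filter
    (fun m => (U.card : ℝ) ^ 3 / (2 * p) ≤ S m ^ 2) := ⟨_, rfl⟩
  refine ⟨Γ, ?_, ?_⟩
  · have h1 : (Γ.card : ℝ) * ((U.card : ℝ) ^ 3 / (2 * p)) ≤ (p : ℝ) * U.card := by
      rw [← hpars, ← nsmul_eq_mul, ← sum_const]
      calc ∑ _x ∈ Γ, (U.card : ℝ) ^ 3 / (2 * p) ≤ ∑ m ∈ Γ, S m ^ 2 :=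
            sum_le_sum fun m hm => by rw [hΓ, mem_filter] at hm; exact hm.2
        _ ≤ ∑ m : ZMod p, S m ^ 2 :=
            sum_le_sum_of_subset_of_nonneg (subset_univ _) (fun _ _ _ => sq_nonneg _)
    have h2 : (Γ.card : ℝ) * (U.card : ℝ) ^ 2 ≤ 2 * p ^ 2 := by
      have h3 : (Γ.card : ℝ) * ((U.card : ℝ) ^ 3 / (2 * p)) =
        ((Γ.card : ℝ) * (U.card : ℝ) ^ 2) * ((U.card : ℝ) / (2 * p)) := by ring
      have h4 : (p : ℝ) * U.card = (2 * p ^ 2) * ((U.card : ℝ) / (2 * p)) := by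
        field_simp
      rw [h3, h4] at h1
      exact le_of_mul_le_mul_right h1 (by positivity)
    rw [le_div_iff₀ (by positivity)]
    have h5 : σ ^ 2 * p ^ 2 ≤ (U.card : ℝ) ^ 2 := by
      rw [← mul_pow]
      exact pow_le_pow_left₀ (by positivity) h 2
    have h6 : (Γ.card : ℝ) * (σ ^ 2 * p ^ 2) ≤ 2 * p ^ 2 :=
      (mul_le_mul_of_nonneg_left h5 (Nat.cast_nonneg _)).trans h2
    have h7 : ((Γ.card : ℝ) * σ ^ 2) * p ^ 2 ≤ 2 * p ^ 2 := by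
      calc ((Γ.card : ℝ) * σ ^ 2) * p ^ 2 = (Γ.card : ℝ) * (σ ^ 2 * p ^ 2) := by ring
        _ ≤ _ := h6
    exact le_of_mul_le_mul_right h7 (by positivity)
  · intro τ hτ
    by_contra hcon
    push Not at hcon
    have h0 := APL2_four U τ hcon
    have hre := congrArg Complex.re h0
    rw [Complex.re_sum] at hre
    simp only [Complex.re_ofReal_mul, Complex.zero_re] at hre
    have hre' : ∑ m : ZMod p, S m ^ 4 * ((ZMod.stdAddChar (-(m * τ)) : ℂ)).re = 0 := by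
      rw [← hre, hS]
    have hcos : ∀ y : ZMod p, ((ZMod.stdAddChar y : ℂ)).re = Real.cos (2 * Real.pi * y.valMinAbs / p) := by
      intro y
      conv_lhs => rw [← ZMod.coe_valMinAbs y]
      rw [ZMod.stdAddChar_coe]
      have : (2 * (Real.pi : ℂ) * Complex.I * (y.valMinAbs : ℂ) / (p : ℂ)) =
        ((2 * Real.pi * y.valMinAbs / p : ℝ) : ℂ) * Complex.I := by
        push_cast; ring
      rw [this, Complex.exp_ofReal_mul_I_re]
    have hlow : ∀ y : ZMod p, -1 ≤ ((ZMod.stdAddChar (-y) : ℂ)).re := by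
      intro y; rw [hcos]; exact Real.neg_one_le_cos _
    have hΓre : ∀ m ∈ Γ, 0 ≤ ((ZMod.stdAddChar (-(m * τ)) : ℂ)).re := by
      intro m hm
      have e1 : ((ZMod.stdAddChar (-(m * τ)) : ℂ)).re = ((ZMod.stdAddChar (m * τ) : ℂ)).re := by
        rw [AddChar.map_neg_eq_conj, Complex.conj_re]
      rw [e1, hcos]
      have e2 := hτ m hm
      have e3 : (6 : ℝ) * |((m * τ).valMinAbs : ℝ)| ≤ p := by exact_mod_cast e2
      apply Real.cos_nonneg_of_neg_pi_div_two_le_of_le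
      · have e4 := neg_abs_le ((m * τ).valMinAbs : ℝ)
        rw [le_div_iff₀ hp0]
        nlinarith [Real.pi_pos]
      · have e4 := le_abs_self ((m * τ).valMinAbs : ℝ)
        rw [div_le_iff₀ hp0]
        nlinarith [Real.pi_pos]
    have hz : (0 : ZMod p) ∈ Γ := by
      rw [hΓ, mem_filter]
      refine ⟨mem_univ _, ?_⟩
      rw [hSz, div_le_iff₀ (by positivity)]
      nlinarith [sq_nonneg (U.card : ℝ)]
    have hsplit : ∑ m : ZMod p, S m ^ 4 * ((ZMod.stdAddChar (-(m * τ)) : ℂ)).re =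
        ∑ m ∈ Γ, S m ^ 4 * ((ZMod.stdAddChar (-(m * τ)) : ℂ)).re +
        ∑ m ∈ Γᶜ, S m ^ 4 * ((ZMod.stdAddChar (-(m * τ)) : ℂ)).re :=
      (sum_add_sum_compl Γ _).symm
    have hA : (U.card : ℝ) ^ 4 ≤ ∑ m ∈ Γ, S m ^ 4 * ((ZMod.stdAddChar (-(m * τ)) : ℂ)).re := by
      have e1 := single_le_sum (s := Γ) (f := fun m => S m ^ 4 * ((ZMod.stdAddChar (-(m * τ)) : ℂ)).re)
        (fun m hm => mul_nonneg (pow_nonneg (hS0 m) 4) (hΓre m hm)) hz
      simpa [hSz] using e1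
    have hB : -((U.card : ℝ) ^ 4 / 2) ≤ ∑ m ∈ Γᶜ, S m ^ 4 * ((ZMod.stdAddChar (-(m * τ)) : ℂ)).re := by
      have e1 : ∀ m ∈ Γᶜ, -((U.card : ℝ) ^ 3 / (2 * p) * S m ^ 2) ≤
          S m ^ 4 * ((ZMod.stdAddChar (-(m * τ)) : ℂ)).re := by
        intro m hm
        have hm' : S m ^ 2 < (U.card : ℝ) ^ 3 / (2 * p) := by
          by_contra hc
          rw [mem_compl] at hm
          exact hm (by rw [hΓ, mem_filter]; exact ⟨mem_univ _, not_lt.mp hc⟩)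
        have e2 := hlow (m * τ)
        have e3 : 0 ≤ S m ^ 2 := sq_nonneg _
        have e4 : S m ^ 4 = S m ^ 2 * S m ^ 2 := by ring
        have e5 : S m ^ 2 * S m ^ 2 ≤ (U.card : ℝ) ^ 3 / (2 * p) * S m ^ 2 :=
          mul_le_mul_of_nonneg_right hm'.le e3
        have e6 : -(S m ^ 4) ≤ S m ^ 4 * ((ZMod.stdAddChar (-(m * τ)) : ℂ)).re := by
          have : 0 ≤ S m ^ 4 := pow_nonneg (hS0 m) 4
          nlinarith
        rw [e4] at e6 ⊢
        linarith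
      have e7 := sum_le_sum e1
      refine le_trans ?_ e7
      rw [sum_neg_distrib, ← mul_sum]
      have e8 : ∑ m ∈ Γᶜ, S m ^ 2 ≤ (p : ℝ) * U.card := by
        rw [← hpars]
        exact sum_le_sum_of_subset_of_nonneg (subset_univ _) (fun _ _ _ => sq_nonneg _)
      have e9 : (U.card : ℝ) ^ 3 / (2 * p) * ∑ m ∈ Γᶜ, S m ^ 2 ≤
          (U.card : ℝ) ^ 3 / (2 * p) * ((p : ℝ) * U.card) :=
        mul_le_mul_of_nonneg_left e8 (by positivity)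
      have e10 : (U.card : ℝ) ^ 3 / (2 * p) * ((p : ℝ) * U.card) = (U.card : ℝ) ^ 4 / 2 := by
        field_simp
      linarith
    have hpos : (0 : ℝ) < (U.card : ℝ) ^ 4 := by positivity
    rw [hsplit] at hre'
    linarith

end SFL
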