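import Pool.Agent.SFL.Defs

/-!
# APL3: pigeonhole.
J numbers j = 0..J-1 are mapped to the vector (floor((m * (2 l j)).val * (6q+1) / p) in {0..6q})_{m in Γ}; (6q+1)^|Γ| < J, so j < j' have the same image; τ = 2l(j'-j) in ZMod p.
2l <= 2l(j'-j) <= 2l(J-1) <= p - 2l so 2l <= |τ.valMinAbs|. For m in Γ: the difference of the two vals has absolute value < p/(6q+1) (same cell), so |(mτ).valMinAbs| (6q+1) < p..,
|(m (iτ)).valMinAbs| <= |i| |(mτ).valMinAbs| <= q p/(6q+1) <= p/6. (valMinAbs has minimal absolute value among integer representatives: ZMod.valMinAbs_natAbs_eq_min /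
 ZMod.natAbs_valMinAbs_le or natAbs_min_of_le_div_two.)
-/

namespace SFL

theorem pigeon {p : ℕ} [Fact p.Prime] {Γ : Finset (ZMod p)} {l q J : ℕ} (hl : 1 ≤ l) (hq : 1 ≤ q)
    (hJ : (6 * q + 1) ^ Γ.card < J) (hJp : J * (2 * l) ≤ p) :
    ∃ τ : ZMod p, (2 * l : ℤ) ≤ |τ.valMinAbs| ∧
      ∀ m ∈ Γ, ∀ i : ℤ, |i| ≤ q → 6 * |(m * ((i : ZMod p) * τ)).valMinAbs| ≤ p := by
  have hp0 : 0 < p := (Fact.out : p.Prime).pos
  have hpp : NeZero p := ⟨hp0.ne'⟩
  -- the map
  have hcell : ∀ a : ZMod p, a.val * (6 * q + 1) / p < 6 * q + 1 := by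
    intro a
    rw [Nat.div_lt_iff_lt_mul hp0, mul_comm (6 * q + 1) p]
    exact Nat.mul_lt_mul_of_pos_right (ZMod.val_lt a) (by omega)
  let φ : Fin J → (Γ → Fin (6 * q + 1)) := fun j m =>
    ⟨((m : ZMod p) * ((2 * l * (j : ℕ) : ℕ) : ZMod p)).val * (6 * q + 1) / p, hcell _⟩
  have hcard : Fintype.card (Γ → Fin (6 * q + 1)) < Fintype.card (Fin J) := by
    simp only [Fintype.card_fun, Fintype.card_fin, Fintype.card_coe]
    exact hJ
  obtain ⟨x, y, hxy, hφ⟩ := Fintype.exists_ne_map_eq_of_card_lt φ hcard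
  -- order
  obtain ⟨j, k, hjk, hφ⟩ : ∃ j k : Fin J, (j : ℕ) < k ∧ φ j = φ k := by
    rcases lt_trichotomy x y with h | h | h
    · exact ⟨x, y, h, hφ⟩
    · exact absurd h hxy
    · exact ⟨y, x, h, hφ.symm⟩
  obtain ⟨n, hn⟩ : ∃ n : ℕ, (k : ℕ) = j + n := ⟨k - j, by omega⟩
  have hn1 : 1 ≤ n := by omega
  have hkJ : (k : ℕ) < J := k.2
  have hnJ : n + 1 ≤ J := by omega
  have h2l : 2 * l * n + 2 * l ≤ p := by
    calc 2 * l * n + 2 * l = (n + 1) * (2 * l) := by ring
      _ ≤ J * (2 * l) := Nat.mul_le_mul_right _ hnJ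
      _ ≤ p := hJp
  refine ⟨((2 * l * n : ℕ) : ZMod p), ?_, ?_⟩
  · have hval : ((2 * l * n : ℕ) : ZMod p).val = 2 * l * n :=
      ZMod.val_natCast_of_lt (by omega)
    have hmin := ZMod.valMinAbs_natAbs_eq_min ((2 * l * n : ℕ) : ZMod p)
    rw [hval] at hmin
    have h1 : 2 * l ≤ 2 * l * n := Nat.le_mul_of_pos_right _ hn1
    have h2 : 2 * l ≤ min (2 * l * n) (p - 2 * l * n) := by
      apply le_min h1
      omega
    rw [← hmin] at h2
    rw [Int.abs_eq_natAbs]
    exact_mod_cast h2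
  · intro m hm i hi
    have hc : (m * ((2 * l * (j : ℕ) : ℕ) : ZMod p)).val * (6 * q + 1) / p
        = (m * ((2 * l * (k : ℕ) : ℕ) : ZMod p)).val * (6 * q + 1) / p := by
      have h := congrFun hφ ⟨m, hm⟩
      exact congrArg Fin.val h
    set a := m * ((2 * l * (j : ℕ) : ℕ) : ZMod p) with ha
    set b := m * ((2 * l * (k : ℕ) : ℕ) : ZMod p) with hb
    set c := b.val * (6 * q + 1) / p with hcdef
    have hp1 : c * p ≤ b.val * (6 * q + 1) := Nat.div_mul_le_self _ _
    have hp2 : b.val * (6 * q + 1) < (c + 1) * p := by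
      have := Nat.lt_succ_iff.mpr (le_refl c)
      rw [hcdef, ← Nat.div_lt_iff_lt_mul hp0]
      omega
    have hp3 : c * p ≤ a.val * (6 * q + 1) := by rw [← hc]; exact Nat.div_mul_le_self _ _
    have hp4 : a.val * (6 * q + 1) < (c + 1) * p := by
      rw [← hc, ← Nat.div_lt_iff_lt_mul hp0]
      omega
    set d : ℤ := (b.val : ℤ) - a.val with hd
    have hdz : (d : ZMod p) = m * ((2 * l * n : ℕ) : ZMod p) := by
      rw [hd]
      push_cast
      rw [ZMod.natCast_zmod_val, ZMod.natCast_zmod_val, ha, hb, hn]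
      push_cast
      ring
    have hdabs : |d| * (6 * q + 1) < p := by
      have e1 : ((c : ℤ)) * p ≤ b.val * (6 * q + 1) := by exact_mod_cast hp1
      have e2 : ((b.val : ℤ)) * (6 * q + 1) < (c + 1) * p := by exact_mod_cast hp2
      have e3 : ((c : ℤ)) * p ≤ a.val * (6 * q + 1) := by exact_mod_cast hp3
      have e4 : ((a.val : ℤ)) * (6 * q + 1) < (c + 1) * p := by exact_mod_cast hp4
      rcases abs_cases d with ⟨h, _⟩ | ⟨h, _⟩
      · rw [h, hd]; nlinarith
      · rw [h, hd]; nlinarith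
    have hid : 6 * |i * d| < p := by
      rw [abs_mul]
      have hq' : (0:ℤ) ≤ q := by positivity
      have h0 : 0 ≤ |d| := abs_nonneg d
      have h1 : |i| * |d| ≤ q * |d| := mul_le_mul_of_nonneg_right hi h0
      nlinarith
    have hspec : i * d = (m * ((i : ZMod p) * ((2 * l * n : ℕ) : ZMod p))).valMinAbs := by
      refine ((ZMod.valMinAbs_spec _ (i * d)).2 ⟨?_, ?_, ?_⟩).symm
      · push_cast
        rw [hdz]
        push_cast
        ring
      · have := neg_abs_le (i * d)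
        linarith
      · have := le_abs_self (i * d)
        have h0 := abs_nonneg (i * d)
        linarith
    rw [← hspec]
    linarith

end SFL
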