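import Pool.Agent.SFL.APL1
import Pool.Agent.SFL.APL2
import Pool.Agent.SFL.APL3

/-!
# APL4: long progressions in 2B - 2B.
D = (6B-6B) \ {0}, N = |B|, |D| <= M N. Choose a huge prime p (p > 10^6 M N, p > |t| for t in D, ...), r = floor((p-2)/(2 ceil(M N))) or any r with
 p/(3 M N) <= r and |D| 2r < p - 1 (e.g. M' = ceil(M N) >= 1, r = floor((p-2)/(2M'+1))...; for p large r >= p/(3MN) since M N >= 1),
 l = floor(r/6) >= p/(20 M N) for p large. exists_dilate gives λ.
 U = {λ b + e : b in B, 0 <= e < l} in ZMod p: the N*l elements are distinct (|λ(b-b')|_p > r >= l for b != b', differences b - b' in 6B-6B; for b=b' e is determined as l < p), so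
 |U| = N l >= p/(20M): σ = 1/(20M), |Γ| <= 800M^2 <= k. (bogol)
 J = floor(p/(2l)) >= 3MN >= N... (l <= r/6, r <= (p)/(2MN)... gives p/(2l) >= 6 M N; need (6q+1)^|Γ| <= (6q+1)^k < N <= J.) pigeon gives τ.
 For |i| <= q: iτ = a+b-c-d, a,..,d in U: iτ = λ d_i + e_i, d_i in 2B-2B, e_i integer, |e_i| < 2l (bogol applied to iτ). So |(iτ - λ d_i).valMinAbs| < 2l.
 d_1 != 0: otherwise |τ.valMinAbs| < 2l. d_0: |λ d_0|_p < 2l <= r so d_0 = 0 (d_0 in 6B-6B). For i, i+1: t = d_{i+1}-d_i-d_1 in 6B-6B and |λ t|_p < 6 l <= r so t = 0. d_i+d_{-i}: < 4l so 0.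
 By induction d_i = i d_1 for 0 <= i <= q and then for negative i. v = d_1.
 (2B-2B, 4B-4B inside 6B-6B because B nonempty.)
-/

namespace SFL
open scoped Pointwise

theorem APL4_valMinAbs_le {p : ℕ} [NeZero p] (e : ℤ) : |((e : ℤ) : ZMod p).valMinAbs| ≤ |e| := by
  have h := ZMod.natAbs_min_of_le_div_two p ((e : ZMod p)).valMinAbs e (by
    rw [ZMod.coe_valMinAbs]) (ZMod.natAbs_valMinAbs_le _)
  rw [Int.abs_eq_natAbs, Int.abs_eq_natAbs]
  exact_mod_cast h

theorem APL4_sub_mem {B : Finset ℤ} {b b' : ℤ} (hb : b ∈ B) (hb' : b' ∈ B) :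
    b - b' ∈ B + B + B + B + B + B - (B + B + B + B + B + B) := by
  have h1 : b + b + b + b + b + b ∈ B + B + B + B + B + B := by
    repeat' apply Finset.add_mem_add
    all_goals exact hb
  have h2 : b' + b + b + b + b + b ∈ B + B + B + B + B + B := by
    repeat' apply Finset.add_mem_add
    all_goals first | exact hb | exact hb'
  have h3 := Finset.sub_mem_sub h1 h2
  have e : b + b + b + b + b + b - (b' + b + b + b + b + b) = b - b' := by ring
  rw [e] at h3
  exact h3

theorem APL4_three {B : Finset ℤ} {x y z : ℤ} (hx : x ∈ B + B - (B + B))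
    (hy : y ∈ B + B - (B + B)) (hz : z ∈ B + B - (B + B)) :
    x + y + z ∈ B + B + B + B + B + B - (B + B + B + B + B + B) := by
  obtain ⟨x1, hx1, x2, hx2, rfl⟩ := Finset.mem_sub.1 hx
  obtain ⟨y1, hy1, y2, hy2, rfl⟩ := Finset.mem_sub.1 hy
  obtain ⟨z1, hz1, z2, hz2, rfl⟩ := Finset.mem_sub.1 hz
  obtain ⟨a1, ha1, b1, hb1, rfl⟩ := Finset.mem_add.1 hx1
  obtain ⟨a2, ha2, b2, hb2, rfl⟩ := Finset.mem_add.1 hx2
  obtain ⟨a3, ha3, b3, hb3, rfl⟩ := Finset.mem_add.1 hy1
  obtain ⟨a4, ha4, b4, hb4, rfl⟩ := Finset.mem_add.1 hy2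
  obtain ⟨a5, ha5, b5, hb5, rfl⟩ := Finset.mem_add.1 hz1
  obtain ⟨a6, ha6, b6, hb6, rfl⟩ := Finset.mem_add.1 hz2
  have h1 : a1 + b1 + a3 + b3 + a5 + b5 ∈ B + B + B + B + B + B := by
    repeat' apply Finset.add_mem_add
    all_goals assumption
  have h2 : a2 + b2 + a4 + b4 + a6 + b6 ∈ B + B + B + B + B + B := by
    repeat' apply Finset.add_mem_add
    all_goals assumption
  have h3 := Finset.sub_mem_sub h1 h2
  have e : a1 + b1 + a3 + b3 + a5 + b5 - (a2 + b2 + a4 + b4 + a6 + b6) =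
    a1 + b1 - (a2 + b2) + (a3 + b3 - (a4 + b4)) + (a5 + b5 - (a6 + b6)) := by ring
  rw [e] at h3
  exact h3

theorem apl {B : Finset ℤ} (hB : B.Nonempty) {M : ℝ} (hM : 1 ≤ M)
    (h6 : ((B + B + B + B + B + B - (B + B + B + B + B + B)).card : ℝ) ≤ M * B.card) {q k : ℕ} (hq : 1 ≤ q) (hk : 800 * M ^ 2 ≤ k)
    (hqk : (6 * q + 1) ^ k < B.card) :
    ∃ v : ℤ, v ≠ 0 ∧ ∀ i : ℤ, |i| ≤ q → i * v ∈ B + B - (B + B) := by
  classical
  set E := B + B + B + B + B + B - (B + B + B + B + B + B) with hE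
  obtain ⟨c0, hc0⟩ := hB
  have hNC : B.card ≤ E.card := by
    apply Finset.card_le_card_of_injOn (fun b => b - c0)
    · intro b hb
      exact APL4_sub_mem hb hc0
    · intro b _ b' _ h
      simpa using h
  have hN1 : 1 ≤ B.card := Finset.card_pos.2 ⟨c0, hc0⟩
  have hC1 : 1 ≤ E.card := hN1.trans hNC
  obtain ⟨p, hp1, hp2⟩ := Nat.exists_infinite_primes (40 * E.card + 100 + ∑ t ∈ E, t.natAbs + 1)
  haveI : Fact p.Prime := ⟨hp2⟩
  haveI : NeZero p := ⟨hp2.ne_zero⟩
  obtain ⟨r, hr⟩ : ∃ r, r = (p - 2) / (2 * E.card) := ⟨_, rfl⟩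
  obtain ⟨l, hl⟩ : ∃ l, l = r / 6 := ⟨_, rfl⟩
  have hr1 : 2 * E.card * r ≤ p - 2 := by
    rw [hr]
    exact Nat.mul_div_le _ _
  have hr2 : p - 2 < 2 * E.card * (r + 1) := by
    rw [hr]
    exact Nat.lt_mul_div_succ _ (by omega)
  have hl1 : 6 * l ≤ r := by omega
  have hl2 : r + 1 ≤ 6 * (l + 1) := by omega
  have hl3 : p < 12 * E.card * (l + 1) + 2 := by
    have : 2 * E.card * (r + 1) ≤ 2 * E.card * (6 * (l + 1)) := Nat.mul_le_mul_left _ hl2
    have e : 2 * E.card * (6 * (l + 1)) = 12 * E.card * (l + 1) := by ring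
    omega
  have hl4 : 2 ≤ l := by
    by_contra h
    have h1 : l + 1 ≤ 2 := by omega
    have h2 : 12 * E.card * (l + 1) ≤ 12 * E.card * 2 := Nat.mul_le_mul_left _ h1
    omega
  have hl5 : p ≤ 20 * (E.card * l) := by
    have h1 : E.card * 2 ≤ E.card * l := Nat.mul_le_mul_left _ hl4
    have e : 12 * E.card * (l + 1) = 12 * (E.card * l) + 12 * E.card := by ring
    omega
  have hN2l : B.card * (2 * l) ≤ p := by
    have h1 : B.card * (2 * l) ≤ E.card * (2 * l) := Nat.mul_le_mul_right _ hNC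
    have h2 : E.card * (2 * l) ≤ 2 * E.card * r := by
      have : l ≤ r := by omega
      calc E.card * (2 * l) = 2 * E.card * l := by ring
        _ ≤ _ := Nat.mul_le_mul_left _ this
    omega
  obtain ⟨lam, hlam⟩ := exists_dilate (D := E.erase 0) (p := p) (r := r) (by
    intro t ht
    rw [Finset.mem_erase] at ht
    refine ⟨ht.1, ?_⟩
    have h1 : t.natAbs ≤ ∑ t ∈ E, t.natAbs :=
      Finset.single_le_sum (f := fun t : ℤ => t.natAbs) (fun _ _ => Nat.zero_le _) ht.2
    rw [Int.abs_eq_natAbs]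
    have : t.natAbs < p := by omega
    exact_mod_cast this) (by
    have h1 : (E.erase 0).card ≤ E.card := Finset.card_erase_le
    have h2 : (E.erase 0).card * (2 * r) ≤ E.card * (2 * r) := Nat.mul_le_mul_right _ h1
    have e : E.card * (2 * r) = 2 * E.card * r := by ring
    omega)
  -- the key fact
  have key : ∀ t ∈ E, ∀ e : ℤ, lam * (t : ZMod p) = (e : ZMod p) → |e| ≤ 6 * l → t = 0 := by
    intro t ht e he hle
    by_contra hne
    have h1 := hlam t (Finset.mem_erase.2 ⟨hne, ht⟩)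
    rw [he] at h1
    have h2 := APL4_valMinAbs_le (p := p) e
    have h3 : (6 * l : ℤ) ≤ r := by exact_mod_cast hl1
    linarith
  -- the set U
  set φ : ℤ × ℕ → ZMod p := fun x => lam * (x.1 : ZMod p) + (x.2 : ZMod p) with hφ
  set U : Finset (ZMod p) := (B ×ˢ Finset.range l).image φ with hU
  have hUcard : U.card = B.card * l := by
    rw [hU, Finset.card_image_of_injOn, Finset.card_product, Finset.card_range]
    rintro ⟨b, e⟩ hbe ⟨b', e'⟩ hbe' h
    simp only [Finset.coe_product, Set.mem_prod, Finset.mem_coe, Finset.mem_range] at hbe hbe'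
    simp only [hφ] at h
    have h1 : lam * ((b - b' : ℤ) : ZMod p) = ((e' - e : ℤ) : ZMod p) := by
      push_cast
      linear_combination h
    have h2 : b - b' = 0 := by
      apply key _ (APL4_sub_mem hbe.1 hbe'.1) _ h1
      have a1 := hbe.2
      have a2 := hbe'.2
      rw [abs_le]
      constructor <;> push_cast <;> omega
    have h3 : b = b' := by omega
    subst h3
    have h4 : (e : ZMod p) = (e' : ZMod p) := add_left_cancel h
    have h5 : e % p = e' % p := (ZMod.natCast_eq_natCast_iff' e e' p).1 h4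
    have hlp : l < p := by
      have : 1 * (2 * l) ≤ B.card * (2 * l) := Nat.mul_le_mul_right _ hN1
      omega
    rw [Nat.mod_eq_of_lt (by omega), Nat.mod_eq_of_lt (by omega)] at h5
    rw [h5]
  have hUne : U.Nonempty := by
    rw [← Finset.card_pos, hUcard]
    exact Nat.mul_pos (by omega) (by omega)
  have hM0 : 0 < M := by linarith
  obtain ⟨Γ, hΓ1, hΓ2⟩ := bogol (p := p) hUne (σ := 1 / (20 * M)) (by positivity) (by
    rw [hUcard, one_div, inv_mul_le_iff₀ (by positivity)]
    push_cast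
    have h1 : (p : ℝ) ≤ 20 * (E.card * l) := by exact_mod_cast hl5
    have h2 : (E.card : ℝ) * l ≤ M * B.card * l :=
      mul_le_mul_of_nonneg_right h6 (Nat.cast_nonneg _)
    calc (p : ℝ) ≤ 20 * (E.card * l) := h1
      _ ≤ 20 * (M * B.card * l) := by linarith
      _ = 20 * M * (B.card * l) := by ring)
  have hΓk : Γ.card ≤ k := by
    have h1 : (Γ.card : ℝ) ≤ 800 * M ^ 2 := by
      refine hΓ1.trans (le_of_eq ?_)
      field_simp
      norm_num
    exact_mod_cast h1.trans hk
  obtain ⟨τ, hτ1, hτ2⟩ := pigeon (p := p) (Γ := Γ) (l := l) (q := q) (J := B.card) (by omega) hq (by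
    have : (6 * q + 1) ^ Γ.card ≤ (6 * q + 1) ^ k := Nat.pow_le_pow_right (by omega) hΓk
    omega) hN2l
  -- representations
  have hrep : ∀ i : ℤ, |i| ≤ q → ∃ d ∈ B + B - (B + B), ∃ e : ℤ, |e| < 2 * l ∧
      (i : ZMod p) * τ = lam * (d : ZMod p) + (e : ZMod p) := by
    intro i hi
    obtain ⟨a, ha, b, hb, c, hc, d, hd, h⟩ := hΓ2 ((i : ZMod p) * τ) (fun m hm => hτ2 m hm i hi)
    rw [hU, Finset.mem_image] at ha hb hc hd
    obtain ⟨⟨a1, a2⟩, ha', rfl⟩ := ha
    obtain ⟨⟨b1, b2⟩, hb', rfl⟩ := hb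
    obtain ⟨⟨c1, c2⟩, hc', rfl⟩ := hc
    obtain ⟨⟨d1, d2⟩, hd', rfl⟩ := hd
    rw [Finset.mem_product, Finset.mem_range] at ha' hb' hc' hd'
    simp only at ha' hb' hc' hd'
    refine ⟨a1 + b1 - (c1 + d1), Finset.sub_mem_sub (Finset.add_mem_add ha'.1 hb'.1)
      (Finset.add_mem_add hc'.1 hd'.1), (a2 : ℤ) + b2 - c2 - d2, ?_, ?_⟩
    · have := ha'.2
      have := hb'.2
      have := hc'.2
      have := hd'.2
      rw [abs_lt]
      constructor <;> omega
    · rw [h]
      simp only [hφ]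
      push_cast
      ring
  choose! d hd e he using hrep
  have htriple : ∀ i j m : ℤ, |i| ≤ q → |j| ≤ q → |m| ≤ q → i + j + m = 0 →
      d i + d j + d m = 0 := by
    intro i j m hi hj hm hs
    apply key _ (APL4_three (hd i hi) (hd j hj) (hd m hm)) (-(e i + e j + e m))
    · have h1 := (he i hi).2
      have h2 := (he j hj).2
      have h3 := (he m hm).2
      have h4 : ((i : ZMod p) + j + m) * τ = 0 := by
        have : ((i : ZMod p) + j + m) = ((i + j + m : ℤ) : ZMod p) := by push_cast; ring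
        rw [this, hs]
        simp
      push_cast
      linear_combination h4 - h1 - h2 - h3
    · have h1 := (he i hi).1
      have h2 := (he j hj).1
      have h3 := (he m hm).1
      rw [abs_lt] at h1 h2 h3
      rw [abs_le]
      constructor <;> linarith
  have hq' : (1 : ℤ) ≤ q := by exact_mod_cast hq
  have habs0 : |(0 : ℤ)| ≤ q := by simp
  have habs1 : |(1 : ℤ)| ≤ q := by simpa using hq'
  have hd0 : d 0 = 0 := by
    have := htriple 0 0 0 habs0 habs0 habs0 (by norm_num)
    omega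
  have hneg : ∀ i : ℤ, |i| ≤ q → d (-i) = -d i := by
    intro i hi
    have := htriple i (-i) 0 hi (by rwa [abs_neg]) habs0 (by ring)
    omega
  have hnat : ∀ n : ℕ, n ≤ q → d n = n * d 1 := by
    intro n
    induction n with
    | zero =>
      intro _
      simpa using hd0
    | succ n ih =>
      intro hn
      have h1 := ih (by omega)
      have a1 : |(n : ℤ)| ≤ q := by
        rw [abs_of_nonneg (by positivity)]
        omega
      have a2 : |((n : ℤ) + 1)| ≤ q := by
        rw [abs_of_nonneg (by positivity)]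
        omega
      have h2 := htriple n 1 (-((n : ℤ) + 1)) a1 habs1 (by rwa [abs_neg]) (by ring)
      rw [hneg _ a2] at h2
      push_cast
      linarith
  refine ⟨d 1, ?_, ?_⟩
  · intro h1
    have h2 := (he 1 habs1).2
    rw [h1] at h2
    have h3 : τ = ((e 1 : ℤ) : ZMod p) := by
      push_cast at h2
      simpa using h2
    have h4 := (he 1 habs1).1
    have h5 := APL4_valMinAbs_le (p := p) (e 1)
    rw [← h3] at h5
    linarith
  · intro i hi
    have h1 : i * d 1 = d i := by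
      rcases le_or_gt 0 i with h | h
      · obtain ⟨n, rfl⟩ := Int.eq_ofNat_of_zero_le h
        rw [hnat n (by
          rw [abs_of_nonneg h] at hi
          exact_mod_cast hi)]
      · obtain ⟨n, hn⟩ := Int.eq_ofNat_of_zero_le (a := -i) (by omega)
        have hi' : i = -(n : ℤ) := by omega
        subst hi'
        rw [abs_neg, abs_of_nonneg (by positivity)] at hi
        rw [hneg n (by rw [abs_of_nonneg (by positivity)]; exact hi), hnat n (by exact_mod_cast hi)]
        ring
    rw [h1]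
    exact hd i hi

end SFL
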