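import Pool.Agent.SFL.Bas

/-!
# Avg: local constancy of g on average.
|Dv g v B (y+tv) - g(y+tv)| <= (1/|B|) sum_{s in B} |g(y+(t+s)v) - g(y+tv)|, and
|g(y+(t+s)v) - g(y+tv)| <= φ(t+s) + |gt(y+(t+s)v) - gt(y+tv)| + φ(t), φ(t) := |g(y+tv) - gt(y+tv)| in [0, 3+K] (|gt| <= K as |c_i| <= K).
The middle term: |c_i| |cos(2π(y+tv+sv)x_i) - cos(2π(y+tv)x_i)| <= K 2π nz(s v x_i) <= 2πKρ (cos_nz).
Sum over t in W: sum_t φ(t) <= sqrt(|W| sum φ^2) <= |W| ε (Cauchy-Schwarz, hs), sum_t φ(t+s) <= sum_t φ(t) + κ|W|(3+K) (shift_le).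
-/

namespace SFL
open Real

private theorem Avg_gt_bdd {K : ℝ} {k : ℕ} (hk : 1 ≤ k) {x c : Fin k → ℝ}
    (hc : ∀ i, |c i| ≤ K) (y : ℤ) : |gt k x c y| ≤ K := by
  have hk0 : (0 : ℝ) < k := by exact_mod_cast hk
  unfold gt
  rw [abs_div, abs_of_pos hk0, div_le_iff₀ hk0]
  calc |∑ i, c i * Real.cos (2 * π * y * x i)| ≤ ∑ i, |c i * Real.cos (2 * π * y * x i)| :=
        Finset.abs_sum_le_sum_abs _ _
    _ ≤ ∑ _i : Fin k, K := by
        apply Finset.sum_le_sum
        intro i _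
        rw [abs_mul]
        calc |c i| * |Real.cos (2 * π * y * x i)| ≤ |c i| * 1 := by
              gcongr
              exact Real.abs_cos_le_one _
          _ = |c i| := mul_one _
          _ ≤ K := hc i
    _ = K * k := by simp [mul_comm]

private theorem Avg_gt_shift {K ρ : ℝ} (hK : 0 ≤ K) {k : ℕ} (hk : 1 ≤ k) {x c : Fin k → ℝ}
    (hc : ∀ i, |c i| ≤ K) (y v s : ℤ) (hnz : ∀ i, nz (s * (v * x i)) ≤ ρ) :
    |gt k x c (y + s * v) - gt k x c y| ≤ 2 * π * K * ρ := by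
  have hk0 : (0 : ℝ) < k := by exact_mod_cast hk
  unfold gt
  rw [← sub_div, abs_div, abs_of_pos hk0, div_le_iff₀ hk0, ← Finset.sum_sub_distrib]
  calc |∑ i, (c i * Real.cos (2 * π * ((y + s * v : ℤ) : ℝ) * x i)
        - c i * Real.cos (2 * π * y * x i))|
      ≤ ∑ i, |c i * Real.cos (2 * π * ((y + s * v : ℤ) : ℝ) * x i)
        - c i * Real.cos (2 * π * y * x i)| := Finset.abs_sum_le_sum_abs _ _
    _ ≤ ∑ _i : Fin k, 2 * π * K * ρ := by
        apply Finset.sum_le_sum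
        intro i _
        rw [← mul_sub, abs_mul]
        have h1 := cos_nz ((y : ℝ) * x i) ((s : ℝ) * (v * x i))
        have h2 : 2 * π * ((y : ℝ) * x i + (s : ℝ) * (v * x i)) =
          2 * π * ((y + s * v : ℤ) : ℝ) * x i := by push_cast; ring
        have h3 : 2 * π * ((y : ℝ) * x i) = 2 * π * y * x i := by ring
        rw [h2, h3] at h1
        have hπ : 0 < π := Real.pi_pos
        calc |c i| * |Real.cos (2 * π * ((y + s * v : ℤ) : ℝ) * x i)
              - Real.cos (2 * π * y * x i)| ≤ K * (2 * π * nz (s * (v * x i))) := by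
              gcongr
              exact hc i
          _ ≤ K * (2 * π * ρ) := by
              gcongr
              exact hnz i
          _ = 2 * π * K * ρ := by ring
    _ = 2 * π * K * ρ * k := by simp; ring

theorem avg_bound {g : ℤ → ℝ} (hg : ∀ y, |g y| ≤ 3) {K ε κ ρ : ℝ} (hK : 0 ≤ K) (hε : 0 ≤ ε)
    {k : ℕ} (hk : 1 ≤ k) {x c : Fin k → ℝ} (hc : ∀ i, |c i| ≤ K) {W B : Finset ℤ} (hB : B.Nonempty)
    (y v : ℤ) (hs : ∑ t ∈ W, (g (y + t * v) - gt k x c (y + t * v)) ^ 2 ≤ W.card * ε ^ 2)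
    (hAI : ∀ s ∈ B, AI κ W s) (hnz : ∀ s ∈ B, ∀ i, nz (s * (v * x i)) ≤ ρ) :
    ∑ t ∈ W, |Dv g v B (y + t * v) - g (y + t * v)|
      ≤ W.card * (2 * ε + κ * (3 + K) + 2 * π * K * ρ) := by
  classical
  set φ : ℤ → ℝ := fun t => |g (y + t * v) - gt k x c (y + t * v)| with hφ
  have hφ0 : ∀ t, 0 ≤ φ t := fun t => abs_nonneg _
  have hφH : ∀ t, φ t ≤ 3 + K := by
    intro t
    calc φ t ≤ |g (y + t * v)| + |gt k x c (y + t * v)| := abs_sub _ _
      _ ≤ 3 + K := add_le_add (hg _) (Avg_gt_bdd hk hc _)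
  have hBc : (0 : ℝ) < B.card := by exact_mod_cast hB.card_pos
  -- sum of φ
  have hsum : ∑ t ∈ W, φ t ≤ W.card * ε := by
    have h1 : (∑ t ∈ W, φ t) ^ 2 ≤ W.card * ∑ t ∈ W, φ t ^ 2 := sq_sum_le_card_mul_sum_sq
    have h2 : ∑ t ∈ W, φ t ^ 2 ≤ W.card * ε ^ 2 := by
      refine le_trans (le_of_eq ?_) hs
      apply Finset.sum_congr rfl
      intro t _
      simp only [hφ, sq_abs]
    have h3 : (∑ t ∈ W, φ t) ^ 2 ≤ (W.card * ε) ^ 2 := by
      calc (∑ t ∈ W, φ t) ^ 2 ≤ W.card * ∑ t ∈ W, φ t ^ 2 := h1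
        _ ≤ W.card * (W.card * ε ^ 2) := by gcongr
        _ = (W.card * ε) ^ 2 := by ring
    exact abs_le_of_sq_le_sq' h3 (by positivity) |>.2
  have hshift : ∀ s ∈ B, ∑ t ∈ W, φ (t + s) ≤ W.card * ε + κ * W.card * (3 + K) := by
    intro s hsB
    have h1 := shift_le (hAI s hsB) hφ0 hφH
    linarith
  -- pointwise
  have hpt : ∀ t ∈ W, |Dv g v B (y + t * v) - g (y + t * v)| ≤
      (∑ s ∈ B, (φ (t + s) + 2 * π * K * ρ + φ t)) / B.card := by
    intro t _
    unfold Dv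
    have h1 : (∑ s ∈ B, g (y + t * v + s * v)) / B.card - g (y + t * v) =
        (∑ s ∈ B, (g (y + t * v + s * v) - g (y + t * v))) / B.card := by
      rw [Finset.sum_sub_distrib, Finset.sum_const, nsmul_eq_mul, sub_div,
        mul_div_cancel_left₀ _ hBc.ne']
    rw [h1, abs_div, abs_of_pos hBc]
    gcongr
    refine (Finset.abs_sum_le_sum_abs _ _).trans ?_
    apply Finset.sum_le_sum
    intro s hsB
    have h2 := Avg_gt_shift hK hk hc (y + t * v) v s (hnz s hsB)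
    have h3 : y + t * v + s * v = y + (t + s) * v := by ring
    have h4 : g (y + t * v + s * v) - g (y + t * v) =
      (g (y + (t + s) * v) - gt k x c (y + (t + s) * v)) +
      (gt k x c (y + t * v + s * v) - gt k x c (y + t * v)) +
      (-(g (y + t * v) - gt k x c (y + t * v))) := by
      rw [h3]; ring
    rw [h4]
    refine (abs_add_three _ _ _).trans ?_
    rw [abs_neg]
    exact add_le_add (add_le_add le_rfl h2) le_rfl
  calc ∑ t ∈ W, |Dv g v B (y + t * v) - g (y + t * v)|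
      ≤ ∑ t ∈ W, (∑ s ∈ B, (φ (t + s) + 2 * π * K * ρ + φ t)) / B.card :=
        Finset.sum_le_sum hpt
    _ = (∑ s ∈ B, ∑ t ∈ W, (φ (t + s) + 2 * π * K * ρ + φ t)) / B.card := by
        rw [← Finset.sum_div, Finset.sum_comm]
    _ ≤ (∑ _s ∈ B, W.card * (2 * ε + κ * (3 + K) + 2 * π * K * ρ)) / B.card := by
        gcongr with s hsB
        rw [Finset.sum_add_distrib, Finset.sum_add_distrib, Finset.sum_const, nsmul_eq_mul]
        have := hshift s hsB
        nlinarith [hsum]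
    _ = W.card * (2 * ε + κ * (3 + K) + 2 * π * K * ρ) := by
        rw [Finset.sum_const, nsmul_eq_mul, mul_div_cancel_left₀ _ hBc.ne']

end SFL
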