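import Pool.Agent.SFL.DRC

/-!
# BSG: Balog-Szemeredi-Gowers.
n = |S|, r(t) = #{(a,b) in S^2 : a - b = t} <= n, sum r = n^2, energy S = sum_t r(t)^2 (a+b=c+d iff a-c = d-b). p = 1/(2E0).
adj a b := p n <= r(a-b) (symmetric as r(-t) = r(t)). sum over unpopular t of r^2 <= p n * n^2, so sum over popular t of r^2 >= n^3/(2E0), hence
 number of adjacent pairs in S^2 = sum_{popular} r(t) >= (1/n) sum_{popular} r^2 >= n^2/(2E0) = p n^2. drc gives X.
B = {a in X : #{a' in X : (a,a') bad} <= |X|/4}. At most |X|/2 elements of X have more than |X|/4 bad partners (8*bad <= |X|^2), so |B| >= |X|/2 >= p n/4 = n/(8E0).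
For a, a' in B: at least |X|/2 elements c of X have (a,c) and (c,a') (bad is symmetric) not bad. For such c there are >= (p^2/16)n elements b with a~b~c: a - c = (a-b)+(b-c),
 each of the two differences has >= pn representations: so (p^2/16)n (pn)^2 quadruples (x1,x2,x3,x4) in S^4 with x1-x2+x3-x4 = a-c (b is determined by the quadruple: b = a - (x1 - x2)).
 Similarly for c - a'. So each element a - a' of B-B has at least (|X|/2) ((p^4/16) n^3)^2 representations x1-x2+...-x8 (c is determined: c = a - (x1-x2+x3-x4)),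
 with total number n^8 of 8-tuples: |B-B| (|X|/2) p^8 n^6/256 <= n^8, |X| >= pn/2: |B-B| <= 1024 n/p^9 <= 1024 n (2E0)^9, n <= 8E0|B|: |B-B| <= 2^10 2^9 8 E0^10 |B| = 2^22 E0^10 |B|.
-/

namespace SFL
open Real
open scoped Pointwise

/-- number of representations of t by the map u on U -/
def BSG_rep {α : Type} (U : Finset α) (u : α → ℤ) (t : ℤ) : ℕ := (U.filter (fun x => u x = t)).card

theorem BSG_conv {α β : Type} (U : Finset α) (W : Finset β) (u : α → ℤ) (w : β → ℤ)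
    (N : Finset ℤ) (a c : ℤ) :
    ∑ b ∈ N, BSG_rep U u (a - b) * BSG_rep W w (b - c)
      ≤ BSG_rep (U ×ˢ W) (fun z => u z.1 + w z.2) (a - c) := by
  classical
  unfold BSG_rep
  have hdisj : ∀ x ∈ N, ∀ y ∈ N, x ≠ y →
      Disjoint ((U.filter (fun z => u z = a - x)) ×ˢ (W.filter (fun z => w z = x - c)))
        ((U.filter (fun z => u z = a - y)) ×ˢ (W.filter (fun z => w z = y - c))) := by
    intro x _ y _ hxy
    rw [Finset.disjoint_left]
    intro z hz hz'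
    simp only [Finset.mem_product, Finset.mem_filter] at hz hz'
    apply hxy
    have h1 := hz.1.2
    have h2 := hz'.1.2
    omega
  calc ∑ b ∈ N, (U.filter (fun x => u x = a - b)).card * (W.filter (fun x => w x = b - c)).card
      = ∑ b ∈ N, ((U.filter (fun x => u x = a - b)) ×ˢ (W.filter (fun x => w x = b - c))).card := by
        refine Finset.sum_congr rfl fun b _ => ?_
        rw [Finset.card_product]
    _ = (N.biUnion fun b =>
          (U.filter (fun x => u x = a - b)) ×ˢ (W.filter (fun x => w x = b - c))).card := by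
        rw [Finset.card_biUnion hdisj]
    _ ≤ _ := by
        apply Finset.card_le_card
        intro z hz
        simp only [Finset.mem_biUnion, Finset.mem_product, Finset.mem_filter] at hz ⊢
        obtain ⟨b, _, ⟨h1, h2⟩, h3, h4⟩ := hz
        exact ⟨⟨h1, h3⟩, by omega⟩

theorem BSG_total {α : Type} (U : Finset α) (u : α → ℤ) (M : Finset ℤ) :
    ∑ t ∈ M, BSG_rep U u t ≤ U.card := by
  classical
  unfold BSG_rep
  have hdisj : ∀ x ∈ M, ∀ y ∈ M, x ≠ y →
      Disjoint (U.filter (fun z => u z = x)) (U.filter (fun z => u z = y)) := by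
    intro x _ y _ hxy
    rw [Finset.disjoint_left]
    intro z hz hz'
    simp only [Finset.mem_filter] at hz hz'
    exact hxy (hz.2.symm.trans hz'.2)
  rw [← Finset.card_biUnion hdisj]
  apply Finset.card_le_card
  intro z hz
  simp only [Finset.mem_biUnion, Finset.mem_filter] at hz
  obtain ⟨_, _, h, _⟩ := hz
  exact h

theorem BSG_rep_le (S : Finset ℤ) (t : ℤ) :
    BSG_rep (S ×ˢ S) (fun x => x.1 - x.2) t ≤ S.card := by
  classical
  unfold BSG_rep
  apply Finset.card_le_card_of_injOn (fun x => x.1)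
  · intro x hx
    simp only [Finset.coe_filter, Set.mem_ofPred_eq, Finset.mem_product] at hx
    exact hx.1.1
  · intro x hx y hy hxy
    simp only [Finset.coe_filter, Set.mem_ofPred_eq, Finset.mem_product] at hx hy
    simp only at hxy
    have h1 := hx.2
    have h2 := hy.2
    ext
    · exact hxy
    · omega

theorem BSG_rep_neg (S : Finset ℤ) (t : ℤ) :
    BSG_rep (S ×ˢ S) (fun x => x.1 - x.2) (-t) = BSG_rep (S ×ˢ S) (fun x => x.1 - x.2) t := by
  classical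
  unfold BSG_rep
  apply Finset.card_bij (fun x _ => (x.2, x.1))
  · intro x hx
    simp only [Finset.mem_filter, Finset.mem_product] at hx ⊢
    exact ⟨⟨hx.1.2, hx.1.1⟩, by have := hx.2; omega⟩
  · intro x _ y _ hxy
    simp only [Prod.mk.injEq] at hxy
    exact Prod.ext hxy.2 hxy.1
  · intro x hx
    simp only [Finset.mem_filter, Finset.mem_product] at hx
    refine ⟨(x.2, x.1), ?_, rfl⟩
    simp only [Finset.mem_filter, Finset.mem_product]
    exact ⟨⟨hx.1.2, hx.1.1⟩, by have := hx.2; omega⟩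

theorem BSG_energy (S : Finset ℤ) :
    energy S = ∑ x ∈ S ×ˢ S, BSG_rep (S ×ˢ S) (fun x => x.1 - x.2) (x.1 - x.2) := by
  classical
  unfold energy BSG_rep
  have h : ∑ x ∈ (S ×ˢ S : Finset (ℤ × ℤ)),
        ((S ×ˢ S : Finset (ℤ × ℤ)).filter (fun y : ℤ × ℤ => y.1 - y.2 = x.1 - x.2)).card
      = ((((S ×ˢ S) ×ˢ (S ×ˢ S) : Finset ((ℤ × ℤ) × (ℤ × ℤ)))).filter
          (fun z : (ℤ × ℤ) × (ℤ × ℤ) => z.2.1 - z.2.2 = z.1.1 - z.1.2)).card := by
    rw [Finset.card_filter, Finset.sum_product (S ×ˢ S) (S ×ˢ S)]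
    refine Finset.sum_congr rfl fun x _ => ?_
    rw [Finset.card_filter]
  rw [h]
  -- (a,b,c,d) with a + b = c + d goes to ((a,c),(d,b))
  apply Finset.card_bij (fun t _ => ((t.1, t.2.2.1), (t.2.2.2, t.2.1)))
  · intro t ht
    simp only [Finset.mem_filter, Finset.mem_product] at ht ⊢
    obtain ⟨⟨h1, h2, h3, h4⟩, h5⟩ := ht
    exact ⟨⟨⟨h1, h3⟩, h4, h2⟩, by omega⟩
  · intro x _ y _ hxy
    simp only [Prod.mk.injEq] at hxy
    obtain ⟨⟨h1, h2⟩, h3, h4⟩ := hxy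
    exact Prod.ext h1 (Prod.ext h4 (Prod.ext h2 h3))
  · intro z hz
    simp only [Finset.mem_filter, Finset.mem_product] at hz
    obtain ⟨⟨⟨h1, h2⟩, h3, h4⟩, h5⟩ := hz
    refine ⟨(z.1.1, z.2.2, z.1.2, z.2.1), ?_, rfl⟩
    simp only [Finset.mem_filter, Finset.mem_product]
    exact ⟨⟨h1, h4, h2, h3⟩, by omega⟩

theorem bsg {S : Finset ℤ} (hS : S.Nonempty) {E0 : ℝ} (hE0 : 1 ≤ E0)
    (hE : (S.card : ℝ) ^ 3 ≤ E0 * energy S) :
    ∃ B ⊆ S, B.Nonempty ∧ (S.card : ℝ) ≤ 8 * E0 * B.card ∧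
      ((B - B).card : ℝ) ≤ 2 ^ 22 * E0 ^ 10 * B.card := by
  classical
  obtain ⟨n, hn⟩ : ∃ n : ℝ, n = (S.card : ℝ) := ⟨_, rfl⟩
  rw [← hn] at hE ⊢
  have hn0 : 0 < n := by rw [hn]; exact_mod_cast hS.card_pos
  have hE00 : 0 < E0 := by linarith
  obtain ⟨p, hp⟩ : ∃ p : ℝ, p = 1 / (2 * E0) := ⟨_, rfl⟩
  have hp0 : 0 < p := by rw [hp]; positivity
  obtain ⟨r, hr⟩ : ∃ r : ℤ → ℕ, ∀ t, r t = BSG_rep (S ×ˢ S) (fun x => x.1 - x.2) t :=
    ⟨_, fun _ => rfl⟩
  obtain ⟨adj, hadj⟩ : ∃ adj : ℤ → ℤ → Prop, ∀ a b, adj a b ↔ p * n ≤ (r (a - b) : ℝ) :=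
    ⟨_, fun _ _ => Iff.rfl⟩
  have hrle : ∀ t, (r t : ℝ) ≤ n := fun t => by
    rw [hn, hr]; exact_mod_cast BSG_rep_le S t
  have hSS : ((S ×ˢ S).card : ℝ) = n ^ 2 := by
    rw [Finset.card_product]; push_cast; rw [hn]; ring
  have h4 : E0 * p = 1 / 2 := by rw [hp]; field_simp
  -- popular pairs
  have hedge : p * (S.card : ℝ) ^ 2 ≤ (((S ×ˢ S).filter (fun t => adj t.1 t.2)).card : ℝ) := by
    rw [← hn]
    obtain ⟨q, hq⟩ : ∃ q : ℝ, q = (((S ×ˢ S).filter (fun t => adj t.1 t.2)).card : ℝ) :=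
      ⟨_, rfl⟩
    rw [← hq]
    have h1 : (energy S : ℝ) = ∑ x ∈ S ×ˢ S, (r (x.1 - x.2) : ℝ) := by
      rw [BSG_energy]; push_cast
      exact Finset.sum_congr rfl fun x _ => by rw [hr]
    have h2 : ∑ x ∈ S ×ˢ S, (r (x.1 - x.2) : ℝ)
        ≤ ∑ x ∈ S ×ˢ S, (p * n + if adj x.1 x.2 then n else 0) := by
      refine Finset.sum_le_sum fun x _ => ?_
      have h00 : 0 ≤ p * n := by positivity
      by_cases hx : adj x.1 x.2
      · rw [if_pos hx]
        have := hrle (x.1 - x.2)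
        linarith
      · rw [if_neg hx]
        rw [hadj, not_le] at hx
        linarith
    rw [Finset.sum_add_distrib, Finset.sum_const, nsmul_eq_mul, hSS, ← Finset.sum_filter,
      Finset.sum_const, nsmul_eq_mul, ← hq, ← h1] at h2
    have h3 : n ^ 3 ≤ E0 * (n ^ 2 * (p * n) + q * n) :=
      le_trans hE (mul_le_mul_of_nonneg_left h2 hE00.le)
    have h5 : n * (n ^ 2 / 2) ≤ n * (E0 * q) := by
      have e : E0 * (n ^ 2 * (p * n) + q * n) = n ^ 3 / 2 + n * (E0 * q) := by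
        calc E0 * (n ^ 2 * (p * n) + q * n) = (E0 * p) * n ^ 3 + n * (E0 * q) := by ring
          _ = n ^ 3 / 2 + n * (E0 * q) := by rw [h4]; ring
      rw [e] at h3
      have e2 : n * (n ^ 2 / 2) = n ^ 3 - n ^ 3 / 2 := by ring
      rw [e2]
      linarith
    have h6 := le_of_mul_le_mul_left h5 hn0
    have h7 : E0 * (p * n ^ 2) ≤ E0 * q := by
      have e : E0 * (p * n ^ 2) = n ^ 2 / 2 := by
        calc E0 * (p * n ^ 2) = (E0 * p) * n ^ 2 := by ring
          _ = n ^ 2 / 2 := by rw [h4]; ring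
      rw [e]; exact h6
    exact le_of_mul_le_mul_left h7 hE00
  obtain ⟨X, hXS, hXcard, hXbad⟩ := drc hS adj hp0 hedge
  rw [← hn] at hXcard hXbad
  obtain ⟨bad, hbad⟩ : ∃ bad : ℤ → ℤ → Prop, ∀ a a', bad a a' ↔
    ((S.filter (fun b => adj b a ∧ adj b a')).card : ℝ) < p ^ 2 / 16 * n :=
    ⟨_, fun _ _ => Iff.rfl⟩
  have hXbad' : 8 * (((X ×ˢ X).filter (fun t => bad t.1 t.2)).card : ℝ) ≤ (X.card : ℝ) ^ 2 := by
    have e : (X ×ˢ X).filter (fun t => bad t.1 t.2) = (X ×ˢ X).filter (fun t =>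
        ((S.filter (fun b => adj b t.1 ∧ adj b t.2)).card : ℝ) < p ^ 2 / 16 * n) :=
      Finset.filter_congr fun t _ => hbad t.1 t.2
    rw [e]
    exact hXbad
  clear hXbad
  have hbadsymm : ∀ a a', bad a a' ↔ bad a' a := by
    intro a a'
    rw [hbad, hbad, Finset.filter_congr (q := fun b => adj b a' ∧ adj b a)]
    intro b _
    exact and_comm
  obtain ⟨x, hx⟩ : ∃ x : ℝ, x = (X.card : ℝ) := ⟨_, rfl⟩
  rw [← hx] at hXcard hXbad'
  have hpn : 0 < p * n := mul_pos hp0 hn0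
  have hX0 : 0 < x := by linarith
  -- bad partners
  obtain ⟨β, hβ⟩ : ∃ β : ℤ → ℝ, ∀ a, β a = ((X.filter (fun a' => bad a a')).card : ℝ) :=
    ⟨_, fun _ => rfl⟩
  have hβ0 : ∀ a, 0 ≤ β a := fun a => by rw [hβ]; exact Nat.cast_nonneg _
  have hβsum : 8 * ∑ a ∈ X, β a ≤ x ^ 2 := by
    have : ∑ a ∈ X, β a = (((X ×ˢ X).filter (fun t => bad t.1 t.2)).card : ℝ) := by
      rw [Finset.card_filter, Finset.sum_product]
      push_cast
      refine Finset.sum_congr rfl fun a _ => ?_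
      rw [hβ, Finset.card_filter]
      push_cast
      rfl
    rw [this]
    exact hXbad'
  obtain ⟨B, hB⟩ : ∃ B : Finset ℤ, B = X.filter (fun a => 4 * β a ≤ x) := ⟨_, rfl⟩
  have hBX : B ⊆ X := by rw [hB]; exact Finset.filter_subset _ _
  have hBcard : x / 2 ≤ (B.card : ℝ) := by
    have h1 : ∀ a ∈ X, x * (if a ∈ B then 0 else 1) ≤ 4 * β a := by
      intro a ha
      have hβ1 := hβ0 a
      by_cases haB : a ∈ B
      · rw [if_pos haB]; linarith
      · rw [if_neg haB]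
        have : ¬ (4 * β a ≤ x) := by
          intro hc
          exact haB (by rw [hB, Finset.mem_filter]; exact ⟨ha, hc⟩)
        linarith
    have h2 := Finset.sum_le_sum h1
    rw [← Finset.mul_sum, ← Finset.mul_sum] at h2
    have h3 : ∑ a ∈ X, (if a ∈ B then (0:ℝ) else 1) = x - B.card := by
      have e : ∀ a ∈ X, (if a ∈ B then (0:ℝ) else 1) = 1 - (if a ∈ B then 1 else 0) := by
        intro a _; split_ifs <;> ring
      rw [Finset.sum_congr rfl e, Finset.sum_sub_distrib, Finset.sum_const, nsmul_eq_mul, mul_one,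
        Finset.sum_ite_mem, Finset.inter_eq_right.mpr hBX, Finset.sum_const, nsmul_eq_mul, mul_one,
        hx]
    rw [h3] at h2
    have h4' : x * (x - B.card) ≤ x * (x / 2) := by nlinarith
    have h5 := le_of_mul_le_mul_left h4' hX0
    linarith
  have hB0 : 0 < (B.card : ℝ) := by linarith
  have hBne : B.Nonempty := by
    rw [← Finset.card_pos]; exact_mod_cast hB0
  have hE0p : 2 * E0 * p = 1 := by rw [mul_assoc, h4]; norm_num
  have hnB : n ≤ 8 * E0 * B.card := by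
    have h1 : p * n / 4 ≤ (B.card : ℝ) := by linarith
    have h2 : 8 * E0 * (p * n / 4) = n := by
      calc 8 * E0 * (p * n / 4) = (2 * E0 * p) * n := by ring
        _ = n := by rw [hE0p, one_mul]
    calc n = 8 * E0 * (p * n / 4) := h2.symm
      _ ≤ 8 * E0 * B.card := mul_le_mul_of_nonneg_left h1 (by positivity)
  -- representations of length four
  obtain ⟨r4, hr4⟩ : ∃ r4 : ℤ → ℕ, ∀ t, r4 t = BSG_rep ((S ×ˢ S) ×ˢ (S ×ˢ S))
    (fun z => (z.1.1 - z.1.2) + (z.2.1 - z.2.2)) t := ⟨_, fun _ => rfl⟩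
  have hr4low : ∀ a c, ¬ bad a c → p ^ 4 / 16 * n ^ 3 ≤ (r4 (a - c) : ℝ) := by
    intro a c hac
    rw [hbad, not_lt] at hac
    obtain ⟨Nac, hNac⟩ : ∃ N, N = S.filter (fun b => adj b a ∧ adj b c) := ⟨_, rfl⟩
    rw [← hNac] at hac
    have h1 : (∑ b ∈ Nac, (r (a - b) : ℝ) * (r (b - c) : ℝ)) ≤ (r4 (a - c) : ℝ) := by
      have := BSG_conv (S ×ˢ S) (S ×ˢ S) (fun x => x.1 - x.2) (fun x => x.1 - x.2) Nac a c
      rw [← hr4] at this
      simp only [← hr] at this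
      exact_mod_cast this
    have h2 : ∑ _b ∈ Nac, (p * n) * (p * n) ≤ ∑ b ∈ Nac, (r (a - b) : ℝ) * (r (b - c) : ℝ) := by
      refine Finset.sum_le_sum fun b hb => ?_
      rw [hNac, Finset.mem_filter] at hb
      obtain ⟨_, hb1, hb2⟩ := hb
      have e : r (a - b) = r (b - a) := by
        have := BSG_rep_neg S (b - a)
        rw [neg_sub, ← hr, ← hr] at this
        exact this
      rw [hadj] at hb1 hb2
      rw [e]
      exact mul_le_mul hb1 hb2 hpn.le (Nat.cast_nonneg _)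
    rw [Finset.sum_const, nsmul_eq_mul] at h2
    calc p ^ 4 / 16 * n ^ 3 = (p ^ 2 / 16 * n) * ((p * n) * (p * n)) := by ring
      _ ≤ (Nac.card : ℝ) * ((p * n) * (p * n)) := mul_le_mul_of_nonneg_right hac (by positivity)
      _ ≤ _ := h2.trans h1
  -- representations of length eight
  obtain ⟨r8, hr8⟩ : ∃ r8 : ℤ → ℕ, ∀ t, r8 t =
    BSG_rep (((S ×ˢ S) ×ˢ (S ×ˢ S)) ×ˢ ((S ×ˢ S) ×ˢ (S ×ˢ S)))
    (fun z => ((z.1.1.1 - z.1.1.2) + (z.1.2.1 - z.1.2.2))
      + ((z.2.1.1 - z.2.1.2) + (z.2.2.1 - z.2.2.2))) t := ⟨_, fun _ => rfl⟩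
  have hr8low : ∀ a ∈ B, ∀ a' ∈ B,
      x / 2 * (p ^ 4 / 16 * n ^ 3) ^ 2 ≤ (r8 (a - a') : ℝ) := by
    intro a ha a' ha'
    rw [hB, Finset.mem_filter] at ha ha'
    obtain ⟨C, hC⟩ : ∃ C, C = X.filter (fun c => ¬ bad a c ∧ ¬ bad a' c) := ⟨_, rfl⟩
    have hCcard : x / 2 ≤ (C.card : ℝ) := by
      have hsub : X ⊆ C ∪ (X.filter (fun c => bad a c) ∪ X.filter (fun c => bad a' c)) := by
        intro c hc
        simp only [hC, Finset.mem_union, Finset.mem_filter]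
        tauto
      have h1 : X.card ≤ C.card + ((X.filter (fun c => bad a c)).card
          + (X.filter (fun c => bad a' c)).card) :=
        (Finset.card_le_card hsub).trans ((Finset.card_union_le _ _).trans
          (Nat.add_le_add_left (Finset.card_union_le _ _) _))
      have h2 : x ≤ C.card + (β a + β a') := by
        rw [hx, hβ, hβ]; exact_mod_cast h1
      linarith [ha.2, ha'.2]
    have h1 : (∑ c ∈ C, (r4 (a - c) : ℝ) * (r4 (c - a') : ℝ)) ≤ (r8 (a - a') : ℝ) := by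
      have := BSG_conv ((S ×ˢ S) ×ˢ (S ×ˢ S)) ((S ×ˢ S) ×ˢ (S ×ˢ S))
        (fun z => (z.1.1 - z.1.2) + (z.2.1 - z.2.2)) (fun z => (z.1.1 - z.1.2) + (z.2.1 - z.2.2))
        C a a'
      rw [← hr8] at this
      simp only [← hr4] at this
      exact_mod_cast this
    have h2 : ∑ _c ∈ C, (p ^ 4 / 16 * n ^ 3) * (p ^ 4 / 16 * n ^ 3)
        ≤ ∑ c ∈ C, (r4 (a - c) : ℝ) * (r4 (c - a') : ℝ) := by
      refine Finset.sum_le_sum fun c hc => ?_
      rw [hC, Finset.mem_filter] at hc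
      obtain ⟨_, hc1, hc2⟩ := hc
      exact mul_le_mul (hr4low a c hc1) (hr4low c a' (fun h => hc2 ((hbadsymm c a').1 h)))
        (by positivity) (by positivity)
    rw [Finset.sum_const, nsmul_eq_mul] at h2
    calc x / 2 * (p ^ 4 / 16 * n ^ 3) ^ 2
        ≤ (C.card : ℝ) * (p ^ 4 / 16 * n ^ 3) ^ 2 :=
          mul_le_mul_of_nonneg_right hCcard (by positivity)
      _ = (C.card : ℝ) * ((p ^ 4 / 16 * n ^ 3) * (p ^ 4 / 16 * n ^ 3)) := by ring
      _ ≤ _ := h2.trans h1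
  -- total count
  have htot : ∑ t ∈ B - B, (r8 t : ℝ) ≤ n ^ 8 := by
    have h1 := BSG_total (((S ×ˢ S) ×ˢ (S ×ˢ S)) ×ˢ ((S ×ˢ S) ×ˢ (S ×ˢ S)))
      (fun z => ((z.1.1.1 - z.1.1.2) + (z.1.2.1 - z.1.2.2))
        + ((z.2.1.1 - z.2.1.2) + (z.2.2.1 - z.2.2.2))) (B - B)
    simp only [← hr8] at h1
    have h2 : ((((S ×ˢ S) ×ˢ (S ×ˢ S)) ×ˢ ((S ×ˢ S) ×ˢ (S ×ˢ S))).card : ℝ) = n ^ 8 := by
      simp only [Finset.card_product]
      push_cast
      rw [← hn]
      ring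
    rw [← h2]
    exact_mod_cast h1
  obtain ⟨D, hD⟩ : ∃ D : ℝ, D = ((B - B).card : ℝ) := ⟨_, rfl⟩
  have hD0 : 0 ≤ D := by rw [hD]; exact Nat.cast_nonneg _
  have hlow : D * (x / 2 * (p ^ 4 / 16 * n ^ 3) ^ 2) ≤ ∑ t ∈ B - B, (r8 t : ℝ) := by
    rw [hD, ← nsmul_eq_mul, ← Finset.sum_const]
    refine Finset.sum_le_sum fun t ht => ?_
    obtain ⟨a, ha, a', ha', rfl⟩ := Finset.mem_sub.mp ht
    exact hr8low a ha a' ha'
  have hfin : D * (p ^ 9 * n ^ 7 / 1024) ≤ n ^ 8 := by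
    have h1 : p ^ 9 * n ^ 7 / 1024 ≤ x / 2 * (p ^ 4 / 16 * n ^ 3) ^ 2 := by
      calc p ^ 9 * n ^ 7 / 1024 = (p * n / 2) / 2 * (p ^ 4 / 16 * n ^ 3) ^ 2 := by ring
        _ ≤ x / 2 * (p ^ 4 / 16 * n ^ 3) ^ 2 := by
          apply mul_le_mul_of_nonneg_right _ (by positivity)
          linarith
    calc D * (p ^ 9 * n ^ 7 / 1024)
        ≤ D * (x / 2 * (p ^ 4 / 16 * n ^ 3) ^ 2) :=
          mul_le_mul_of_nonneg_left h1 hD0
      _ ≤ _ := hlow.trans htot
  refine ⟨B, hBX.trans hXS, hBne, hnB, ?_⟩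
  rw [← hD]
  have h1 : D ≤ 2 ^ 19 * E0 ^ 9 * n := by
    have e : n ^ 7 * (D * p ^ 9) ≤ n ^ 7 * (1024 * n) := by
      have e1 : n ^ 7 * (D * p ^ 9) = 1024 * (D * (p ^ 9 * n ^ 7 / 1024)) := by ring
      rw [e1]
      calc 1024 * (D * (p ^ 9 * n ^ 7 / 1024)) ≤ 1024 * n ^ 8 :=
            mul_le_mul_of_nonneg_left hfin (by norm_num)
        _ = n ^ 7 * (1024 * n) := by ring
    have e2 := le_of_mul_le_mul_left e (by positivity)
    have e3 : (2 * E0 * p) ^ 9 = 1 := by rw [hE0p]; norm_num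
    calc D = D * (2 * E0 * p) ^ 9 := by rw [e3, mul_one]
      _ = (2 * E0) ^ 9 * (D * p ^ 9) := by ring
      _ ≤ (2 * E0) ^ 9 * (1024 * n) := mul_le_mul_of_nonneg_left e2 (by positivity)
      _ = 2 ^ 19 * E0 ^ 9 * n := by ring
  calc D ≤ 2 ^ 19 * E0 ^ 9 * n := h1
    _ ≤ 2 ^ 19 * E0 ^ 9 * (8 * E0 * B.card) := mul_le_mul_of_nonneg_left hnB (by positivity)
    _ = 2 ^ 22 * E0 ^ 10 * B.card := by ring

end SFL
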