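import Pool.Agent.SFL.Defs

/-!
# Bas: basic lemmas on nz, Bohr, AI.
All short. nz x = |x - round x| is the distance to the nearest integer (round_le : |x - round x| <= |x - n| for
integers n; one can also use that nz x is the norm of x in AddCircle (1:ℝ)).
cos_nz: cos(2 pi (a+b)) = cos(2 pi (a + (b - round b))), and |cos u - cos v| <= |u-v|.
-/

namespace SFL
open Real

theorem nz_nonneg (x : ℝ) : 0 ≤ nz x := abs_nonneg _

theorem nz_le_abs_sub (x : ℝ) (n : ℤ) : nz x ≤ |x - n| := round_le x n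

theorem nz_neg (x : ℝ) : nz (-x) = nz x := by
  have key : ∀ y : ℝ, nz (-y) ≤ nz y := by
    intro y
    refine (nz_le_abs_sub (-y) (-round y)).trans ?_
    unfold nz
    rw [show -y - ((-round y : ℤ) : ℝ) = -(y - round y) by push_cast; ring, abs_neg]
  refine le_antisymm (key x) ?_
  have := key (-x)
  rwa [neg_neg] at this

theorem nz_add_le (x y : ℝ) : nz (x + y) ≤ nz x + nz y := by
  refine (nz_le_abs_sub (x + y) (round x + round y)).trans ?_
  unfold nz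
  rw [show x + y - ((round x + round y : ℤ) : ℝ) = (x - round x) + (y - round y) by push_cast; ring]
  exact abs_add_le _ _

theorem Bas_abs_cos_sub (u v : ℝ) : |Real.cos u - Real.cos v| ≤ |u - v| := by
  rw [Real.cos_sub_cos, abs_mul, abs_mul, abs_neg, abs_two]
  have h1 : |Real.sin ((u + v) / 2)| ≤ 1 := Real.abs_sin_le_one _
  have h2 : |Real.sin ((u - v) / 2)| ≤ |(u - v) / 2| := Real.abs_sin_le_abs
  rw [abs_div, abs_two] at h2
  have h3 := abs_nonneg (Real.sin ((u - v) / 2))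
  have h4 := abs_nonneg (Real.sin ((u + v) / 2))
  nlinarith

theorem cos_nz (a b : ℝ) : |Real.cos (2 * π * (a + b)) - Real.cos (2 * π * a)| ≤ 2 * π * nz b := by
  have h1 : Real.cos (2 * π * (a + b)) = Real.cos (2 * π * (a + (b - round b))) := by
    rw [← Real.cos_sub_int_mul_two_pi (2 * π * (a + b)) (round b)]
    congr 1
    ring
  rw [h1]
  refine (Bas_abs_cos_sub _ _).trans ?_
  rw [show 2 * π * (a + (b - round b)) - 2 * π * a = 2 * π * (b - round b) by ring, abs_mul,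
    abs_of_pos (by positivity : (0 : ℝ) < 2 * π)]
  rfl

theorem mem_Bohr (q : ℝ) (Θ : Finset ℝ) (s : ℝ) (t : ℤ) :
    t ∈ Bohr q Θ s ↔ |(t:ℝ)| ≤ q * s ∧ ∀ θ ∈ Θ, nz (t * θ) ≤ s := by
  unfold Bohr
  rw [Finset.mem_filter, Finset.mem_Icc, neg_le, Int.le_floor, Int.le_floor, abs_le, neg_le]
  push_cast
  tauto

theorem Bohr_zero_mem {q s : ℝ} (hq : 0 ≤ q) (hs : 0 ≤ s) (Θ : Finset ℝ) : (0:ℤ) ∈ Bohr q Θ s := by
  rw [mem_Bohr]
  refine ⟨by simpa using mul_nonneg hq hs, fun θ _ => ?_⟩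
  have : nz (((0 : ℤ) : ℝ) * θ) = 0 := by simp [nz]
  rw [this]
  exact hs

theorem Bohr_neg_mem {q s : ℝ} {Θ : Finset ℝ} {t : ℤ} (h : t ∈ Bohr q Θ s) : -t ∈ Bohr q Θ s := by
  rw [mem_Bohr] at h ⊢
  refine ⟨by push_cast; rw [abs_neg]; exact h.1, fun θ hθ => ?_⟩
  push_cast
  rw [neg_mul, nz_neg]
  exact h.2 θ hθ

theorem Bohr_add_mem {q s s' : ℝ} {Θ : Finset ℝ} {t t' : ℤ} (h : t ∈ Bohr q Θ s)
    (h' : t' ∈ Bohr q Θ s') : t + t' ∈ Bohr q Θ (s + s') := by
  rw [mem_Bohr] at h h' ⊢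
  refine ⟨?_, fun θ hθ => ?_⟩
  · push_cast
    rw [mul_add]
    exact (abs_add_le _ _).trans (add_le_add h.1 h'.1)
  · push_cast
    rw [add_mul]
    exact (nz_add_le _ _).trans (add_le_add (h.2 θ hθ) (h'.2 θ hθ))

theorem Bohr_mono {q s s' : ℝ} (hq : 0 ≤ q) (h : s ≤ s') (Θ : Finset ℝ) :
    Bohr q Θ s ⊆ Bohr q Θ s' := by
  intro t ht
  rw [mem_Bohr] at ht ⊢
  exact ⟨ht.1.trans (mul_le_mul_of_nonneg_left h hq), fun θ hθ => (ht.2 θ hθ).trans h⟩

theorem Bohr_anti {q s : ℝ} {Θ Θ' : Finset ℝ} (h : Θ ⊆ Θ') : Bohr q Θ' s ⊆ Bohr q Θ s := by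
  intro t ht
  rw [mem_Bohr] at ht ⊢
  exact ⟨ht.1, fun θ hθ => ht.2 θ (h hθ)⟩

/-- one-sided shift bound. Proof: sum_{x in B} φ(x+t) <= sum over x in B with x+t in B (injective image inside B,
φ >= 0) plus (number of x in B with x+t not in B) * H. -/
theorem shift_le {κ H : ℝ} {B : Finset ℤ} {t : ℤ} (h : AI κ B t) {φ : ℤ → ℝ}
    (h0 : ∀ y, 0 ≤ φ y) (hH : ∀ y, φ y ≤ H) :
    ∑ x ∈ B, φ (x + t) ≤ ∑ x ∈ B, φ x + κ * B.card * H := by
  have hH0 : 0 ≤ H := (h0 0).trans (hH 0)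
  rw [← Finset.sum_filter_add_sum_filter_not B (fun x => x + t ∈ B)]
  refine add_le_add ?_ ?_
  · have h1 : ∑ x ∈ B.filter (fun x => x + t ∈ B), φ (x + t) =
        ∑ y ∈ (B.filter (fun x => x + t ∈ B)).image (fun x => x + t), φ y := by
      rw [Finset.sum_image]
      intro x _ y _ hxy
      exact add_right_cancel hxy
    rw [h1]
    refine Finset.sum_le_sum_of_subset_of_nonneg ?_ (fun y _ _ => h0 y)
    intro y hy
    obtain ⟨x, hx, rfl⟩ := Finset.mem_image.1 hy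
    exact (Finset.mem_filter.1 hx).2
  · calc ∑ x ∈ B.filter (fun x => ¬ (x + t ∈ B)), φ (x + t)
        ≤ ∑ x ∈ B.filter (fun x => ¬ (x + t ∈ B)), H := Finset.sum_le_sum fun x _ => hH _
      _ = ((B.filter (fun x => x + t ∉ B)).card : ℝ) * H := by
          rw [Finset.sum_const, nsmul_eq_mul]
      _ ≤ κ * B.card * H := mul_le_mul_of_nonneg_right h hH0

/-- two-sided shift bound. Proof: B+t and B have the same size, so #(B \ (B+t)) = #((B+t) \ B) =
#{x in B : x+t not in B} <= κ|B|. -/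
theorem shift_abs {κ H : ℝ} {B : Finset ℤ} {t : ℤ} (h : AI κ B t) {φ : ℤ → ℝ}
    (hH : ∀ y, |φ y| ≤ H) :
    |∑ x ∈ B, φ (x + t) - ∑ x ∈ B, φ x| ≤ 2 * κ * B.card * H := by
  have hH0 : 0 ≤ H := (abs_nonneg _).trans (hH 0)
  set C : Finset ℤ := B.image (fun x => x + t) with hC
  have hinj : Function.Injective (fun x : ℤ => x + t) := fun x y hxy => add_right_cancel hxy
  have hsum : ∑ x ∈ B, φ (x + t) = ∑ y ∈ C, φ y := by
    rw [hC, Finset.sum_image]
    intro x _ y _ hxy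
    exact add_right_cancel hxy
  have hcard : C.card = B.card := Finset.card_image_of_injective _ hinj
  have hCB : (C \ B).card = (B.filter (fun x => x + t ∉ B)).card := by
    have : C \ B = (B.filter (fun x => x + t ∉ B)).image (fun x => x + t) := by
      ext y
      simp only [hC, Finset.mem_sdiff, Finset.mem_image, Finset.mem_filter]
      constructor
      · rintro ⟨⟨x, hx, rfl⟩, hy⟩
        exact ⟨x, ⟨hx, hy⟩, rfl⟩
      · rintro ⟨x, ⟨hx, hy⟩, rfl⟩
        exact ⟨⟨x, hx, rfl⟩, hy⟩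
    rw [this, Finset.card_image_of_injective _ hinj]
  have hBC : (B \ C).card = (C \ B).card := Finset.card_sdiff_comm hcard.symm
  have hle : ((C \ B).card : ℝ) ≤ κ * B.card := by rw [hCB]; exact h
  have habs : ∀ S : Finset ℤ, |∑ y ∈ S, φ y| ≤ S.card * H := by
    intro S
    refine (Finset.abs_sum_le_sum_abs _ _).trans ?_
    rw [← nsmul_eq_mul]
    exact Finset.sum_le_card_nsmul _ _ _ (fun y _ => hH y)
  rw [hsum, ← Finset.sum_sdiff_sub_sum_sdiff]
  calc |∑ y ∈ C \ B, φ y - ∑ y ∈ B \ C, φ y|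
      ≤ |∑ y ∈ C \ B, φ y| + |∑ y ∈ B \ C, φ y| := abs_sub _ _
    _ ≤ (C \ B).card * H + (B \ C).card * H := add_le_add (habs _) (habs _)
    _ ≤ 2 * κ * B.card * H := by
        rw [hBC]
        nlinarith [mul_le_mul_of_nonneg_right hle hH0]

end SFL
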