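import Pool.Agent.SFL.Ker

/-!
# Samp: sampling (Maurey). 
Let K0 = ∫|G| <= K. If K0 = 0 then G = 0 a.e. and cf G = 0: take c = 0. Otherwise choose (x_i) greedily so that
 r_j(t) := sum_{i<j} (cf G (ψ t) - c_i cos(2π ψ(t) x_i)), c_i = K0 sgn(G(x_i)), satisfies sum_{t in W} r_j(t)^2 <= j |W| K0^2.
-/

namespace SFL
open Real

/-- sign with values `±1` -/
noncomputable def Samp_sg (y : ℝ) : ℝ := if 0 ≤ y then 1 else -1

theorem Samp_abs_sg (y : ℝ) : |Samp_sg y| = 1 := by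
  unfold Samp_sg; split_ifs <;> simp

theorem Samp_sg_mul (y : ℝ) : |y| * Samp_sg y = y := by
  unfold Samp_sg
  split_ifs with h
  · rw [abs_of_nonneg h, mul_one]
  · push Not at h
    rw [abs_of_neg h]; ring

theorem Samp_sg_sq (y : ℝ) : Samp_sg y ^ 2 = 1 := by
  unfold Samp_sg; split_ifs <;> norm_num

theorem Samp_step {G : ℝ → ℝ} {H K0 : ℝ} (hG : Good G H K0)
    (hK0 : ∫ x in (0:ℝ)..1, |G x| = K0) (hpos : 0 < K0) (W : Finset ℤ) (ψ : ℤ → ℤ) (r : ℤ → ℝ) :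
    ∃ x c : ℝ, |c| ≤ K0 ∧
      ∑ t ∈ W, (r t + (cf G (ψ t) - c * Real.cos (2 * π * (ψ t : ℤ) * x))) ^ 2 ≤
        ∑ t ∈ W, r t ^ 2 + W.card * K0 ^ 2 := by
  have hGa : Good (fun x => |G x|) H K0 := by
    refine ⟨hG.meas.abs, fun x => by rw [abs_abs]; exact hG.bdd x, ?_⟩
    simp only [abs_abs]
    exact hG.l1
  have iGa : IntervalIntegrable (fun x => |G x|) MeasureTheory.volume 0 1 := by
    have := hGa.intble (φ := fun _ => (1:ℝ)) continuous_const 0 1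
    simpa using this
  have hcos : ∀ t : ℤ, Continuous (fun x : ℝ => Real.cos (2 * π * (ψ t : ℤ) * x)) := fun t => by
    fun_prop
  have iGc : ∀ t : ℤ, IntervalIntegrable (fun x => G x * Real.cos (2 * π * (ψ t : ℤ) * x))
      MeasureTheory.volume 0 1 := fun t => hG.intble (hcos t) 0 1
  by_contra hcon
  push Not at hcon
  set A : ℝ := ∑ t ∈ W, ((r t + cf G (ψ t)) ^ 2 - r t ^ 2) with hA
  let D : ℝ → ℝ := fun x => A * |G x| -
    ∑ t ∈ W, (2 * K0 * (r t + cf G (ψ t))) * (G x * Real.cos (2 * π * (ψ t : ℤ) * x))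
  have hD : ∀ x, D x = |G x| * (∑ t ∈ W, ((r t + cf G (ψ t)) ^ 2 -
      2 * (r t + cf G (ψ t)) * (K0 * Samp_sg (G x) * Real.cos (2 * π * (ψ t : ℤ) * x)) + K0 ^ 2) -
      (∑ t ∈ W, r t ^ 2 + W.card * K0 ^ 2)) := by
    intro x
    have h1 : (W.card : ℝ) * K0 ^ 2 = ∑ _t ∈ W, K0 ^ 2 := by
      rw [Finset.sum_const, nsmul_eq_mul]
    have h2 : G x = |G x| * Samp_sg (G x) := (Samp_sg_mul (G x)).symm
    rw [h1, ← Finset.sum_add_distrib, ← Finset.sum_sub_distrib, Finset.mul_sum]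
    show A * |G x| - ∑ t ∈ W, (2 * K0 * (r t + cf G (ψ t))) * (G x * Real.cos (2 * π * (ψ t : ℤ) * x)) = _
    rw [hA, Finset.sum_mul, ← Finset.sum_sub_distrib]
    apply Finset.sum_congr rfl
    intro t _
    have h3 : G x * Real.cos (2 * π * (ψ t : ℤ) * x) =
      |G x| * Samp_sg (G x) * Real.cos (2 * π * (ψ t : ℤ) * x) := by rw [← h2]
    rw [h3]
    ring
  have hPhi : ∀ x, (∑ t ∈ W, r t ^ 2 + W.card * K0 ^ 2) < ∑ t ∈ W, ((r t + cf G (ψ t)) ^ 2 -
      2 * (r t + cf G (ψ t)) * (K0 * Samp_sg (G x) * Real.cos (2 * π * (ψ t : ℤ) * x)) + K0 ^ 2) := by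
    intro x
    have h1 := hcon x (K0 * Samp_sg (G x)) (by rw [abs_mul, Samp_abs_sg, mul_one, abs_of_pos hpos])
    refine lt_of_lt_of_le h1 (Finset.sum_le_sum fun t _ => ?_)
    have h2 : Real.cos (2 * π * (ψ t : ℤ) * x) ^ 2 ≤ 1 := Real.cos_sq_le_one _
    have h3 := Samp_sg_sq (G x)
    have h4 : (K0 * Samp_sg (G x) * Real.cos (2 * π * (ψ t : ℤ) * x)) ^ 2 ≤ K0 ^ 2 := by
      rw [mul_pow, mul_pow, h3, mul_one]
      exact mul_le_of_le_one_right (sq_nonneg _) h2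
    nlinarith [h4]
  have hD0 : ∀ x, 0 ≤ D x := by
    intro x
    rw [hD x]
    exact mul_nonneg (abs_nonneg _) (by linarith [hPhi x])
  have iS : IntervalIntegrable (fun x => ∑ t ∈ W, (2 * K0 * (r t + cf G (ψ t))) *
      (G x * Real.cos (2 * π * (ψ t : ℤ) * x))) MeasureTheory.volume 0 1 := by
    have h1 := IntervalIntegrable.sum (μ := MeasureTheory.volume) (a := (0:ℝ)) (b := 1) W
        (f := fun t x => (2 * K0 * (r t + cf G (ψ t))) * (G x * Real.cos (2 * π * (ψ t : ℤ) * x)))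
        (fun t _ => (iGc t).const_mul _)
    have h2 : (fun x => ∑ t ∈ W, (2 * K0 * (r t + cf G (ψ t))) *
      (G x * Real.cos (2 * π * (ψ t : ℤ) * x))) = ∑ t ∈ W, fun x =>
        (2 * K0 * (r t + cf G (ψ t))) * (G x * Real.cos (2 * π * (ψ t : ℤ) * x)) := by
      funext x
      rw [Finset.sum_apply]
    rw [h2]
    exact h1
  have iD : IntervalIntegrable D MeasureTheory.volume 0 1 := by
    apply IntervalIntegrable.sub
    · exact iGa.const_mul A
    · exact iS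
  have hint : ∫ x in (0:ℝ)..1, D x = -K0 * ∑ t ∈ W, cf G (ψ t) ^ 2 := by
    have h1 : ∫ x in (0:ℝ)..1, D x = A * (∫ x in (0:ℝ)..1, |G x|) -
        ∑ t ∈ W, (2 * K0 * (r t + cf G (ψ t))) * cf G (ψ t) := by
      show ∫ x in (0:ℝ)..1, (A * |G x| -
        ∑ t ∈ W, (2 * K0 * (r t + cf G (ψ t))) * (G x * Real.cos (2 * π * (ψ t : ℤ) * x))) = _
      rw [intervalIntegral.integral_sub (iGa.const_mul A), intervalIntegral.integral_const_mul,
        intervalIntegral.integral_finsetSum]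
      · congr 1
        apply Finset.sum_congr rfl
        intro t _
        rw [intervalIntegral.integral_const_mul]
        rfl
      · intro t _
        exact (iGc t).const_mul _
      · exact iS
    rw [h1, hK0, hA, Finset.sum_mul, ← Finset.sum_sub_distrib, Finset.mul_sum]
    apply Finset.sum_congr rfl
    intro t _
    ring
  have hle : ∫ x in (0:ℝ)..1, D x ≤ 0 := by
    rw [hint]
    have : 0 ≤ ∑ t ∈ W, cf G (ψ t) ^ 2 := Finset.sum_nonneg fun t _ => sq_nonneg _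
    nlinarith
  have hzero : ∫ x in (0:ℝ)..1, D x = 0 :=
    le_antisymm hle (intervalIntegral.integral_nonneg (by norm_num) fun x _ => hD0 x)
  have hae := (intervalIntegral.integral_eq_zero_iff_of_le_of_nonneg_ae (by norm_num : (0:ℝ) ≤ 1)
    (Filter.Eventually.of_forall hD0) iD).1 hzero
  have hGae : (fun x => |G x|) =ᵐ[MeasureTheory.volume.restrict (Set.Ioc (0:ℝ) 1)] 0 := by
    filter_upwards [hae] with x hx
    have h1 : D x = 0 := hx
    rw [hD x] at h1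
    rcases mul_eq_zero.1 h1 with h2 | h2
    · exact h2
    · exfalso
      have := hPhi x
      linarith
  have hK : ∫ x in (0:ℝ)..1, |G x| = 0 :=
    (intervalIntegral.integral_eq_zero_iff_of_le_of_nonneg_ae (by norm_num : (0:ℝ) ≤ 1)
      (Filter.Eventually.of_forall fun x => abs_nonneg (G x)) iGa).2 hGae
  rw [hK0] at hK
  exact hpos.ne' hK

theorem Samp_ind {G : ℝ → ℝ} {H K0 : ℝ} (hG : Good G H K0)
    (hK0 : ∫ x in (0:ℝ)..1, |G x| = K0) (hpos : 0 < K0) (W : Finset ℤ) (ψ : ℤ → ℤ) (j : ℕ) :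
    ∃ x c : Fin j → ℝ, (∀ i, |c i| ≤ K0) ∧
      ∑ t ∈ W, (∑ i, (cf G (ψ t) - c i * Real.cos (2 * π * (ψ t : ℤ) * x i))) ^ 2 ≤
        j * (W.card * K0 ^ 2) := by
  induction j with
  | zero =>
    refine ⟨fun i => i.elim0, fun i => i.elim0, fun i => i.elim0, ?_⟩
    simp
  | succ j ih =>
    obtain ⟨x, c, hc, hs⟩ := ih
    obtain ⟨x0, c0, hc0, h0⟩ := Samp_step hG hK0 hpos W ψ
      (fun t => ∑ i, (cf G (ψ t) - c i * Real.cos (2 * π * (ψ t : ℤ) * x i)))
    refine ⟨Fin.cons x0 x, Fin.cons c0 c, ?_, ?_⟩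
    · intro i
      refine Fin.cases ?_ (fun i => ?_) i
      · simpa using hc0
      · simpa using hc i
    · have h1 : ∑ t ∈ W, (∑ i : Fin (j + 1), (cf G (ψ t) - (Fin.cons c0 c : Fin (j + 1) → ℝ) i *
          Real.cos (2 * π * (ψ t : ℤ) * (Fin.cons x0 x : Fin (j + 1) → ℝ) i))) ^ 2 =
          ∑ t ∈ W, ((∑ i, (cf G (ψ t) - c i * Real.cos (2 * π * (ψ t : ℤ) * x i))) +
            (cf G (ψ t) - c0 * Real.cos (2 * π * (ψ t : ℤ) * x0))) ^ 2 := by
        apply Finset.sum_congr rfl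
        intro t _
        rw [Fin.sum_univ_succ]
        simp only [Fin.cons_zero, Fin.cons_succ]
        rw [add_comm]
      rw [h1]
      refine le_trans h0 ?_
      push_cast
      linarith

theorem sampling {G : ℝ → ℝ} {H K : ℝ} (hG : Good G H K) (W : Finset ℤ)
    (ψ : ℤ → ℤ) (k : ℕ) (hk : 1 ≤ k) :
    ∃ x c : Fin k → ℝ, (∀ i, |c i| ≤ K) ∧
      ∑ t ∈ W, (cf G (ψ t) - gt k x c (ψ t)) ^ 2 ≤ W.card * K ^ 2 / k := by
  set K0 : ℝ := ∫ x in (0:ℝ)..1, |G x| with hK0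
  have hK0nn : 0 ≤ K0 := intervalIntegral.integral_nonneg (by norm_num) fun x _ => abs_nonneg _
  have hK0K : K0 ≤ K := hG.l1
  have hG0 : Good G H K0 := ⟨hG.meas, hG.bdd, le_rfl⟩
  have hk0 : (0:ℝ) < k := by exact_mod_cast hk
  rcases hK0nn.eq_or_lt with hz | hpos
  · refine ⟨fun _ => 0, fun _ => 0, fun i => by simpa using hz ▸ hK0K, ?_⟩
    have h1 : ∀ t ∈ W, (cf G (ψ t) - gt k (fun _ => 0) (fun _ => 0) (ψ t)) ^ 2 = 0 := by
      intro t _
      have h2 : cf G (ψ t) = 0 := by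
        have h3 := abs_cf_le hG0 (ψ t)
        rw [← hz] at h3
        exact abs_eq_zero.1 (le_antisymm h3 (abs_nonneg _))
      rw [h2]
      simp [gt]
    rw [Finset.sum_eq_zero h1]
    exact div_nonneg (mul_nonneg (Nat.cast_nonneg _) (sq_nonneg _)) (Nat.cast_nonneg _)
  · obtain ⟨x, c, hc, hs⟩ := Samp_ind hG0 hK0.symm hpos W ψ k
    refine ⟨x, c, fun i => le_trans (hc i) hK0K, ?_⟩
    have h1 : ∀ t : ℤ, cf G (ψ t) - gt k x c (ψ t) =
        (∑ i, (cf G (ψ t) - c i * Real.cos (2 * π * (ψ t : ℤ) * x i))) / k := by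
      intro t
      unfold gt
      rw [Finset.sum_sub_distrib, Finset.sum_const, Finset.card_univ, Fintype.card_fin,
        nsmul_eq_mul]
      field_simp
    have h5 : ∑ t ∈ W, (cf G (ψ t) - gt k x c (ψ t)) ^ 2 =
        (∑ t ∈ W, (∑ i, (cf G (ψ t) - c i * Real.cos (2 * π * (ψ t : ℤ) * x i))) ^ 2) / (k:ℝ) ^ 2 := by
      rw [Finset.sum_div]
      apply Finset.sum_congr rfl
      intro t _
      rw [h1 t, div_pow]
    rw [h5]
    rw [div_le_div_iff₀ (by positivity) hk0]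
    have h2 : K0 ^ 2 ≤ K ^ 2 := by nlinarith
    have h3 : (W.card : ℝ) * K0 ^ 2 ≤ W.card * K ^ 2 :=
      mul_le_mul_of_nonneg_left h2 (Nat.cast_nonneg _)
    calc (∑ t ∈ W, (∑ i, (cf G (ψ t) - c i * Real.cos (2 * π * (ψ t : ℤ) * x i))) ^ 2) * k
        ≤ (k * (W.card * K0 ^ 2)) * k := mul_le_mul_of_nonneg_right hs hk0.le
      _ ≤ (k * (W.card * K ^ 2)) * k := by
          apply mul_le_mul_of_nonneg_right _ hk0.le
          exact mul_le_mul_of_nonneg_left h3 hk0.le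
      _ = _ := by ring

end SFL
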