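import Pool.Agent.SFL.Avg
import Pool.Agent.SFL.Samp

/-!
# Base: base frequencies.
k = ceil(2500 K^2/α^2) (>= 1), sampling with W = Icc (-q) q, ψ t = y0 + t v gives x_i, c_i, |c_i| <= K, and
sum_{t in W}(cf G - gt)^2 <= |W|K^2/k <= |W| ε^2 with ε = α/50. Θ0 = image of i -> v * x i.
Let B be nonempty, B inside Bohr q Θ0 s0, s0 = α/(100K). For s in B: |s| <= q s0, so #{x in W : x+s not in W} <= |s| <= q s0 <= (s0/2)|W|: AI (s0/2) W s.
nz(s (v x_i)) <= s0 (order of factors: s*(v*x_i)). avg_bound (κ = s0/2, ρ = s0):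
 sum_{t in W}|Dv - g|(y0+tv) <= |W| (2α/50 + (s0/2)(3+K) + 2πK s0) <= |W|(0.04α + 0.02α + 0.063α) <= 0.13 α|W|   (3+K <= 4K).
If Dv(y) < 1/2 for all y then every t with w(y0+tv) >= 1 (cf G >= 0.99) contributes >= 0.49, so the sum is >= 0.49 α (2q+1) = 0.49 α|W|. Contradiction.
-/

namespace SFL
open Real

/-- G^ is within 1/100 of a {0,1,2}-valued function of finite support -/
structure Near (G : ℝ → ℝ) (w : ℤ → ℤ) (Y0 : ℤ) : Prop where
  near : ∀ y, |cf G y - w y| ≤ 1 / 100
  w0 : ∀ y, 0 ≤ w y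
  w2 : ∀ y, w y ≤ 2
  far : ∀ y, Y0 < |y| → w y = 0

theorem Base_AI (q : ℕ) (s : ℤ) {c : ℝ} (h : |(s : ℝ)| ≤ q * c) (hc : 0 ≤ c) :
    AI (c / 2) (Finset.Icc (-(q:ℤ)) q) s := by
  have hW : ((Finset.Icc (-(q:ℤ)) q).card : ℝ) = 2 * q + 1 := by
    rw [Int.card_Icc]
    have : ((q : ℤ) + 1 - -(q : ℤ)).toNat = 2 * q + 1 := by omega
    rw [this]; push_cast; ring
  have h1 : (((Finset.Icc (-(q:ℤ)) q).filter (fun x => x + s ∉ Finset.Icc (-(q:ℤ)) q)).card : ℝ)
      ≤ |(s : ℝ)| := by
    have hN : ((Finset.Icc (-(q:ℤ)) q).filter (fun x => x + s ∉ Finset.Icc (-(q:ℤ)) q)).card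
        ≤ s.natAbs := by
      rcases le_total 0 s with hs | hs
      · have hsub : (Finset.Icc (-(q:ℤ)) q).filter (fun x => x + s ∉ Finset.Icc (-(q:ℤ)) q) ⊆
            Finset.Icc ((q:ℤ) - s + 1) q := by
          intro x hx
          rw [Finset.mem_filter, Finset.mem_Icc, Finset.mem_Icc] at hx
          rw [Finset.mem_Icc]
          omega
        refine (Finset.card_le_card hsub).trans ?_
        rw [Int.card_Icc]
        omega
      · have hsub : (Finset.Icc (-(q:ℤ)) q).filter (fun x => x + s ∉ Finset.Icc (-(q:ℤ)) q) ⊆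
            Finset.Icc (-(q:ℤ)) (-(q:ℤ) - s - 1) := by
          intro x hx
          rw [Finset.mem_filter, Finset.mem_Icc, Finset.mem_Icc] at hx
          rw [Finset.mem_Icc]
          omega
        refine (Finset.card_le_card hsub).trans ?_
        rw [Int.card_Icc]
        omega
    have h2 : ((s.natAbs : ℕ) : ℝ) = |(s : ℝ)| := by
      rw [Nat.cast_natAbs, Int.cast_abs]
    rw [← h2]
    exact_mod_cast hN
  unfold AI
  rw [hW]
  have : (q : ℝ) * c ≤ c / 2 * (2 * q + 1) := by nlinarith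
  linarith

theorem base {G : ℝ → ℝ} {H K : ℝ} (hG : Good G H K) (hK : 1 ≤ K) {w : ℤ → ℤ} {Y0 : ℤ}
    (hw : Near G w Y0) {v y0 : ℤ} {q : ℕ} (hq : 1 ≤ q) {α : ℝ} (hα : 0 < α) (hα1 : α ≤ 1)
    (hden : α * (2 * q + 1) ≤
      (((Finset.Icc (-(q:ℤ)) q).filter (fun t => 1 ≤ w (y0 + t * v))).card : ℝ)) :
    ∃ Θ0 : Finset ℝ, (Θ0.card : ℝ) ≤ 2500 * K ^ 2 / α ^ 2 + 1 ∧
      ∀ B : Finset ℤ, B.Nonempty → B ⊆ Bohr q Θ0 (α / (100 * K)) → ∃ y, 1 / 2 ≤ Dv (cf G) v B y := by
  classical
  have hK0 : 0 < K := by linarith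
  set W : Finset ℤ := Finset.Icc (-(q:ℤ)) q with hWdef
  have hW : (W.card : ℝ) = 2 * q + 1 := by
    rw [hWdef, Int.card_Icc]
    have : ((q : ℤ) + 1 - -(q : ℤ)).toNat = 2 * q + 1 := by omega
    rw [this]; push_cast; ring
  have hWpos : (0 : ℝ) < W.card := by rw [hW]; positivity
  set k : ℕ := ⌈2500 * K ^ 2 / α ^ 2⌉₊ with hk
  have hk1 : 2500 * K ^ 2 / α ^ 2 ≤ k := Nat.le_ceil _
  have hk2 : (k : ℝ) < 2500 * K ^ 2 / α ^ 2 + 1 := Nat.ceil_lt_add_one (by positivity)
  have hk0 : 1 ≤ k := by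
    rw [hk]
    exact Nat.one_le_ceil_iff.2 (by positivity)
  have hk0' : (0 : ℝ) < k := by exact_mod_cast hk0
  obtain ⟨x, c, hc, hsum⟩ := sampling hG W (fun t => y0 + t * v) k hk0
  refine ⟨Finset.univ.image (fun i => (v : ℝ) * x i), ?_, ?_⟩
  · have h1 : (Finset.univ.image (fun i => (v : ℝ) * x i)).card ≤ k := by
      refine Finset.card_image_le.trans ?_
      rw [Finset.card_univ, Fintype.card_fin]
    have h2 : ((Finset.univ.image (fun i => (v : ℝ) * x i)).card : ℝ) ≤ k := by exact_mod_cast h1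
    linarith
  · intro B hB hsub
    by_contra hcon
    push Not at hcon
    set s0 : ℝ := α / (100 * K) with hs0
    have hs0' : 0 < s0 := by positivity
    have hg : ∀ y, |cf G y| ≤ 3 := by
      intro y
      have h1 := abs_le.1 (hw.near y)
      have h2 : (0 : ℝ) ≤ w y := by exact_mod_cast hw.w0 y
      have h3 : (w y : ℝ) ≤ 2 := by exact_mod_cast hw.w2 y
      rw [abs_le]
      constructor <;> linarith
    have havg := avg_bound (g := cf G) hg (K := K) (ε := α / 50) (κ := s0 / 2) (ρ := s0) hK0.le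
      (by positivity) hk0 hc hB (W := W) y0 v
      (by
        refine hsum.trans ?_
        rw [mul_div_assoc]
        apply mul_le_mul_of_nonneg_left _ hWpos.le
        rw [div_le_iff₀ hk0']
        rw [div_le_iff₀ (by positivity)] at hk1
        nlinarith)
      (by
        intro s hs
        have := (mem_Bohr _ _ _ _).1 (hsub hs)
        exact Base_AI q s this.1 hs0'.le)
      (by
        intro s hs i
        have := (mem_Bohr _ _ _ _).1 (hsub hs)
        exact this.2 _ (Finset.mem_image_of_mem _ (Finset.mem_univ i)))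
    have hlow : 49 / 100 * ((W.filter (fun t => 1 ≤ w (y0 + t * v))).card : ℝ) ≤
        ∑ t ∈ W, |Dv (cf G) v B (y0 + t * v) - cf G (y0 + t * v)| := by
      calc 49 / 100 * ((W.filter (fun t => 1 ≤ w (y0 + t * v))).card : ℝ)
          = ∑ t ∈ W.filter (fun t => 1 ≤ w (y0 + t * v)), (49 / 100 : ℝ) := by
            rw [Finset.sum_const, nsmul_eq_mul]; ring
        _ ≤ ∑ t ∈ W.filter (fun t => 1 ≤ w (y0 + t * v)),
            |Dv (cf G) v B (y0 + t * v) - cf G (y0 + t * v)| := by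
            apply Finset.sum_le_sum
            intro t ht
            rw [Finset.mem_filter] at ht
            have h1 := abs_le.1 (hw.near (y0 + t * v))
            have h2 : (1 : ℝ) ≤ w (y0 + t * v) := by exact_mod_cast ht.2
            have h3 := hcon (y0 + t * v)
            rw [abs_sub_comm]
            refine le_trans ?_ (le_abs_self _)
            linarith
        _ ≤ _ := Finset.sum_le_sum_of_subset_of_nonneg (Finset.filter_subset _ _)
            (fun _ _ _ => abs_nonneg _)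
    have hb1 : s0 / 2 * (3 + K) ≤ α / 50 := by
      have e : s0 * K = α / 100 := by rw [hs0]; field_simp
      nlinarith
    have hb2 : 2 * π * K * s0 ≤ 63 / 1000 * α := by
      have e : s0 * K = α / 100 := by rw [hs0]; field_simp
      have hpi := Real.pi_lt_d2
      have : 2 * π * K * s0 = 2 * π * (α / 100) := by rw [← e]; ring
      rw [this]
      nlinarith
    have hup : (W.card : ℝ) * (2 * (α / 50) + s0 / 2 * (3 + K) + 2 * π * K * s0) ≤
        W.card * (13 / 100 * α) := by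
      apply mul_le_mul_of_nonneg_left _ hWpos.le
      linarith
    have hfin : 0 < α * (2 * q + 1) := by positivity
    rw [hW] at hup
    have := (hlow.trans havg)
    rw [hW] at this
    nlinarith

end SFL
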