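import Pool.Agent.SFL.Defs

/-!
# C1: the cosine coefficients of x -> f(N x).
f is 1-periodic, measurable, bounded by 1.
(a) N does not divide y: h(x) = f(Nx) is 1/N-periodic; with I = ∫_0^1 h(x) e^{2πiyx} dx (complex, or the pair (∫ h cos, ∫ h sin)),
    shift by 1/|N|: I = e^{2πi y/N} I (integral of a 1-periodic function over a period is shift invariant:
    Function.Periodic.intervalIntegral_add_eq), e^{2πi y/N} != 1, so I = 0.
    Real version: C = ∫h cos(2πyx), S = ∫h sin(2πyx), θ = 2πy/N: C = C cosθ - S sinθ, S = S cosθ + C sinθ => C((1-cosθ)^2+sin^2θ)=0.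
(b) y = N m: ∫_0^1 f(Nx)cos(2πN m x)dx = ∫_0^1 f(t)cos(2πmt)dt (periodic function of N x: substitution t = N x and N periods; also for N<0).
    ∫_0^1 f(t)cos(2πmt)dt = ∫_{1/3}^{2/3} cos(2πmt)dt - (1/3)∫_0^1 cos(2πmt) dt; for m = 0 this is 0;
    for m != 0 it is (sin(4πm/3) - sin(2πm/3))/(2πm) = -2 sin(2πm/3)/(2πm) [sin(4πm/3) = -sin(2πm/3)] and
    sin(2πm/3) = (√3/2) χ(m) for m > 0 (m mod 3); the expression is even in m.
-/

namespace SFL
open Real

theorem f_measurable : Measurable f := by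
  unfold f
  refine Measurable.sub_const ?_ _
  refine Measurable.ite ?_ measurable_const measurable_const
  exact (measurableSet_le measurable_const measurable_fract).inter
    (measurableSet_lt measurable_fract measurable_const)

theorem f_periodic (t : ℝ) : f (t + 1) = f t := by
  unfold f
  rw [Int.fract_add_one]

theorem f_abs_le (t : ℝ) : |f t| ≤ 2 / 3 := by
  unfold f
  split_ifs
  · rw [abs_le]; constructor <;> norm_num
  · rw [abs_le]; constructor <;> norm_num

theorem f_int (t : ℝ) (n : ℤ) : f (t + n) = f t := by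
  unfold f
  rw [Int.fract_add_intCast]

theorem c1_ii {h : ℝ → ℝ} (hm : Measurable h) (hb : ∀ x, |h x| ≤ 2 / 3) {φ : ℝ → ℝ}
    (hφ : Continuous φ) (a b : ℝ) :
    IntervalIntegrable (fun x => h x * φ x) MeasureTheory.volume a b := by
  have h1 : IntervalIntegrable φ MeasureTheory.volume a b := hφ.intervalIntegrable a b
  refine h1.mono_fun (hm.mul hφ.measurable).aestronglyMeasurable ?_
  refine Filter.Eventually.of_forall (fun x => ?_)
  show ‖h x * φ x‖ ≤ ‖φ x‖
  rw [norm_mul, Real.norm_eq_abs]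
  refine mul_le_of_le_one_left (norm_nonneg _) ((hb x).trans (by norm_num))

/-- a periodic function integrates the same over every shift of the unit interval -/
theorem c1_shift_int {g : ℝ → ℝ} (hg : ∀ x, g (x + 1) = g x) (d : ℝ) :
    ∫ x in (0:ℝ)..1, g (x + d) = ∫ x in (0:ℝ)..1, g x := by
  have hp : Function.Periodic g 1 := hg
  rw [intervalIntegral.integral_comp_add_right (fun x => g x) d]
  have := hp.intervalIntegral_add_eq d 0
  rw [zero_add] at this
  rw [zero_add, add_comm 1 d]
  exact this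

theorem c1_zero {Hf : ℝ → ℝ} (hms : Measurable Hf) (hb : ∀ x, |Hf x| ≤ 2 / 3) {m u : ℤ}
    (hm : m ≠ 0) (hu : ¬ m ∣ u)
    (hH : ∀ x, Hf (x + 1 / m) = Hf x) (hH1 : ∀ x, Hf (x + 1) = Hf x) :
    ∫ x in (0:ℝ)..1, Hf x * Real.cos (2 * π * u * x) = 0 := by
  set C := ∫ x in (0:ℝ)..1, Hf x * Real.cos (2 * π * u * x) with hC
  set S := ∫ x in (0:ℝ)..1, Hf x * Real.sin (2 * π * u * x) with hS
  set θ : ℝ := 2 * π * u / m with hθ
  have hm' : (m : ℝ) ≠ 0 := by exact_mod_cast hm
  have ic : IntervalIntegrable (fun x => Hf x * Real.cos (2 * π * u * x)) MeasureTheory.volume 0 1 :=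
    c1_ii hms hb (by fun_prop) _ _
  have is : IntervalIntegrable (fun x => Hf x * Real.sin (2 * π * u * x)) MeasureTheory.volume 0 1 :=
    c1_ii hms hb (by fun_prop) _ _
  have e1 : C = C * Real.cos θ - S * Real.sin θ := by
    have h1 : ∫ x in (0:ℝ)..1, Hf (x + 1 / m) * Real.cos (2 * π * u * (x + 1 / m)) = C := by
      rw [hC]
      refine c1_shift_int (g := fun x => Hf x * Real.cos (2 * π * u * x)) (fun x => ?_) (1 / m)
      show Hf (x + 1) * Real.cos (2 * π * u * (x + 1)) = Hf x * Real.cos (2 * π * u * x)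
      rw [hH1]
      congr 1
      rw [show 2 * π * u * (x + 1) = 2 * π * u * x + u * (2 * π) by ring,
        Real.cos_add_int_mul_two_pi]
    refine h1.symm.trans ?_
    have h2 : ∀ x : ℝ, Hf (x + 1 / m) * Real.cos (2 * π * u * (x + 1 / m))
        = Hf x * Real.cos (2 * π * u * x) * Real.cos θ
          - Hf x * Real.sin (2 * π * u * x) * Real.sin θ := by
      intro x
      rw [hH, show 2 * π * u * (x + 1 / m) = 2 * π * u * x + θ by rw [hθ]; ring, Real.cos_add]
      ring
    simp only [h2]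
    rw [intervalIntegral.integral_sub (ic.mul_const _) (is.mul_const _),
      intervalIntegral.integral_mul_const, intervalIntegral.integral_mul_const]
  have e2 : S = S * Real.cos θ + C * Real.sin θ := by
    have h1 : ∫ x in (0:ℝ)..1, Hf (x + 1 / m) * Real.sin (2 * π * u * (x + 1 / m)) = S := by
      rw [hS]
      refine c1_shift_int (g := fun x => Hf x * Real.sin (2 * π * u * x)) (fun x => ?_) (1 / m)
      show Hf (x + 1) * Real.sin (2 * π * u * (x + 1)) = Hf x * Real.sin (2 * π * u * x)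
      rw [hH1]
      congr 1
      rw [show 2 * π * u * (x + 1) = 2 * π * u * x + u * (2 * π) by ring,
        Real.sin_add_int_mul_two_pi]
    refine h1.symm.trans ?_
    have h2 : ∀ x : ℝ, Hf (x + 1 / m) * Real.sin (2 * π * u * (x + 1 / m))
        = Hf x * Real.sin (2 * π * u * x) * Real.cos θ
          + Hf x * Real.cos (2 * π * u * x) * Real.sin θ := by
      intro x
      rw [hH, show 2 * π * u * (x + 1 / m) = 2 * π * u * x + θ by rw [hθ]; ring, Real.sin_add]
      ring
    simp only [h2]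
    rw [intervalIntegral.integral_add (is.mul_const _) (ic.mul_const _),
      intervalIntegral.integral_mul_const, intervalIntegral.integral_mul_const]
  have e3 : C * ((1 - Real.cos θ) ^ 2 + Real.sin θ ^ 2) = 0 := by
    have a1 : C * (1 - Real.cos θ) = -(S * Real.sin θ) := by linarith
    have a2 : S * (1 - Real.cos θ) = C * Real.sin θ := by linarith
    calc C * ((1 - Real.cos θ) ^ 2 + Real.sin θ ^ 2)
        = (C * (1 - Real.cos θ)) * (1 - Real.cos θ) + C * Real.sin θ * Real.sin θ := by ring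
      _ = -(S * Real.sin θ) * (1 - Real.cos θ) + S * (1 - Real.cos θ) * Real.sin θ := by
          rw [a1, a2]
      _ = 0 := by ring
  rcases mul_eq_zero.mp e3 with h | h
  · exact h
  · exfalso
    have h3 : Real.cos θ = 1 := by nlinarith [sq_nonneg (1 - Real.cos θ), sq_nonneg (Real.sin θ)]
    obtain ⟨n, hn⟩ := (Real.cos_eq_one_iff θ).mp h3
    apply hu
    refine ⟨n, ?_⟩
    have h4 : (n : ℝ) * (2 * π) * m = 2 * π * u := by
      rw [hn, hθ]
      field_simp
    have h5 : (m : ℝ) * n = u := by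
      have hpi : (2 * π) ≠ 0 := by positivity
      apply mul_left_cancel₀ hpi
      linarith
    exact_mod_cast h5.symm

theorem c1_sin (n : ℕ) : Real.sin (2 * π * n / 3) = √3 / 2 * (chi n : ℝ) := by
  have h3 : (n : ℝ) = 3 * ((n / 3 : ℕ) : ℝ) + ((n % 3 : ℕ) : ℝ) := by
    have := Nat.div_add_mod n 3
    exact_mod_cast this.symm
  have e : Real.sin (2 * π * n / 3) = Real.sin (2 * π * ((n % 3 : ℕ) : ℝ) / 3) := by
    rw [show 2 * π * n / 3 = 2 * π * ((n % 3 : ℕ) : ℝ) / 3 + ((n / 3 : ℕ) : ℝ) * (2 * π) by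
      rw [h3]; ring,
      Real.sin_add_nat_mul_two_pi]
  have h := Nat.mod_lt n (show 0 < 3 by norm_num)
  rw [e]
  unfold chi
  have : n % 3 = 0 ∨ n % 3 = 1 ∨ n % 3 = 2 := by omega
  rcases this with h | h | h
  · rw [h]; simp
  · rw [h]
    simp only [Nat.cast_one, mul_one, if_true, Int.cast_one]
    rw [show 2 * π / 3 = π - π / 3 by ring, Real.sin_pi_sub, Real.sin_pi_div_three]
  · rw [h]
    simp only [Nat.cast_ofNat]
    rw [show 2 * π * 2 / 3 = π / 3 + π by ring, Real.sin_add_pi, Real.sin_pi_div_three]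
    norm_num

theorem c1_phi (m : ℤ) (hm : m ≠ 0) (a b : ℝ) :
    ∫ t in a..b, Real.cos (2 * π * m * t)
      = (Real.sin (2 * π * m * b) - Real.sin (2 * π * m * a)) / (2 * π * m) := by
  have hm' : (m : ℝ) ≠ 0 := by exact_mod_cast hm
  have hc : (2 * π * m : ℝ) ≠ 0 := by positivity
  rw [intervalIntegral.integral_comp_mul_left (fun x => Real.cos x) hc, integral_cos, smul_eq_mul]
  rw [div_eq_inv_mul]

theorem c1_split (m : ℤ) :
    ∫ t in (0:ℝ)..1, f t * Real.cos (2 * π * m * t)
      = (∫ t in (1/3:ℝ)..(2/3), Real.cos (2 * π * m * t))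
        - 1 / 3 * ∫ t in (0:ℝ)..1, Real.cos (2 * π * m * t) := by
  have ii : ∀ a b : ℝ, IntervalIntegrable (fun t => f t * Real.cos (2 * π * m * t))
      MeasureTheory.volume a b := fun a b => c1_ii f_measurable f_abs_le (by fun_prop) a b
  have ic : ∀ a b : ℝ, IntervalIntegrable (fun t => Real.cos (2 * π * m * t))
      MeasureTheory.volume a b := fun a b => Continuous.intervalIntegrable (by fun_prop) a b
  have hfr : ∀ t : ℝ, 0 < t → t < 1 → Int.fract t = t := fun t h0 h1 =>
    Int.fract_eq_self.mpr ⟨h0.le, h1⟩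
  have s1 : ∫ t in (0:ℝ)..(1/3), f t * Real.cos (2 * π * m * t)
      = ∫ t in (0:ℝ)..(1/3), (-(1/3)) * Real.cos (2 * π * m * t) := by
    refine intervalIntegral.integral_congr_Ioo_of_le (by norm_num) (fun t ht => ?_)
    show f t * _ = _
    have hf : f t = -(1/3) := by
      unfold f
      rw [hfr t ht.1 (by linarith [ht.2]), if_neg (by intro h; linarith [h.1, ht.2])]
      norm_num
    rw [hf]
  have s2 : ∫ t in (1/3:ℝ)..(2/3), f t * Real.cos (2 * π * m * t)
      = ∫ t in (1/3:ℝ)..(2/3), (2/3) * Real.cos (2 * π * m * t) := by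
    refine intervalIntegral.integral_congr_Ioo_of_le (by norm_num) (fun t ht => ?_)
    show f t * _ = _
    have hf : f t = 2/3 := by
      unfold f
      rw [hfr t (by linarith [ht.1]) (by linarith [ht.2]), if_pos ⟨ht.1.le, ht.2⟩]
      norm_num
    rw [hf]
  have s3 : ∫ t in (2/3:ℝ)..1, f t * Real.cos (2 * π * m * t)
      = ∫ t in (2/3:ℝ)..1, (-(1/3)) * Real.cos (2 * π * m * t) := by
    refine intervalIntegral.integral_congr_Ioo_of_le (by norm_num) (fun t ht => ?_)
    show f t * _ = _
    have hf : f t = -(1/3) := by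
      unfold f
      rw [hfr t (by linarith [ht.1]) ht.2, if_neg (by intro h; linarith [h.2, ht.1])]
      norm_num
    rw [hf]
  rw [← intervalIntegral.integral_add_adjacent_intervals (ii 0 (2/3)) (ii (2/3) 1),
    ← intervalIntegral.integral_add_adjacent_intervals (ii 0 (1/3)) (ii (1/3) (2/3)),
    s1, s2, s3, intervalIntegral.integral_const_mul, intervalIntegral.integral_const_mul,
    intervalIntegral.integral_const_mul,
    ← intervalIntegral.integral_add_adjacent_intervals (ic 0 (2/3)) (ic (2/3) 1),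
    ← intervalIntegral.integral_add_adjacent_intervals (ic 0 (1/3)) (ic (1/3) (2/3))]
  ring

theorem c1_base (m : ℤ) :
    ∫ t in (0:ℝ)..1, f t * Real.cos (2 * π * m * t)
      = if m ≠ 0 then -(√3 / (2 * π)) * (chi m.natAbs : ℝ) / (m.natAbs : ℝ) else 0 := by
  rw [c1_split]
  by_cases hm : m = 0
  · subst hm
    simp
    norm_num
  · rw [if_pos hm, c1_phi m hm, c1_phi m hm]
    have e0 : Real.sin (2 * π * m * 1) = 0 := by
      rw [mul_one, show 2 * π * (m:ℝ) = ((2 * m : ℤ) : ℝ) * π by push_cast; ring]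
      exact Real.sin_int_mul_pi _
    have e1 : Real.sin (2 * π * m * (2 / 3)) = -Real.sin (2 * π * m / 3) := by
      rw [show 2 * π * m * (2 / 3) = m * (2 * π) - 2 * π * m / 3 by ring,
        Real.sin_int_mul_two_pi_sub]
    have e2 : 2 * π * m * (1 / 3) = 2 * π * m / 3 := by ring
    rw [e0, e1, e2, mul_zero, Real.sin_zero, sub_zero, zero_div, mul_zero, sub_zero]
    have e3 : Real.sin (2 * π * m / 3) / m = √3 / 2 * (chi m.natAbs : ℝ) / (m.natAbs : ℝ) := by
      rcases Int.natAbs_eq m with h | h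
      · have h' : (m : ℝ) = (m.natAbs : ℝ) := by
          have h2 : (m : ℝ) = ((m.natAbs : ℤ) : ℝ) := congrArg _ h
          rwa [Int.cast_natCast] at h2
        rw [h', c1_sin]
      · have h' : (m : ℝ) = -(m.natAbs : ℝ) := by
          have h2 : (m : ℝ) = ((-(m.natAbs : ℤ) : ℤ) : ℝ) := congrArg _ h
          rwa [Int.cast_neg, Int.cast_natCast] at h2
        rw [h', show 2 * π * -(m.natAbs : ℝ) / 3 = -(2 * π * (m.natAbs : ℝ) / 3) by ring,
          Real.sin_neg, neg_div_neg_eq, c1_sin]
    have hpi : (π : ℝ) ≠ 0 := Real.pi_ne_zero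
    have hm' : (m : ℝ) ≠ 0 := by exact_mod_cast hm
    calc (-Real.sin (2 * π * m / 3) - Real.sin (2 * π * m / 3)) / (2 * π * m)
        = -(Real.sin (2 * π * m / 3) / m) / π := by field_simp; ring
      _ = _ := by rw [e3]; ring

theorem c1 (N y : ℤ) (hN : N ≠ 0) :
    ∫ x in (0:ℝ)..1, f (N * x) * Real.cos (2 * π * y * x)
      = if N ∣ y ∧ y ≠ 0 then
          -(√3 / (2 * π)) * (chi (y / N).natAbs : ℝ) / ((y / N).natAbs : ℝ) else 0 := by
  have hN' : (N : ℝ) ≠ 0 := by exact_mod_cast hN
  by_cases hd : N ∣ y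
  · obtain ⟨m, rfl⟩ := hd
    have hg : ∀ x : ℝ, f (N * x) * Real.cos (2 * π * ((N * m : ℤ) : ℝ) * x)
        = (fun t => f t * Real.cos (2 * π * m * t)) (N * x) := by
      intro x
      show _ = f (N * x) * Real.cos (2 * π * m * (N * x))
      congr 2
      push_cast
      ring
    simp only [hg]
    rw [intervalIntegral.integral_comp_mul_left (fun t => f t * Real.cos (2 * π * m * t)) hN']
    have hper : Function.Periodic (fun t => f t * Real.cos (2 * π * m * t)) 1 := by
      intro t
      show f (t + 1) * Real.cos (2 * π * m * (t + 1)) = f t * Real.cos (2 * π * m * t)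
      rw [f_periodic, show 2 * π * m * (t + 1) = 2 * π * m * t + m * (2 * π) by ring,
        Real.cos_add_int_mul_two_pi]
    have hz := hper.intervalIntegral_add_zsmul_eq N 0
      (fun a b => c1_ii f_measurable f_abs_le (by fun_prop) a b)
    rw [zero_add, zero_add, zsmul_eq_mul, mul_one, zsmul_eq_mul] at hz
    rw [mul_zero, mul_one, hz, smul_eq_mul, ← mul_assoc, inv_mul_cancel₀ hN', one_mul, c1_base,
      Int.mul_ediv_cancel_left _ hN]
    have hiff : (N ∣ N * m ∧ N * m ≠ 0) ↔ m ≠ 0 := by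
      constructor
      · rintro ⟨_, h⟩ rfl
        exact h (mul_zero _)
      · intro h
        exact ⟨dvd_mul_right _ _, mul_ne_zero hN h⟩
    by_cases h : m ≠ 0
    · rw [if_pos h, if_pos (hiff.mpr h)]
    · rw [if_neg h, if_neg (fun hh => h (hiff.mp hh))]
  · rw [if_neg (fun h => hd h.1)]
    refine c1_zero (Hf := fun x => f (N * x)) (f_measurable.comp (measurable_const_mul _))
      (fun x => f_abs_le _) hN hd (fun x => ?_) (fun x => ?_)
    · show f (N * (x + 1 / N)) = f (N * x)
      rw [show (N:ℝ) * (x + 1 / N) = N * x + 1 by field_simp, f_periodic]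
    · show f (N * (x + 1)) = f (N * x)
      rw [show (N:ℝ) * (x + 1) = N * x + N by ring, f_int]

end SFL
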