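import Pool.Agent.SFL.C1

/-!
# C2: coefficients of the sieved function.
cf (GG A z) y = -(2π/√3) sum_k μ(k)χ(k)/k sum_{a in A} ∫ f(a k x) cos(2πyx)dx, use c1 with N = a k.
For y != 0 and fixed a: the terms with a k | y: if a does not divide y all terms vanish; if r = |y/a|, then a k | y iff k | r and
χ(r/k)/(r/k) * χ(k)/k = χ(r)/r (χ completely multiplicative: check mod 3). So the sum over k is (χ(r)/r) * sum_{k | gcd(P,r)} μ(k)
 = χ(r)/r if gcd(P, r) = 1 (iff r rough: p | P iff p <= z for primes) and 0 otherwise.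
(ArithmeticFunction.sum_moebius..: sum_{d | n} μ(d) = [n=1]; the divisors k of P with k | r are the divisors of gcd(P,r).)
y = 0: all integrals are 0.
coef_near: the terms with r = 1 are a = y, a = -y (a in A, 0 not in A, χ(1) = 1) and give mult A y; the terms with r > 1 have absolute value <= 1/r.
-/

namespace SFL
open Real

theorem C2_chi_mul (a b : ℕ) : chi (a * b) = chi a * chi b := by
  have ha : a % 3 < 3 := Nat.mod_lt _ (by norm_num)
  have hb : b % 3 < 3 := Nat.mod_lt _ (by norm_num)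
  unfold chi
  rw [Nat.mul_mod]
  interval_cases (a % 3) <;> interval_cases (b % 3) <;> simp

theorem C2_chi_abs (a : ℕ) : |(chi a : ℝ)| ≤ 1 := by
  unfold chi
  split_ifs <;> simp

theorem C2_intble (c : ℝ) (y : ℤ) :
    IntervalIntegrable (fun x => f (c * x) * Real.cos (2 * π * y * x)) MeasureTheory.volume 0 1 := by
  rw [intervalIntegrable_iff]
  have hm : Measurable (fun x => f (c * x) * Real.cos (2 * π * y * x)) := by
    apply Measurable.mul
    · exact f_measurable.comp (measurable_const.mul measurable_id)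
    · exact Real.measurable_cos.comp (measurable_const.mul measurable_id)
  apply MeasureTheory.Measure.integrableOn_of_bounded (M := 1)
  · simp
  · exact hm.aestronglyMeasurable
  · refine Filter.Eventually.of_forall fun x => ?_
    rw [norm_mul, Real.norm_eq_abs, Real.norm_eq_abs]
    have h1 := f_abs_le (c * x)
    have h2 := Real.abs_cos_le_one (2 * π * y * x)
    have h3 := abs_nonneg (f (c * x))
    have h4 := abs_nonneg (Real.cos (2 * π * y * x))
    nlinarith

theorem C2_expand (A : Finset ℤ) (h0 : (0:ℤ) ∉ A) (z : ℕ) (y : ℤ) :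
    cf (GG A z) y = ∑ a ∈ A, -(2 * π / √3) * ∑ k ∈ (primorial z).divisors,
      ((ArithmeticFunction.moebius k : ℤ) : ℝ) * (chi k : ℝ) / (k : ℝ) *
        (if a * (k : ℤ) ∣ y ∧ y ≠ 0 then
          -(√3 / (2 * π)) * (chi (y / (a * (k : ℤ))).natAbs : ℝ) / ((y / (a * (k : ℤ))).natAbs : ℝ)
          else 0) := by
  unfold cf
  have e1 : ∀ x : ℝ, GG A z x * Real.cos (2 * π * y * x)
      = -(2 * π / √3) * ∑ k ∈ (primorial z).divisors,
        ((ArithmeticFunction.moebius k : ℤ) : ℝ) * (chi k : ℝ) / (k : ℝ) *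
          ∑ a ∈ A, f (((a * (k : ℤ) : ℤ) : ℝ) * x) * Real.cos (2 * π * y * x) := by
    intro x
    unfold GG F
    rw [mul_assoc, Finset.sum_mul]
    congr 1
    refine Finset.sum_congr rfl fun k _ => ?_
    rw [mul_assoc, Finset.sum_mul]
    congr 1
    refine Finset.sum_congr rfl fun a _ => ?_
    push_cast
    rw [mul_assoc (a : ℝ) (k : ℝ) x]
  simp only [e1]
  rw [intervalIntegral.integral_const_mul, intervalIntegral.integral_finsetSum]
  · simp only [intervalIntegral.integral_const_mul]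
    have e2 : ∀ k ∈ (primorial z).divisors,
        ((ArithmeticFunction.moebius k : ℤ) : ℝ) * (chi k : ℝ) / (k : ℝ) *
          ∫ x in (0:ℝ)..1, ∑ a ∈ A, f (((a * (k : ℤ) : ℤ) : ℝ) * x) * Real.cos (2 * π * y * x)
        = ∑ a ∈ A, ((ArithmeticFunction.moebius k : ℤ) : ℝ) * (chi k : ℝ) / (k : ℝ) *
        (if a * (k : ℤ) ∣ y ∧ y ≠ 0 then
          -(√3 / (2 * π)) * (chi (y / (a * (k : ℤ))).natAbs : ℝ) / ((y / (a * (k : ℤ))).natAbs : ℝ)
          else 0) := by
      intro k hk
      have hk0 : (k : ℤ) ≠ 0 := by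
        have := Nat.pos_of_mem_divisors hk
        exact_mod_cast this.ne'
      rw [intervalIntegral.integral_finsetSum (fun a _ => C2_intble _ y), Finset.mul_sum]
      refine Finset.sum_congr rfl fun a ha => ?_
      have ha0 : a ≠ 0 := fun h => h0 (h ▸ ha)
      rw [c1 (a * (k : ℤ)) y (mul_ne_zero ha0 hk0)]
    rw [Finset.sum_congr rfl e2, Finset.sum_comm, Finset.mul_sum]
  · intro k _
    apply IntervalIntegrable.const_mul
    have h := IntervalIntegrable.sum (μ := MeasureTheory.volume) (a := 0) (b := 1) A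
      (f := fun a => fun x => f (((a * (k : ℤ) : ℤ) : ℝ) * x) * Real.cos (2 * π * y * x))
      (fun a _ => C2_intble _ y)
    refine h.congr ?_
    intro x _
    simp only [Finset.sum_apply]

theorem C2_moebius_sum (P r : ℕ) (hP : P ≠ 0) :
    ∑ k ∈ P.divisors, (if k ∣ r then ((ArithmeticFunction.moebius k : ℤ) : ℝ) else 0)
      = if Nat.gcd P r = 1 then 1 else 0 := by
  have h1 : P.divisors.filter (fun k => k ∣ r) = (Nat.gcd P r).divisors := by
    ext k
    simp only [Finset.mem_filter, Nat.mem_divisors]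
    constructor
    · rintro ⟨⟨h1, _⟩, h2⟩
      exact ⟨Nat.dvd_gcd h1 h2, Nat.gcd_ne_zero_left hP⟩
    · rintro ⟨h1, _⟩
      exact ⟨⟨h1.trans (Nat.gcd_dvd_left _ _), hP⟩, h1.trans (Nat.gcd_dvd_right _ _)⟩
  rw [← Finset.sum_filter, h1, ← Int.cast_sum]
  have h2 := congrFun (congrArg (fun (g : ArithmeticFunction ℤ) => (g : ℕ → ℤ))
    ArithmeticFunction.moebius_mul_coe_zeta) (Nat.gcd P r)
  rw [ArithmeticFunction.coe_mul_zeta_apply, ArithmeticFunction.one_apply] at h2
  rw [h2]
  split_ifs <;> simp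

theorem C2_rough_iff (z r : ℕ) : Rough z r ↔ Nat.gcd (primorial z) r = 1 := by
  rw [← Nat.coprime_iff_gcd_eq_one]
  constructor
  · intro h
    rw [Nat.coprime_iff_gcd_eq_one]
    by_contra hne
    obtain ⟨p, hp, hpd⟩ := Nat.exists_prime_and_dvd hne
    have h1 : p ∣ primorial z := hpd.trans (Nat.gcd_dvd_left _ _)
    have h2 : p ∣ r := hpd.trans (Nat.gcd_dvd_right _ _)
    have h3 := h p hp h2
    rw [primorial, Prime.dvd_finsetProd_iff hp.prime] at h1
    obtain ⟨q, hq, hpq⟩ := h1
    rw [Finset.mem_filter, Finset.mem_range] at hq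
    have := (Nat.prime_dvd_prime_iff_eq hp hq.2).1 hpq
    omega
  · intro h p hp hpr
    by_contra hle
    push Not at hle
    have h1 : p ∣ primorial z := by
      rw [primorial]
      apply Finset.dvd_prod_of_mem
      rw [Finset.mem_filter, Finset.mem_range]
      exact ⟨by omega, hp⟩
    have h2 := Nat.dvd_gcd h1 hpr
    rw [Nat.coprime_iff_gcd_eq_one] at h
    rw [h] at h2
    exact hp.one_lt.ne' (Nat.dvd_one.1 h2)

open Classical in
theorem C2_term (a y : ℤ) (ha : a ≠ 0) (hy : y ≠ 0) (z : ℕ) :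
    -(2 * π / √3) * ∑ k ∈ (primorial z).divisors,
      ((ArithmeticFunction.moebius k : ℤ) : ℝ) * (chi k : ℝ) / (k : ℝ) *
        (if a * (k : ℤ) ∣ y ∧ y ≠ 0 then
          -(√3 / (2 * π)) * (chi (y / (a * (k : ℤ))).natAbs : ℝ) / ((y / (a * (k : ℤ))).natAbs : ℝ)
          else 0)
    = if a ∣ y ∧ Rough z (y / a).natAbs
      then (chi (y / a).natAbs : ℝ) / ((y / a).natAbs : ℝ) else 0 := by
  by_cases hay : a ∣ y
  · obtain ⟨m, rfl⟩ := hay
    have hm : m ≠ 0 := fun h => hy (by rw [h, mul_zero])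
    have hdiv : a * m / a = m := Int.mul_ediv_cancel_left m ha
    rw [hdiv]
    set r := m.natAbs with hr
    have hr0 : r ≠ 0 := by rw [hr]; exact Int.natAbs_ne_zero.2 hm
    have hrR : (r : ℝ) ≠ 0 := by exact_mod_cast hr0
    have hP : primorial z ≠ 0 := (primorial_pos z).ne'
    have e1 : ∀ k ∈ (primorial z).divisors,
        ((ArithmeticFunction.moebius k : ℤ) : ℝ) * (chi k : ℝ) / (k : ℝ) *
        (if a * (k : ℤ) ∣ a * m ∧ a * m ≠ 0 then
          -(√3 / (2 * π)) * (chi (a * m / (a * (k : ℤ))).natAbs : ℝ)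
            / ((a * m / (a * (k : ℤ))).natAbs : ℝ) else 0)
        = (-(√3 / (2 * π)) * ((chi r : ℝ) / r))
          * (if k ∣ r then ((ArithmeticFunction.moebius k : ℤ) : ℝ) else 0) := by
      intro k hk
      have hkpos := Nat.pos_of_mem_divisors hk
      have hk0 : (k : ℝ) ≠ 0 := by exact_mod_cast hkpos.ne'
      by_cases hkr : k ∣ r
      · have h1 : (k : ℤ) ∣ m := Int.natCast_dvd.2 hkr
        have h2 : a * (k : ℤ) ∣ a * m := mul_dvd_mul_left a h1
        rw [if_pos ⟨h2, hy⟩, if_pos hkr]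
        have hkz : (k : ℤ) ≠ 0 := by exact_mod_cast hkpos.ne'
        have h3 : a * m / (a * (k : ℤ)) = m / k := by
          obtain ⟨t, ht⟩ := h1
          rw [ht, ← mul_assoc, Int.mul_ediv_cancel_left _ (mul_ne_zero ha hkz),
            Int.mul_ediv_cancel_left _ hkz]
        rw [h3]
        obtain ⟨s, hs⟩ := hkr
        have h4 : (m / (k : ℤ)).natAbs = s := by
          have : (m / (k : ℤ)).natAbs = m.natAbs / k := by
            rw [Int.natAbs_ediv_of_dvd h1, Int.natAbs_natCast]
          rw [this, ← hr, hs, Nat.mul_div_cancel_left _ hkpos]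
        rw [h4]
        have hs0 : (s : ℝ) ≠ 0 := by
          intro h
          apply hr0
          have : s = 0 := by exact_mod_cast h
          rw [hs, this, mul_zero]
        have h5 : (chi r : ℝ) = chi k * chi s := by
          rw [hs, C2_chi_mul]; push_cast; ring
        have h6 : (r : ℝ) = k * s := by rw [hs]; push_cast; ring
        rw [h5, h6]
        field_simp
      · rw [if_neg hkr]
        have h2 : ¬ (a * (k : ℤ) ∣ a * m ∧ a * m ≠ 0) := by
          rintro ⟨h, _⟩
          apply hkr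
          exact Int.natCast_dvd.1 ((mul_dvd_mul_iff_left ha).1 h)
        rw [if_neg h2]
        ring
    rw [Finset.sum_congr rfl e1, ← Finset.mul_sum, C2_moebius_sum _ _ hP]
    have hpi : (π : ℝ) ≠ 0 := Real.pi_ne_zero
    have hs3 : (√3 : ℝ) ≠ 0 := by positivity
    by_cases hR : Rough z r
    · rw [if_pos ((C2_rough_iff z r).1 hR), if_pos ⟨dvd_mul_right a m, hR⟩]
      field_simp
    · rw [if_neg (fun h => hR ((C2_rough_iff z r).2 h)), if_neg (fun h => hR h.2)]
      ring
  · rw [if_neg (fun h => hay h.1)]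
    have : ∀ k ∈ (primorial z).divisors,
        ((ArithmeticFunction.moebius k : ℤ) : ℝ) * (chi k : ℝ) / (k : ℝ) *
        (if a * (k : ℤ) ∣ y ∧ y ≠ 0 then
          -(√3 / (2 * π)) * (chi (y / (a * (k : ℤ))).natAbs : ℝ) / ((y / (a * (k : ℤ))).natAbs : ℝ)
          else 0) = 0 := by
      intro k _
      rw [if_neg (fun h => hay (dvd_of_mul_right_dvd h.1)), mul_zero]
    rw [Finset.sum_eq_zero this, mul_zero]

open Classical in
theorem coef (A : Finset ℤ) (h0 : (0:ℤ) ∉ A) (z : ℕ) {y : ℤ} (hy : y ≠ 0) :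
    cf (GG A z) y = ∑ a ∈ A, if a ∣ y ∧ Rough z (y / a).natAbs
      then (chi (y / a).natAbs : ℝ) / ((y / a).natAbs : ℝ) else 0 := by
  rw [C2_expand A h0 z y]
  refine Finset.sum_congr rfl fun a ha => ?_
  exact C2_term a y (fun h => h0 (h ▸ ha)) hy z

theorem coef_zero (A : Finset ℤ) (h0 : (0:ℤ) ∉ A) (z : ℕ) : cf (GG A z) 0 = 0 := by
  rw [C2_expand A h0 z 0]
  simp

theorem coef_near (A : Finset ℤ) (h0 : (0:ℤ) ∉ A) (z : ℕ) {y : ℤ} (hy : y ≠ 0) :
    |cf (GG A z) y - mult A y| ≤ T A z y := by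
  classical
  have hmult : ((mult A y : ℤ) : ℝ) = ∑ a ∈ A, ((if a = y then (1:ℝ) else 0)
      + (if a = -y then (1:ℝ) else 0)) := by
    unfold mult
    rw [Finset.sum_add_distrib, Finset.sum_ite_eq', Finset.sum_ite_eq']
    push_cast
    rfl
  rw [coef A h0 z hy, hmult, ← Finset.sum_sub_distrib]
  refine (Finset.abs_sum_le_sum_abs _ _).trans ?_
  unfold T
  refine Finset.sum_le_sum fun a ha => ?_
  have ha0 : a ≠ 0 := fun h => h0 (h ▸ ha)
  have hR1 : Rough z 1 := fun p hp h => absurd (Nat.dvd_one.1 h) hp.one_lt.ne'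
  have hTnn : (0:ℝ) ≤ (if a ∣ y ∧ 1 < (y / a).natAbs ∧ Rough z (y / a).natAbs
      then 1 / ((y / a).natAbs : ℝ) else 0) := by
    split_ifs <;> positivity
  by_cases h1 : a = y
  · subst h1
    have e1 : a / a = 1 := Int.ediv_self ha0
    have e2 : a ≠ -a := by omega
    have e3 : (a / a).natAbs = 1 := by rw [e1]; rfl
    have e4 : (if a ∣ a ∧ Rough z (a / a).natAbs then (chi (a / a).natAbs : ℝ)
        / ((a / a).natAbs : ℝ) else 0) - ((if a = a then (1:ℝ) else 0)
        + (if a = -a then (1:ℝ) else 0)) = 0 := by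
      rw [e3, if_pos ⟨dvd_refl a, hR1⟩, if_pos rfl, if_neg e2]
      simp [chi]
    rw [e4, abs_zero]
    exact hTnn
  · by_cases h2 : a = -y
    · have hy' : y = -a := by omega
      subst hy'
      have e1 : -a / a = -1 := by
        rw [Int.neg_ediv_of_dvd (dvd_refl a), Int.ediv_self ha0]
      have e3 : (-a / a).natAbs = 1 := by rw [e1]; rfl
      have e4 : (if a ∣ -a ∧ Rough z (-a / a).natAbs then (chi (-a / a).natAbs : ℝ)
          / ((-a / a).natAbs : ℝ) else 0) - ((if a = -a then (1:ℝ) else 0)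
          + (if a = - -a then (1:ℝ) else 0)) = 0 := by
        rw [e3, if_pos ⟨(dvd_neg).2 (dvd_refl a), hR1⟩, if_neg h1, if_pos (neg_neg a).symm]
        simp [chi]
      rw [e4, abs_zero]
      exact hTnn
    · rw [if_neg h1, if_neg h2, add_zero, sub_zero]
      by_cases h3 : a ∣ y ∧ Rough z (y / a).natAbs
      · rw [if_pos h3]
        obtain ⟨m, hm⟩ := h3.1
        have hdiv : y / a = m := by rw [hm]; exact Int.mul_ediv_cancel_left m ha0
        have hm0 : m ≠ 0 := fun h => hy (by rw [hm, h, mul_zero])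
        have hm1 : m ≠ 1 := fun h => h1 (by rw [hm, h, mul_one])
        have hm2 : m ≠ -1 := fun h => h2 (by rw [hm, h]; ring)
        have hr : 1 < (y / a).natAbs := by rw [hdiv]; omega
        rw [if_pos ⟨h3.1, hr, h3.2⟩, abs_div]
        have h5 : |(((y / a).natAbs : ℕ) : ℝ)| = ((y / a).natAbs : ℝ) := abs_of_nonneg (by positivity)
        rw [h5]
        exact div_le_div_of_nonneg_right (C2_chi_abs _) (by positivity)
      · rw [if_neg h3, abs_zero]
        exact hTnn

end SFL
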