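import Pool.Agent.SFL.C1

/-!
# C3: norm bounds for GG.
2π/√3 <= 3.63. |F A x| <= (2/3) n, so |GG| <= 3.63 * Pi1 * (2/3) n <= 4 n Pi1 (|μ|,|χ| <= 1).
∫_0^1 F A = 0 (c1 with y = 0: cos 0 = 1), so ∫|F| = 2∫F^+ <= 2L; ∫_0^1 |F(kx)|dx = ∫_0^1|F| for k >= 1 (periodic).
∫|GG| <= 3.63 * Pi1 * 2L <= 8 L Pi1.
-/

namespace SFL
open Real

theorem c3_F_meas (A : Finset ℤ) : Measurable (F A) := by
  unfold F
  exact Finset.measurable_fun_sum _ (fun a _ => f_measurable.comp (measurable_const_mul _))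

theorem c3_F_abs (A : Finset ℤ) (x : ℝ) : |F A x| ≤ 2 / 3 * A.card := by
  unfold F
  calc |∑ a ∈ A, f (a * x)| ≤ ∑ a ∈ A, |f (a * x)| := Finset.abs_sum_le_sum_abs _ _
    _ ≤ ∑ _a ∈ A, (2 / 3 : ℝ) := Finset.sum_le_sum (fun a _ => f_abs_le _)
    _ = 2 / 3 * A.card := by rw [Finset.sum_const, nsmul_eq_mul]; ring

theorem c3_F_per (A : Finset ℤ) (x : ℝ) : F A (x + 1) = F A x := by
  unfold F
  refine Finset.sum_congr rfl (fun a _ => ?_)
  rw [show (a:ℝ) * (x + 1) = a * x + a by ring]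
  unfold f
  rw [Int.fract_add_intCast]

theorem c3_ii {g : ℝ → ℝ} (hm : Measurable g) {C : ℝ} (hb : ∀ x, |g x| ≤ C) (a b : ℝ) :
    IntervalIntegrable g MeasureTheory.volume a b := by
  have h1 : IntervalIntegrable (fun _ : ℝ => C) MeasureTheory.volume a b :=
    continuous_const.intervalIntegrable a b
  refine h1.mono_fun hm.aestronglyMeasurable ?_
  refine Filter.Eventually.of_forall (fun x => ?_)
  show ‖g x‖ ≤ ‖C‖
  rw [Real.norm_eq_abs, Real.norm_eq_abs]
  exact (hb x).trans (le_abs_self _)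

theorem c3_F_int (A : Finset ℤ) (h0 : (0:ℤ) ∉ A) : ∫ x in (0:ℝ)..1, F A x = 0 := by
  unfold F
  rw [intervalIntegral.integral_finsetSum]
  · refine Finset.sum_eq_zero (fun a ha => ?_)
    have hne : a ≠ 0 := fun h => h0 (h ▸ ha)
    have h := c1 a 0 hne
    rw [if_neg (fun hh => hh.2 rfl)] at h
    simpa using h
  · intro a _
    exact c3_ii (f_measurable.comp (measurable_const_mul _)) (fun x => f_abs_le _) _ _

theorem c3_absF (A : Finset ℤ) (h0 : (0:ℤ) ∉ A) {L : ℝ} (hL : 0 ≤ L) (hF : ∀ x, F A x ≤ L) :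
    ∫ x in (0:ℝ)..1, |F A x| ≤ 2 * L := by
  have iF := c3_ii (c3_F_meas A) (c3_F_abs A) 0 1
  have h1 : ∫ x in (0:ℝ)..1, |F A x| ≤ ∫ x in (0:ℝ)..1, (2 * L - F A x) := by
    refine intervalIntegral.integral_mono_on zero_le_one iF.abs
      ((continuous_const.intervalIntegrable _ _).sub iF) (fun x _ => ?_)
    rw [abs_le]
    constructor
    · linarith [hF x]
    · linarith [hF x]
  rw [intervalIntegral.integral_sub (continuous_const.intervalIntegrable _ _) iF, c3_F_int A h0] at h1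
  simpa using h1

theorem c3_scale (A : Finset ℤ) (k : ℕ) (hk : k ≠ 0) :
    ∫ x in (0:ℝ)..1, |F A (k * x)| = ∫ x in (0:ℝ)..1, |F A x| := by
  have hk' : (k : ℝ) ≠ 0 := by exact_mod_cast hk
  rw [intervalIntegral.integral_comp_mul_left (fun t => |F A t|) hk']
  have hper : Function.Periodic (fun t => |F A t|) 1 := by
    intro t
    show |F A (t + 1)| = |F A t|
    rw [c3_F_per]
  have hz := hper.intervalIntegral_add_zsmul_eq (k : ℤ) 0
    (fun a b => (c3_ii (c3_F_meas A) (c3_F_abs A) a b).abs)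
  rw [zero_add, zero_add, zsmul_eq_mul, mul_one, zsmul_eq_mul, Int.cast_natCast] at hz
  rw [mul_zero, mul_one, hz, smul_eq_mul, ← mul_assoc, inv_mul_cancel₀ hk', one_mul]

theorem c3_coef (k : ℕ) :
    |((ArithmeticFunction.moebius k : ℤ) : ℝ) * (chi k : ℝ) / (k : ℝ)| ≤ 1 / k := by
  rw [abs_div, abs_mul, Nat.abs_cast]
  refine div_le_div_of_nonneg_right ?_ (Nat.cast_nonneg _)
  have h1 : |((ArithmeticFunction.moebius k : ℤ) : ℝ)| ≤ 1 := by
    have := ArithmeticFunction.abs_moebius_le_one (n := k)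
    exact_mod_cast this
  have h2 : |((chi k : ℤ) : ℝ)| ≤ 1 := by
    unfold chi
    split_ifs <;> simp
  calc _ ≤ (1:ℝ) * 1 := mul_le_mul h1 h2 (abs_nonneg _) zero_le_one
    _ = 1 := one_mul 1

theorem c3_const : 2 * π / √3 ≤ 363 / 100 ∧ 0 ≤ 2 * π / √3 := by
  have h3 : 0 < √3 := by positivity
  refine ⟨?_, by positivity⟩
  rw [div_le_iff₀ h3]
  have h1 : (1.7320:ℝ) ≤ √3 := by
    refine Real.le_sqrt_of_sq_le ?_
    norm_num
  have h2 := Real.pi_lt_d4
  linarith

theorem good_GG (A : Finset ℤ) (h0 : (0:ℤ) ∉ A) (z : ℕ) {L : ℝ} (hL : 0 ≤ L) (hF : ∀ x, F A x ≤ L) :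
    Good (GG A z) (4 * A.card * Pi1 z) (8 * L * Pi1 z) := by
  obtain ⟨hc1, hc0⟩ := c3_const
  have hPi : 0 ≤ Pi1 z := by
    unfold Pi1
    exact Finset.sum_nonneg (fun k _ => by positivity)
  have hmeas : Measurable (GG A z) := by
    unfold GG
    refine Measurable.const_mul ?_ _
    exact Finset.measurable_fun_sum _ (fun k _ =>
      Measurable.const_mul ((c3_F_meas A).comp (measurable_const_mul _)) _)
  have hpt : ∀ x, |GG A z x| ≤ 363 / 100 * ∑ k ∈ (primorial z).divisors, (1 : ℝ) / k * |F A (k * x)| := by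
    intro x
    unfold GG
    rw [abs_mul, abs_neg, abs_of_nonneg hc0]
    refine mul_le_mul hc1 ?_ (abs_nonneg _) (by norm_num)
    refine (Finset.abs_sum_le_sum_abs _ _).trans (Finset.sum_le_sum (fun k _ => ?_))
    rw [abs_mul]
    exact mul_le_mul_of_nonneg_right (c3_coef k) (abs_nonneg _)
  have hb : ∀ x, |GG A z x| ≤ 4 * A.card * Pi1 z := by
    intro x
    refine (hpt x).trans ?_
    have h1 : ∑ k ∈ (primorial z).divisors, (1 : ℝ) / k * |F A (k * x)|
        ≤ Pi1 z * (2 / 3 * A.card) := by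
      unfold Pi1
      rw [Finset.sum_mul]
      exact Finset.sum_le_sum (fun k _ => mul_le_mul_of_nonneg_left (c3_F_abs A _) (by positivity))
    have h2 : 0 ≤ Pi1 z * (A.card : ℝ) := mul_nonneg hPi (Nat.cast_nonneg _)
    nlinarith
  refine ⟨hmeas, hb, ?_⟩
  have iG := (c3_ii hmeas hb 0 1).abs
  have iF : ∀ k : ℕ, IntervalIntegrable (fun x => (1 : ℝ) / k * |F A (k * x)|)
      MeasureTheory.volume 0 1 := by
    intro k
    exact (c3_ii ((c3_F_meas A).comp (measurable_const_mul _)) (fun x => c3_F_abs A _) 0 1).abs.const_mul _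
  have iS : IntervalIntegrable (fun x => 363 / 100 * ∑ k ∈ (primorial z).divisors, (1 : ℝ) / k * |F A (k * x)|)
      MeasureTheory.volume 0 1 := by
    refine IntervalIntegrable.const_mul ?_ _
    have h := IntervalIntegrable.sum (primorial z).divisors
      (f := fun (k : ℕ) (x : ℝ) => (1 : ℝ) / k * |F A (k * x)|) (fun k _ => iF k)
    have he : (∑ k ∈ (primorial z).divisors, fun x : ℝ => (1 : ℝ) / k * |F A (k * x)|)
        = fun x : ℝ => ∑ k ∈ (primorial z).divisors, (1 : ℝ) / k * |F A (k * x)| := by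
      funext x
      rw [Finset.sum_apply]
    rw [he] at h
    exact h
  calc ∫ x in (0:ℝ)..1, |GG A z x|
      ≤ ∫ x in (0:ℝ)..1, 363 / 100 * ∑ k ∈ (primorial z).divisors, (1 : ℝ) / k * |F A (k * x)| :=
        intervalIntegral.integral_mono_on zero_le_one iG iS (fun x _ => hpt x)
    _ = 363 / 100 * ∑ k ∈ (primorial z).divisors, (1 : ℝ) / k * ∫ x in (0:ℝ)..1, |F A x| := by
        rw [intervalIntegral.integral_const_mul, intervalIntegral.integral_finsetSum (fun k _ => iF k)]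
        congr 1
        refine Finset.sum_congr rfl (fun k hk => ?_)
        rw [intervalIntegral.integral_const_mul, c3_scale A k (Nat.pos_of_mem_divisors hk).ne']
    _ = 363 / 100 * (Pi1 z * ∫ x in (0:ℝ)..1, |F A x|) := by
        unfold Pi1
        rw [Finset.sum_mul]
    _ ≤ 8 * L * Pi1 z := by
        have h1 := mul_le_mul_of_nonneg_left (c3_absF A h0 hL hF) hPi
        have h2 : 0 ≤ Pi1 z * L := mul_nonneg hPi hL
        nlinarith

end SFL
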