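import Pool.Agent.SFL.Ker

/-!
# Tel: telescoping along a chain of almost invariant sets.

(1) For i < j < m: |mB(B_i) φ| * |1 - mB(B_j) φ| <= 2κ.
 For s in B_j (also -s in B_j): cos(2πtφ)cos(2πsφ) = (cos(2π(t+s)φ) + cos(2π(t-s)φ))/2, so by shift_abs (H = 1)
 |mB(B_i)φ cos(2πsφ) - mB(B_i)φ| <= 2κ. Average over s in B_j.
(2) Fix φ, τ^2 = 2κ. Let a_i = mB(B_i)φ in [-1,1]. If |a_i| >= τ for some i, take the least such i = i0; for j > i0: |1-a_j| <= 2κ/τ = τ.
 Then |a_j - a_{j+1}| <= 2τ unless j = i0-1 or j = i0, where it is <= 2. So the sum over j < m-1 is <= 4 + 2τ(m-1).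
 If no i has |a_i| >= τ every term is <= 2τ. (One way in Lean: show |a_j - a_{j+1}| <= 2τ + 2*1[j+1 = i0] + 2*1[j = i0].)
(3) tel_int: |Dv(B_j)(y_j) - Dv(B_{j+1})(y_j)| <= ∫|G| |mB(B_j)(vx) - mB(B_{j+1})(vx)| (Dv_cf), sum over j, and ∫|G| <= K.
-/

namespace SFL
open Real

theorem tel_aux_pair {κ : ℝ} {B B' : Finset ℤ} (hB : B.Nonempty) (hB' : B'.Nonempty)
    (hsym' : ∀ t ∈ B', -t ∈ B') (hAI : ∀ t ∈ B', AI κ B t) (φ : ℝ) :
    |mB B φ| * |1 - mB B' φ| ≤ 2 * κ := by
  have hc : 0 < (B.card : ℝ) := by exact_mod_cast hB.card_pos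
  have hc' : 0 < (B'.card : ℝ) := by exact_mod_cast hB'.card_pos
  have h1 : ∀ s ∈ B', |mB B φ| * |1 - Real.cos (2 * π * s * φ)| ≤ 2 * κ := by
    intro s hs
    have e1 := shift_abs (H := 1) (hAI s hs) (φ := fun y : ℤ => Real.cos (2 * π * y * φ))
      (fun y => Real.abs_cos_le_one _)
    have e2 := shift_abs (H := 1) (hAI (-s) (hsym' s hs)) (φ := fun y : ℤ => Real.cos (2 * π * y * φ))
      (fun y => Real.abs_cos_le_one _)
    have e3 : (∑ x ∈ B, Real.cos (2 * π * ((x + s : ℤ) : ℝ) * φ)) +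
        ∑ x ∈ B, Real.cos (2 * π * ((x + -s : ℤ) : ℝ) * φ) =
        2 * ((∑ x ∈ B, Real.cos (2 * π * x * φ)) * Real.cos (2 * π * s * φ)) := by
      rw [← Finset.sum_add_distrib, Finset.sum_mul, Finset.mul_sum]
      apply Finset.sum_congr rfl
      intro x _
      have a1 : 2 * π * ((x + s : ℤ) : ℝ) * φ = 2 * π * x * φ + 2 * π * s * φ := by
        push_cast; ring
      have a2 : 2 * π * ((x + -s : ℤ) : ℝ) * φ = 2 * π * x * φ - 2 * π * s * φ := by
        push_cast; ring
      rw [a1, a2, Real.cos_add, Real.cos_sub]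
      ring

    set S := ∑ x ∈ B, Real.cos (2 * π * x * φ) with hS
    set S1 := ∑ x ∈ B, Real.cos (2 * π * ((x + s : ℤ) : ℝ) * φ)
    set S2 := ∑ x ∈ B, Real.cos (2 * π * ((x + -s : ℤ) : ℝ) * φ)
    rw [abs_le] at e1 e2
    have e4 : |S * (1 - Real.cos (2 * π * s * φ))| ≤ 2 * κ * B.card := by
      rw [abs_le]
      constructor <;> nlinarith
    have e5 : mB B φ = S / B.card := rfl
    rw [e5, abs_div, abs_of_pos hc, div_mul_eq_mul_div, ← abs_mul, div_le_iff₀ hc]
    exact e4
  have h2 : |1 - mB B' φ| ≤ (∑ s ∈ B', |1 - Real.cos (2 * π * s * φ)|) / B'.card := by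
    have e : 1 - mB B' φ = (∑ s ∈ B', (1 - Real.cos (2 * π * s * φ))) / B'.card := by
      unfold mB
      rw [Finset.sum_sub_distrib, Finset.sum_const, nsmul_eq_mul, mul_one, sub_div,
        div_self hc'.ne']
    rw [e, abs_div, abs_of_pos hc']
    exact div_le_div_of_nonneg_right (Finset.abs_sum_le_sum_abs _ _) hc'.le
  calc |mB B φ| * |1 - mB B' φ|
      ≤ |mB B φ| * ((∑ s ∈ B', |1 - Real.cos (2 * π * s * φ)|) / B'.card) :=
        mul_le_mul_of_nonneg_left h2 (abs_nonneg _)
    _ = (∑ s ∈ B', |mB B φ| * |1 - Real.cos (2 * π * s * φ)|) / B'.card := by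
        rw [← mul_div_assoc, Finset.mul_sum]
    _ ≤ (∑ s ∈ B', 2 * κ) / B'.card :=
        div_le_div_of_nonneg_right (Finset.sum_le_sum h1) hc'.le
    _ = 2 * κ := by
        rw [Finset.sum_const, nsmul_eq_mul]
        field_simp

theorem tel_aux_le_one (B : Finset ℤ) (φ : ℝ) : |mB B φ| ≤ 1 := by
  unfold mB
  rcases Nat.eq_zero_or_pos B.card with h | h
  · rw [h]; simp
  · have hc : 0 < (B.card : ℝ) := by exact_mod_cast h
    rw [abs_div, abs_of_pos hc, div_le_one hc]
    calc |∑ t ∈ B, Real.cos (2 * π * t * φ)| ≤ ∑ t ∈ B, |Real.cos (2 * π * t * φ)| :=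
          Finset.abs_sum_le_sum_abs _ _
      _ ≤ ∑ t ∈ B, (1 : ℝ) := Finset.sum_le_sum fun t _ => Real.abs_cos_le_one _
      _ = B.card := by simp

theorem tel {m : ℕ} {B : ℕ → Finset ℤ} {κ τ : ℝ} (hτ : 0 < τ) (hτκ : τ ^ 2 = 2 * κ)
    (hne : ∀ i < m, (B i).Nonempty) (hsym : ∀ i < m, ∀ t ∈ B i, -t ∈ B i)
    (hAI : ∀ i j, i < j → j < m → ∀ t ∈ B j, AI κ (B i) t) (φ : ℝ) :
    ∑ j ∈ Finset.range (m - 1), |mB (B j) φ - mB (B (j + 1)) φ| ≤ 4 + 2 * τ * m := by
  classical
  set a : ℕ → ℝ := fun i => mB (B i) φ with ha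
  have ha1 : ∀ i, |a i| ≤ 1 := fun i => tel_aux_le_one (B i) φ
  have key : ∃ i0 : ℕ, ∀ j, j + 1 < m → |a j - a (j + 1)| ≤
      2 * τ + ((if j + 1 = i0 then 2 else 0) + (if j = i0 then 2 else 0)) := by
    by_cases h : ∃ i, i < m ∧ τ ≤ |a i|
    · refine ⟨Nat.find h, ?_⟩
      intro j hj
      have hi0 := Nat.find_spec h
      set i0 := Nat.find h with hi0d
      have hbig : |a j - a (j + 1)| ≤ 2 := by
        calc |a j - a (j + 1)| ≤ |a j| + |a (j + 1)| := abs_sub _ _
          _ ≤ 1 + 1 := add_le_add (ha1 _) (ha1 _)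
          _ = 2 := by norm_num
      rcases lt_trichotomy j i0 with hlt | heq | hgt
      · have h1 : |a j| < τ := by
          by_contra hc
          exact Nat.find_min h hlt ⟨by omega, not_lt.1 hc⟩
        rcases eq_or_ne (j + 1) i0 with he | hne'
        · rw [if_pos he]
          have : (0:ℝ) ≤ (if j = i0 then 2 else 0) := by split_ifs <;> norm_num
          linarith
        · have h2 : |a (j + 1)| < τ := by
            by_contra hc
            exact Nat.find_min h (show j + 1 < i0 by omega) ⟨hj, not_lt.1 hc⟩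
          rw [if_neg hne', if_neg hlt.ne]
          calc |a j - a (j + 1)| ≤ |a j| + |a (j + 1)| := abs_sub _ _
            _ ≤ 2 * τ + (0 + 0) := by linarith
      · rw [if_pos heq]
        have : (0:ℝ) ≤ (if j + 1 = i0 then 2 else 0) := by split_ifs <;> norm_num
        linarith
      · have hclose : ∀ k, i0 < k → k < m → |1 - a k| ≤ τ := by
          intro k hk hkm
          have h3 := tel_aux_pair (hne i0 (by omega)) (hne k hkm) (hsym k hkm)
            (hAI i0 k hk hkm) φ
          rw [← hτκ] at h3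
          have h4 : τ * |1 - a k| ≤ τ * τ := by
            calc τ * |1 - a k| ≤ |a i0| * |1 - a k| :=
                  mul_le_mul_of_nonneg_right hi0.2 (abs_nonneg _)
              _ ≤ τ ^ 2 := h3
              _ = τ * τ := by ring
          exact le_of_mul_le_mul_left h4 hτ
        have h5 := hclose j hgt (by omega)
        have h6 := hclose (j + 1) (by omega) hj
        rw [if_neg (by omega), if_neg (by omega)]
        have : a j - a (j + 1) = (1 - a (j + 1)) - (1 - a j) := by ring
        rw [this]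
        calc |(1 - a (j + 1)) - (1 - a j)| ≤ |1 - a (j + 1)| + |1 - a j| := abs_sub _ _
          _ ≤ 2 * τ + (0 + 0) := by linarith
    · push Not at h
      refine ⟨m + 5, ?_⟩
      intro j hj
      have h1 := h j (by omega)
      have h2 := h (j + 1) hj
      rw [if_neg (by omega), if_neg (by omega)]
      calc |a j - a (j + 1)| ≤ |a j| + |a (j + 1)| := abs_sub _ _
        _ ≤ 2 * τ + (0 + 0) := by linarith
  obtain ⟨i0, hi0⟩ := key
  calc ∑ j ∈ Finset.range (m - 1), |a j - a (j + 1)|
      ≤ ∑ j ∈ Finset.range (m - 1),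
        (2 * τ + ((if j + 1 = i0 then (2:ℝ) else 0) + (if j = i0 then 2 else 0))) := by
        apply Finset.sum_le_sum
        intro j hj
        rw [Finset.mem_range] at hj
        exact hi0 j (by omega)
    _ = (m - 1 : ℕ) * (2 * τ) + ((∑ j ∈ Finset.range (m - 1), (if j + 1 = i0 then (2:ℝ) else 0)) +
        ∑ j ∈ Finset.range (m - 1), (if j = i0 then (2:ℝ) else 0)) := by
        rw [Finset.sum_add_distrib, Finset.sum_add_distrib, Finset.sum_const, Finset.card_range,
          nsmul_eq_mul]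
    _ ≤ m * (2 * τ) + (2 + 2) := by
        have h1 : ((m - 1 : ℕ) : ℝ) ≤ m := by exact_mod_cast Nat.sub_le m 1
        have h2 : ∑ j ∈ Finset.range (m - 1), (if j + 1 = i0 then (2:ℝ) else 0) ≤ 2 := by
          rw [← Finset.sum_filter, Finset.sum_const, nsmul_eq_mul]
          have hcard : ((Finset.range (m - 1)).filter (fun j => j + 1 = i0)).card ≤ 1 := by
            rw [Finset.card_le_one]
            intro x hx y hy
            rw [Finset.mem_filter] at hx hy
            omega
          have : (((Finset.range (m - 1)).filter (fun j => j + 1 = i0)).card : ℝ) ≤ 1 := by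
            exact_mod_cast hcard
          linarith
        have h3 : ∑ j ∈ Finset.range (m - 1), (if j = i0 then (2:ℝ) else 0) ≤ 2 := by
          rw [← Finset.sum_filter, Finset.sum_const, nsmul_eq_mul]
          have hcard : ((Finset.range (m - 1)).filter (fun j => j = i0)).card ≤ 1 := by
            rw [Finset.card_le_one]
            intro x hx y hy
            rw [Finset.mem_filter] at hx hy
            omega
          have : (((Finset.range (m - 1)).filter (fun j => j = i0)).card : ℝ) ≤ 1 := by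
            exact_mod_cast hcard
          linarith
        have h4 : ((m - 1 : ℕ) : ℝ) * (2 * τ) ≤ m * (2 * τ) :=
          mul_le_mul_of_nonneg_right h1 (by positivity)
        linarith
    _ = 4 + 2 * τ * m := by ring

theorem tel_aux_cont (B : Finset ℤ) (v : ℤ) : Continuous fun x : ℝ => mB B (v * x) := by
  unfold mB
  fun_prop

theorem tel_aux_abs {G : ℝ → ℝ} {H K : ℝ} (hG : Good G H K) : Good (fun x => |G x|) H K where
  meas := hG.meas.abs
  bdd x := by rw [abs_abs]; exact hG.bdd x
  l1 := by simp only [abs_abs]; exact hG.l1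

theorem tel_int {G : ℝ → ℝ} {H K : ℝ} (hG : Good G H K) (v : ℤ) {m : ℕ} {B : ℕ → Finset ℤ} {κ τ : ℝ}
    (hτ : 0 < τ) (hτκ : τ ^ 2 = 2 * κ)
    (hne : ∀ i < m, (B i).Nonempty) (hsym : ∀ i < m, ∀ t ∈ B i, -t ∈ B i)
    (hAI : ∀ i j, i < j → j < m → ∀ t ∈ B j, AI κ (B i) t) (y : ℕ → ℤ) :
    ∑ j ∈ Finset.range (m - 1), |Dv (cf G) v (B j) (y j) - Dv (cf G) v (B (j + 1)) (y j)|
      ≤ K * (4 + 2 * τ * m) := by
  have hG' := tel_aux_abs hG
  have hcont : ∀ j, Continuous fun x : ℝ => |mB (B j) (v * x) - mB (B (j + 1)) (v * x)| :=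
    fun j => ((tel_aux_cont (B j) v).sub (tel_aux_cont (B (j + 1)) v)).abs
  have h1 : ∀ j ∈ Finset.range (m - 1),
      |Dv (cf G) v (B j) (y j) - Dv (cf G) v (B (j + 1)) (y j)| ≤
      ∫ x in (0:ℝ)..1, |G x| * |mB (B j) (v * x) - mB (B (j + 1)) (v * x)| := by
    intro j hj
    rw [Finset.mem_range] at hj
    rw [Dv_cf hG v (hsym j (by omega)), Dv_cf hG v (hsym (j + 1) (by omega))]
    rw [← intervalIntegral.integral_sub]
    · have e : ∀ x : ℝ, G x * (Real.cos (2 * π * (y j) * x) * mB (B j) (v * x)) -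
          G x * (Real.cos (2 * π * (y j) * x) * mB (B (j + 1)) (v * x)) =
          G x * (Real.cos (2 * π * (y j) * x) * (mB (B j) (v * x) - mB (B (j + 1)) (v * x))) :=
        fun x => by ring
      simp only [e]
      refine (intervalIntegral.abs_integral_le_integral_abs (by norm_num)).trans ?_
      apply intervalIntegral.integral_mono_on (by norm_num)
      · apply IntervalIntegrable.abs
        apply hG.intble
        exact (by fun_prop : Continuous fun x : ℝ => Real.cos (2 * π * (y j) * x)).mul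
          ((tel_aux_cont (B j) v).sub (tel_aux_cont (B (j + 1)) v))
      · exact hG'.intble (hcont j) 0 1
      · intro x _
        rw [abs_mul, abs_mul]
        apply mul_le_mul_of_nonneg_left _ (abs_nonneg _)
        have := Real.abs_cos_le_one (2 * π * (y j) * x)
        calc _ ≤ 1 * |mB (B j) (v * x) - mB (B (j + 1)) (v * x)| :=
              mul_le_mul_of_nonneg_right this (abs_nonneg _)
          _ = _ := one_mul _
    · apply hG.intble
      exact (by fun_prop : Continuous fun x : ℝ => Real.cos (2 * π * (y j) * x)).mul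
          (tel_aux_cont (B j) v)
    · apply hG.intble
      exact (by fun_prop : Continuous fun x : ℝ => Real.cos (2 * π * (y j) * x)).mul
          (tel_aux_cont (B (j + 1)) v)
  refine (Finset.sum_le_sum h1).trans ?_
  rw [← intervalIntegral.integral_finsetSum]
  · have hc0 : 0 ≤ 4 + 2 * τ * (m:ℝ) := by positivity
    have h2 : ∫ x in (0:ℝ)..1, ∑ j ∈ Finset.range (m - 1),
        |G x| * |mB (B j) (v * x) - mB (B (j + 1)) (v * x)| ≤
        ∫ x in (0:ℝ)..1, |G x| * (4 + 2 * τ * m) := by
      apply intervalIntegral.integral_mono_on (by norm_num)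
      · have := hG'.intble (φ := fun x => ∑ j ∈ Finset.range (m - 1),
          |mB (B j) (v * x) - mB (B (j + 1)) (v * x)|)
          (continuous_finsetSum _ fun j _ => hcont j) 0 1
        simpa only [Finset.mul_sum] using this
      · exact hG'.intble (φ := fun _ => 4 + 2 * τ * (m:ℝ)) continuous_const 0 1
      · intro x _
        rw [← Finset.mul_sum]
        exact mul_le_mul_of_nonneg_left (tel hτ hτκ hne hsym hAI (v * x)) (abs_nonneg _)
    refine h2.trans ?_
    rw [intervalIntegral.integral_mul_const]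
    exact mul_le_mul_of_nonneg_right hG.l1 hc0
  · intro j _
    exact hG'.intble (hcont j) 0 1

end SFL
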