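import Pool.Agent.SFL.Step
import Pool.Agent.SFL.Tel

/-!
# Chain: iterate `step` m times and contradict `tel_int`.
s_j = s0 (δ^2)^j, s0 = α/(100K) <= 1/(100K). Start: Θ_0 from base, r_0 in [s0/2,s0] from exists_regular. Every nonempty B inside Bohr q Θ_0 s0 has sup Dv >= 1/2 (base),
this applies to all Bohr q Θ_j r_j (Θ_0 ⊆ Θ_j, r_j <= s_j <= s0, contains 0).
Build by recursion (e.g. prove by induction on n <= m that there are Θ : ℕ → Finset ℝ, r : ℕ → ℝ with for all j < n: Θ_0 ⊆ Θ_j, Θ_j ⊆ Θ_{j+1} for j+1<n,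
card Θ_j <= card Θ_0 + j k1, s_j/2 <= r_j <= s_j, invariance under Bohr q Θ_j (δ s_j), and for j+1<n: exists y with |D_j - D_{j+1}| > 1/10).
hdir at stage j: (2/(δ s_j)+1)^card Θ_j <= (2/(δ s_m)+1)^d <= q δ s_m/2 <= q δ s_j/2 (hdir; s_m <= s_j, base of the power >= 1, card Θ_j <= d).
B_j = Bohr q Θ_j r_j: nonempty (0), symmetric, and for i<j, t in B_j: t in Bohr q Θ_i s_j, s_j <= δ^2 s_i <= δ s_i (δ <= 1), so AI κ B_i t.
tel_int with τ = 1/(40K), κ = 1/(3200K^2) (τ^2 = 2κ), y_j the witnesses: (m-1)/10 < sum (m >= 2) <= K(4 + 2m/(40K)) = 4K + m/20, so m < 80K+2. Contradiction to hm.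
-/

namespace SFL
open Real

theorem chain {G : ℝ → ℝ} {H K : ℝ} (hG : Good G H K) (hK : 1 ≤ K) {w : ℤ → ℤ} {Y0 : ℤ}
    (hw : Near G w Y0) {v y0 : ℤ} (hv : v ≠ 0) {q : ℕ} (hq : 1 ≤ q) {α : ℝ} (hα : 0 < α) (hα1 : α ≤ 1)
    (hden : α * (2 * q + 1) ≤
      (((Finset.Icc (-(q:ℤ)) q).filter (fun t => 1 ≤ w (y0 + t * v))).card : ℝ))
    {m k1 d : ℕ} {δ : ℝ} (hm : 80 * K + 2 ≤ m) (hk1 : 400 * K ^ 2 ≤ k1)
    (hd : 2500 * K ^ 2 / α ^ 2 + 1 + m * k1 ≤ d) (hδ : 0 < δ)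
    (hδ1 : δ ≤ 1 / (3200 * K ^ 2) / (16 * ((d : ℝ) + 1)))
    (hdir : (2 / (δ * (α / (100 * K) * (δ ^ 2) ^ m)) + 1) ^ d
      ≤ q * (δ * (α / (100 * K) * (δ ^ 2) ^ m) / 2)) : False := by
  have hK0 : 0 < K := by linarith
  obtain ⟨Θ0, hΘ0, hbase⟩ := base hG hK hw hq hα hα1 hden
  set κ : ℝ := 1 / (3200 * K ^ 2) with hκdef
  have hκ : 0 < κ := by positivity
  have hκ1 : κ ≤ 1 := by
    rw [hκdef, div_le_one (by positivity)]
    nlinarith
  set s0 : ℝ := α / (100 * K) with hs0def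
  have hs0 : 0 < s0 := by positivity
  have hs01 : s0 ≤ 1 / (100 * K) := by
    rw [hs0def]
    gcongr
  have hδle1 : δ ≤ 1 := by
    refine hδ1.trans ?_
    rw [div_le_one (by positivity)]
    have : (0:ℝ) ≤ d := Nat.cast_nonneg d
    nlinarith
  have hδ2 : δ ^ 2 ≤ 1 := by nlinarith
  have hδ2' : δ ^ 2 ≤ δ := by nlinarith
  have hδ20 : 0 < δ ^ 2 := by positivity
  have hspos : ∀ j : ℕ, 0 < s0 * (δ ^ 2) ^ j := fun j => by positivity
  have hsanti : ∀ i j : ℕ, i ≤ j → s0 * (δ ^ 2) ^ j ≤ s0 * (δ ^ 2) ^ i := by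
    intro i j hij
    exact mul_le_mul_of_nonneg_left (pow_le_pow_of_le_one hδ20.le hδ2 hij) hs0.le
  have hsle0 : ∀ j : ℕ, s0 * (δ ^ 2) ^ j ≤ s0 := by
    intro j
    have := hsanti 0 j (Nat.zero_le _)
    simpa using this
  have hqr : (0:ℝ) ≤ (q:ℝ) := Nat.cast_nonneg q
  -- the invariant
  let P : Finset ℝ → ℝ → ℕ → Prop := fun Θ r j =>
    Θ0 ⊆ Θ ∧ (Θ.card : ℝ) ≤ 2500 * K ^ 2 / α ^ 2 + 1 + j * k1 ∧ s0 * (δ ^ 2) ^ j / 2 ≤ r ∧
      r ≤ s0 * (δ ^ 2) ^ j ∧ ∀ t ∈ Bohr q Θ (δ * (s0 * (δ ^ 2) ^ j)), AI κ (Bohr q Θ r) t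
  have hk1pos : (0:ℝ) ≤ k1 := Nat.cast_nonneg k1
  -- start
  have hstart : ∃ r, P Θ0 r 0 := by
    have hcard : δ ≤ κ / (16 * ((Θ0.card : ℝ) + 1)) := by
      refine hδ1.trans ?_
      have : (Θ0.card : ℝ) ≤ d := by
        have : (0:ℝ) ≤ m * k1 := by positivity
        linarith
      gcongr
    obtain ⟨r, h1, h2, h3⟩ := exists_regular hqr hs0 Θ0 hκ hκ1 hδ hcard
    refine ⟨r, subset_rfl, ?_, ?_, ?_, ?_⟩
    · simpa using hΘ0
    · simpa using h1
    · simpa using h2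
    · simpa using h3
  -- one step
  have hstep : ∀ (j : ℕ) (Θ : Finset ℝ) (r : ℝ), j + 1 < m → P Θ r j →
      ∃ Θ' r', Θ ⊆ Θ' ∧ P Θ' r' (j + 1) ∧
        ∃ y, 1 / 10 < |Dv (cf G) v (Bohr q Θ r) y - Dv (cf G) v (Bohr q Θ' r') y| := by
    intro j Θ r hj ⟨hsub, hcard, hr1, hr2, hinv⟩
    have hjm : ((j:ℝ) + 1) * k1 ≤ m * k1 := by
      have : ((j:ℝ) + 1) ≤ m := by exact_mod_cast hj.le
      gcongr
    have hcd : (Θ.card : ℝ) + k1 ≤ d := by linarith
    have hcd' : Θ.card ≤ d := by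
      have : (Θ.card : ℝ) ≤ d := by linarith
      exact_mod_cast this
    have hδΘ : δ ≤ κ / (16 * ((Θ.card : ℝ) + k1 + 1)) := by
      refine hδ1.trans ?_
      gcongr
    have hsj := hspos j
    have hsj1 : s0 * (δ ^ 2) ^ j ≤ 1 / (100 * K) := (hsle0 j).trans hs01
    have hsmj := hsanti j m (by omega)
    have hsm := hspos m
    have hdirj : (2 / (δ * (s0 * (δ ^ 2) ^ j)) + 1) ^ Θ.card ≤ q * (δ * (s0 * (δ ^ 2) ^ j) / 2) := by
      calc (2 / (δ * (s0 * (δ ^ 2) ^ j)) + 1) ^ Θ.card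
          ≤ (2 / (δ * (s0 * (δ ^ 2) ^ m)) + 1) ^ Θ.card := by gcongr
        _ ≤ (2 / (δ * (s0 * (δ ^ 2) ^ m)) + 1) ^ d := by
            apply pow_le_pow_right₀ _ hcd'
            have : 0 ≤ 2 / (δ * (s0 * (δ ^ 2) ^ m)) := by positivity
            linarith
        _ ≤ q * (δ * (s0 * (δ ^ 2) ^ m) / 2) := hdir
        _ ≤ q * (δ * (s0 * (δ ^ 2) ^ j) / 2) := by gcongr
    have hbig : ∃ y, 1 / 2 ≤ Dv (cf G) v (Bohr q Θ r) y := by
      apply hbase
      · exact ⟨0, Bohr_zero_mem hqr (le_trans (by positivity) hr1) Θ⟩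
      · exact (Bohr_mono hqr (hr2.trans (hsle0 j)) Θ).trans (Bohr_anti hsub)
    obtain ⟨Θ', r', hΘ', hc', h1, h2, h3, y, hy⟩ := step hG hK hw hv hqr hκ le_rfl hδ hk1 hδΘ hsj hsj1
      hr1 hr2 hinv hdirj hbig
    refine ⟨Θ', r', hΘ', ⟨hsub.trans hΘ', ?_, ?_, ?_, ?_⟩, y, hy⟩
    · have : (Θ'.card : ℝ) ≤ Θ.card + k1 := by exact_mod_cast hc'
      push_cast
      linarith
    · calc s0 * (δ ^ 2) ^ (j + 1) / 2 = δ ^ 2 * (s0 * (δ ^ 2) ^ j) / 2 := by ring
        _ ≤ r' := h1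
    · calc r' ≤ δ ^ 2 * (s0 * (δ ^ 2) ^ j) := h2
        _ = s0 * (δ ^ 2) ^ (j + 1) := by ring
    · have he : δ * (s0 * (δ ^ 2) ^ (j + 1)) = δ * (δ ^ 2 * (s0 * (δ ^ 2) ^ j)) := by ring
      rw [he]
      exact h3
  -- sequences
  have hseq : ∀ n : ℕ, n < m → ∃ (Θ : ℕ → Finset ℝ) (r : ℕ → ℝ), (∀ j ≤ n, P (Θ j) (r j) j) ∧
      ∀ j < n, Θ j ⊆ Θ (j + 1) ∧
        ∃ y, 1 / 10 < |Dv (cf G) v (Bohr q (Θ j) (r j)) y
          - Dv (cf G) v (Bohr q (Θ (j + 1)) (r (j + 1))) y| := by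
    intro n
    induction n with
    | zero =>
      intro _
      obtain ⟨r, hr⟩ := hstart
      refine ⟨fun _ => Θ0, fun _ => r, ?_, ?_⟩
      · intro j hj
        obtain rfl : j = 0 := by omega
        exact hr
      · intro j hj
        omega
    | succ n ih =>
      intro hn
      obtain ⟨Θ, r, hP, hS⟩ := ih (by omega)
      obtain ⟨Θ', r', hsub, hP', hy⟩ := hstep n (Θ n) (r n) hn (hP n le_rfl)
      refine ⟨Function.update Θ (n + 1) Θ', Function.update r (n + 1) r', ?_, ?_⟩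
      · intro j hj
        rcases Nat.lt_or_ge j (n + 1) with h | h
        · rw [Function.update_of_ne (by omega), Function.update_of_ne (by omega)]
          exact hP j (by omega)
        · obtain rfl : j = n + 1 := by omega
          rw [Function.update_self, Function.update_self]
          exact hP'
      · intro j hj
        rcases Nat.lt_or_ge j n with h | h
        · rw [Function.update_of_ne (by omega), Function.update_of_ne (by omega),
            Function.update_of_ne (by omega), Function.update_of_ne (by omega)]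
          exact hS j h
        · obtain rfl : j = n := by omega
          have hne : j ≠ j + 1 := by omega
          simp only [Function.update_self, Function.update_of_ne hne]
          exact ⟨hsub, hy⟩
  have hm82 : 82 ≤ m := by
    have : (82:ℝ) ≤ m := by linarith
    exact_mod_cast this
  obtain ⟨Θ, r, hP, hS⟩ := hseq (m - 1) (by omega)
  -- monotonicity of Θ
  have hmono : ∀ i j : ℕ, i ≤ j → j ≤ m - 1 → Θ i ⊆ Θ j := by
    intro i j hij
    induction j, hij using Nat.le_induction with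
    | base => intro _; exact subset_rfl
    | succ j hij ih =>
      intro hj
      exact (ih (by omega)).trans (hS j (by omega)).1
  have hy : ∀ j : ℕ, ∃ y : ℤ, j < m - 1 → 1 / 10 < |Dv (cf G) v (Bohr q (Θ j) (r j)) y
          - Dv (cf G) v (Bohr q (Θ (j + 1)) (r (j + 1))) y| := by
    intro j
    by_cases hj : j < m - 1
    · obtain ⟨y, hy⟩ := (hS j hj).2
      exact ⟨y, fun _ => hy⟩
    · exact ⟨0, fun h => absurd h hj⟩
  choose y hy using hy
  have hτ : (0:ℝ) < 1 / (40 * K) := by positivity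
  have hτκ : (1 / (40 * K)) ^ 2 = 2 * κ := by
    rw [hκdef]
    field_simp
    ring
  have key := tel_int hG v (m := m) (B := fun j => Bohr q (Θ j) (r j)) hτ hτκ
    (fun i hi => ⟨0, Bohr_zero_mem hqr (le_trans (by positivity) (hP i (by omega)).2.2.1) _⟩)
    (fun i hi t ht => Bohr_neg_mem ht)
    (fun i j hij hj t ht => by
      have hPi := hP i (by omega)
      have hPj := hP j (by omega)
      apply hPi.2.2.2.2
      apply Bohr_mono hqr _ _ (Bohr_anti (hmono i j hij.le (by omega)) ht)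
      calc r j ≤ s0 * (δ ^ 2) ^ j := hPj.2.2.2.1
        _ ≤ s0 * (δ ^ 2) ^ (i + 1) := hsanti _ _ hij
        _ = δ ^ 2 * (s0 * (δ ^ 2) ^ i) := by ring
        _ ≤ δ * (s0 * (δ ^ 2) ^ i) := by
            have := hspos i
            gcongr) y
  have hlow : ((m:ℝ) - 1) * (1 / 10) < ∑ j ∈ Finset.range (m - 1),
      |Dv (cf G) v (Bohr q (Θ j) (r j)) (y j) - Dv (cf G) v (Bohr q (Θ (j + 1)) (r (j + 1))) (y j)| := by
    have h1 : ∑ j ∈ Finset.range (m - 1), (1 / 10 : ℝ) = ((m:ℝ) - 1) * (1 / 10) := by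
      rw [Finset.sum_const, Finset.card_range, nsmul_eq_mul, Nat.cast_sub (by omega)]
      simp
    rw [← h1]
    apply Finset.sum_lt_sum_of_nonempty
    · exact ⟨0, Finset.mem_range.mpr (by omega)⟩
    · intro j hj
      exact hy j (Finset.mem_range.mp hj)
  have h2 := lt_of_lt_of_le hlow key
  have h3 : K * (4 + 2 * (1 / (40 * K)) * m) = 4 * K + m / 20 := by
    field_simp
    ring
  rw [h3] at h2
  linarith

end SFL
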