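import Pool.Agent.SFL.APL4

/-!
# DAP: a long progression in which B has positive density.
Finset.pluennecke_ruzsa_inequality_nsmul_sub_nsmul_sub (additive version of pluennecke_ruzsa_inequality_pow_div_pow_div): |m•B - n•B| <= (|B-B|/|B|)^(m+n)|B| <= κ^(m+n)|B|
(there 6 • B is the 6-fold sumset: rewrite with succ_nsmul; beware of the other instance, the dilate).
M = κ^12 for 6B-6B; apl gives v. Q = {iv : |i| <= q}; B + Q is inside 3B - 2B, |B+Q| <= κ^5|B|.
The (2q+1)|B| pairs (b,i) map to b - i v (or b + iv) in B + Q: some y0 = b - i v.. is hit by at least (2q+1)|B|/|B+Q| >= (2q+1)/κ^5 pairs: y0 + i v = b in B.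
-/

namespace SFL
open scoped Pointwise

private theorem dap_plu {B : Finset ℤ} (hB : B.Nonempty) {κ : ℝ} (hκ : 1 ≤ κ)
    (hBB : ((B - B).card : ℝ) ≤ κ * B.card) (m n : ℕ) :
    ((m • B - n • B).card : ℝ) ≤ κ ^ (m + n) * B.card := by
  have h := Finset.pluennecke_ruzsa_inequality_nsmul_sub_nsmul_sub hB B m n
  have hcard : (0:ℝ) < B.card := by exact_mod_cast hB.card_pos
  have h' : ((m • B - n • B).card : ℝ) ≤ (((B - B).card : ℝ) / B.card) ^ (m + n) * B.card := by
    have := (NNRat.cast_le (K := ℝ)).2 h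
    push_cast at this
    exact this
  refine h'.trans ?_
  gcongr
  rw [div_le_iff₀ hcard]
  exact hBB

private theorem dap_card {B Q : Finset ℤ} (hB : B.Nonempty) {v : ℤ} (q : ℕ)
    {C : ℝ} (hC : 0 < C)
    (hQ : ∀ b ∈ B, ∀ i ∈ Finset.Icc (-(q:ℤ)) q, b - i * v ∈ Q)
    (hcard : (Q.card : ℝ) ≤ C * B.card) :
    ∃ y0 : ℤ, 1 / C * (2 * q + 1) ≤
      (((Finset.Icc (-(q:ℤ)) q).filter (fun i => y0 + i * v ∈ B)).card : ℝ) := by
  classical
  by_contra hcon
  push Not at hcon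
  have hBc : (0:ℝ) < B.card := by exact_mod_cast hB.card_pos
  -- double counting
  have hI : ((Finset.Icc (-(q:ℤ)) q).card : ℝ) = 2 * q + 1 := by
    rw [Int.card_Icc]
    have : ((q:ℤ) + 1 - -(q:ℤ)).toNat = 2 * q + 1 := by omega
    rw [this]; push_cast; ring
  have h1 : ((B ×ˢ Finset.Icc (-(q:ℤ)) q).card : ℝ) = B.card * (2 * q + 1) := by
    rw [Finset.card_product]; push_cast; rw [hI]
  have h2 : (B ×ˢ Finset.Icc (-(q:ℤ)) q).card =
      ∑ y ∈ Q, ((B ×ˢ Finset.Icc (-(q:ℤ)) q).filter (fun p => p.1 - p.2 * v = y)).card := by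
    refine Finset.card_eq_sum_card_fiberwise ?_
    intro p hp
    have hp' : p ∈ B ×ˢ Finset.Icc (-(q:ℤ)) q := hp
    rw [Finset.mem_product] at hp'
    exact hQ p.1 hp'.1 p.2 hp'.2
  have h3 : ∀ y : ℤ, ((B ×ˢ Finset.Icc (-(q:ℤ)) q).filter (fun p => p.1 - p.2 * v = y)).card ≤
      ((Finset.Icc (-(q:ℤ)) q).filter (fun i => y + i * v ∈ B)).card := by
    intro y
    refine Finset.card_le_card_of_injOn (fun p => p.2) ?_ ?_
    · intro p hp
      have hp' : p ∈ (B ×ˢ Finset.Icc (-(q:ℤ)) q).filter (fun p => p.1 - p.2 * v = y) := hp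
      rw [Finset.mem_filter, Finset.mem_product] at hp'
      have : p.2 ∈ (Finset.Icc (-(q:ℤ)) q).filter (fun i => y + i * v ∈ B) := by
        rw [Finset.mem_filter]
        refine ⟨hp'.1.2, ?_⟩
        have : y + p.2 * v = p.1 := by linarith [hp'.2]
        rw [this]
        exact hp'.1.1
      exact this
    · intro p hp p' hp' he
      have h := (Finset.mem_filter.1 hp).2
      have h' := (Finset.mem_filter.1 hp').2
      simp only at he
      refine Prod.ext ?_ he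
      rw [he] at h
      linarith
  have hQne : Q.Nonempty := by
    obtain ⟨b, hb⟩ := hB
    exact ⟨_, hQ b hb 0 (by rw [Finset.mem_Icc]; constructor <;> omega)⟩
  have h4 : ((B ×ˢ Finset.Icc (-(q:ℤ)) q).card : ℝ) < ∑ y ∈ Q, (1 / C * (2 * q + 1) : ℝ) := by
    rw [h2]
    push_cast
    refine Finset.sum_lt_sum_of_nonempty hQne fun y _ => ?_
    refine lt_of_le_of_lt ?_ (hcon y)
    exact_mod_cast h3 y
  rw [h1, Finset.sum_const, nsmul_eq_mul] at h4
  have h5 : (Q.card : ℝ) * (1 / C * (2 * q + 1)) ≤ C * B.card * (1 / C * (2 * q + 1)) := by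
    gcongr
  have h6 : C * (B.card : ℝ) * (1 / C * (2 * q + 1)) = B.card * (2 * q + 1) := by
    field_simp
  linarith

theorem dap {B : Finset ℤ} (hB : B.Nonempty) {κ : ℝ} (hκ : 1 ≤ κ)
    (hBB : ((B - B).card : ℝ) ≤ κ * B.card) {q k : ℕ} (hq : 1 ≤ q) (hk : 800 * κ ^ 24 ≤ k)
    (hqk : (6 * q + 1) ^ k < B.card) :
    ∃ v y0 : ℤ, v ≠ 0 ∧ 1 / κ ^ 5 * (2 * q + 1) ≤
      (((Finset.Icc (-(q:ℤ)) q).filter (fun i => y0 + i * v ∈ B)).card : ℝ) := by
  have h6 := dap_plu hB hκ hBB 6 6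
  have e6 : 6 • B = B + B + B + B + B + B := by
    simp only [succ_nsmul, zero_nsmul, zero_add]
  rw [e6] at h6
  obtain ⟨v, hv, hvi⟩ := apl hB (one_le_pow₀ hκ : (1:ℝ) ≤ κ ^ (6 + 6)) h6 hq
    (by rw [← pow_mul]; exact hk) hqk
  have h5 := dap_plu hB hκ hBB 3 2
  obtain ⟨y0, hy⟩ := dap_card (Q := 3 • B - 2 • B) hB (v := v) q (C := κ ^ (3 + 2)) (by positivity)
    (by
      intro b hb i hi
      rw [Finset.mem_Icc] at hi
      have hi' : |(-i)| ≤ q := abs_le.2 ⟨by linarith, by linarith⟩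
      have h := hvi (-i) hi'
      have e : b - i * v = b + (-i) * v := by ring
      rw [e]
      obtain ⟨s, hs, t, ht, hst⟩ := Finset.mem_sub.1 h
      have e3 : 3 • B = B + (B + B) := by
        simp only [succ_nsmul, zero_nsmul, zero_add, add_assoc]
      have e2 : 2 • B = B + B := by
        simp only [succ_nsmul, zero_nsmul, zero_add]
      rw [e3, e2, ← hst]
      have : b + (s - t) = (b + s) - t := by ring
      rw [this]
      exact Finset.sub_mem_sub (Finset.add_mem_add hb hs) ht) h5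
  exact ⟨v, y0, hv, hy⟩

end SFL
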