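import Pool.Agent.SFL.Defs

/-!
# DRC: dependent random choice.
V a nonempty finset, adj a relation. codeg(a,a') = #{b in V : adj b a and adj b a'}. N(b) = {a in V : adj b a}.
sum_b |N(b)| = number of pairs >= p|V|^2, so sum_b |N(b)|^2 >= p^2|V|^3 (Cauchy-Schwarz).
Bad pairs: (a,a') in V^2 with codeg < (p^2/16)|V|. sum_b #{bad pairs in N(b)^2} = sum_{bad} codeg <= (p^2/16)|V|*|V|^2.
So sum_b (|N(b)|^2 - 8 bad(b)) >= (p^2/2)|V|^3: some b has |N(b)|^2 - 8 bad(b) >= (p^2/2)|V|^2. Take X = N(b):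
|X| >= p|V|/2 (since |X|^2 >= (p^2/2)|V|^2) and 8 * #bad pairs in X^2 <= |X|^2.
-/

namespace SFL
open Real

open Classical in
theorem drc {V : Finset ℤ} (hV : V.Nonempty) (adj : ℤ → ℤ → Prop) {p : ℝ} (hp : 0 < p)
    (hedge : p * (V.card : ℝ) ^ 2 ≤ (((V ×ˢ V).filter (fun t => adj t.1 t.2)).card : ℝ)) :
    ∃ X ⊆ V, p * V.card / 2 ≤ (X.card : ℝ) ∧
      8 * (((X ×ˢ X).filter (fun t =>
        ((V.filter (fun b => adj b t.1 ∧ adj b t.2)).card : ℝ) < p ^ 2 / 16 * V.card)).card : ℝ)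
        ≤ (X.card : ℝ) ^ 2 := by
  set v : ℝ := (V.card : ℝ) with hv
  have hv0 : 0 < v := by rw [hv]; exact_mod_cast hV.card_pos
  set N : ℤ → Finset ℤ := fun b => V.filter (fun a => adj b a) with hN
  set cod : ℤ × ℤ → ℝ := fun t => ((V.filter (fun b => adj b t.1 ∧ adj b t.2)).card : ℝ) with hcod
  set bad : Finset (ℤ × ℤ) := (V ×ˢ V).filter (fun t => cod t < p ^ 2 / 16 * v) with hbad
  set bd : ℤ → ℝ := fun b =>
    (((N b ×ˢ N b).filter (fun t => cod t < p ^ 2 / 16 * v)).card : ℝ) with hbd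
  -- sum of degrees
  have hdeg : ∑ b ∈ V, ((N b).card : ℝ)
      = (((V ×ˢ V).filter (fun t => adj t.1 t.2)).card : ℝ) := by
    rw [Finset.card_filter, Finset.sum_product]
    push_cast
    refine Finset.sum_congr rfl fun b _ => ?_
    rw [hN]
    simp only
    rw [Finset.card_filter]
    push_cast
    rfl
  have hCS : (∑ b ∈ V, ((N b).card : ℝ)) ^ 2 ≤ v * ∑ b ∈ V, ((N b).card : ℝ) ^ 2 :=
    sq_sum_le_card_mul_sum_sq
  have hsq : p ^ 2 * v ^ 3 ≤ ∑ b ∈ V, ((N b).card : ℝ) ^ 2 := by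
    have h1 : (p * v ^ 2) ^ 2 ≤ (∑ b ∈ V, ((N b).card : ℝ)) ^ 2 := by
      apply pow_le_pow_left₀ (by positivity)
      rw [hdeg]; exact hedge
    have h2 : v * (p ^ 2 * v ^ 3) ≤ v * ∑ b ∈ V, ((N b).card : ℝ) ^ 2 := by
      calc v * (p ^ 2 * v ^ 3) = (p * v ^ 2) ^ 2 := by ring
        _ ≤ _ := h1
        _ ≤ _ := hCS
    exact le_of_mul_le_mul_left h2 hv0
  -- bad pairs
  have hbadsum : ∑ b ∈ V, bd b = ∑ t ∈ bad, cod t := by
    have e1 : ∀ b ∈ V, bd b = ∑ t ∈ bad, (if adj b t.1 ∧ adj b t.2 then (1:ℝ) else 0) := by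
      intro b _
      rw [hbd]
      simp only
      rw [← Finset.sum_filter, Finset.sum_const, nsmul_eq_mul, mul_one]
      congr 1
      congr 1
      ext t
      simp only [hN, hbad, Finset.mem_filter, Finset.mem_product]
      tauto
    rw [Finset.sum_congr rfl e1, Finset.sum_comm]
    refine Finset.sum_congr rfl fun t _ => ?_
    rw [hcod]
    simp only
    rw [Finset.card_filter]
    push_cast
    rfl
  have hbadle : ∑ t ∈ bad, cod t ≤ p ^ 2 / 16 * v ^ 3 := by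
    have h1 : ∑ t ∈ bad, cod t ≤ ∑ _t ∈ bad, p ^ 2 / 16 * v := by
      refine Finset.sum_le_sum fun t ht => ?_
      rw [hbad, Finset.mem_filter] at ht
      exact ht.2.le
    rw [Finset.sum_const, nsmul_eq_mul] at h1
    have h2 : (bad.card : ℝ) ≤ v ^ 2 := by
      have h3 : bad.card ≤ (V ×ˢ V).card := Finset.card_filter_le _ _
      rw [Finset.card_product] at h3
      rw [hv, sq]
      exact_mod_cast h3
    calc ∑ t ∈ bad, cod t ≤ (bad.card : ℝ) * (p ^ 2 / 16 * v) := h1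
      _ ≤ v ^ 2 * (p ^ 2 / 16 * v) := mul_le_mul_of_nonneg_right h2 (by positivity)
      _ = p ^ 2 / 16 * v ^ 3 := by ring
  -- a good vertex
  obtain ⟨b, hbV, hb⟩ : ∃ b ∈ V, p ^ 2 / 2 * v ^ 2 ≤ ((N b).card : ℝ) ^ 2 - 8 * bd b := by
    by_contra hcon
    push Not at hcon
    have h1 : ∑ b ∈ V, (((N b).card : ℝ) ^ 2 - 8 * bd b) < ∑ _b ∈ V, p ^ 2 / 2 * v ^ 2 :=
      Finset.sum_lt_sum_of_nonempty hV hcon
    rw [Finset.sum_sub_distrib, ← Finset.mul_sum, hbadsum, Finset.sum_const, nsmul_eq_mul] at h1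
    have h2 : (V.card : ℝ) * (p ^ 2 / 2 * v ^ 2) = p ^ 2 / 2 * v ^ 3 := by rw [← hv]; ring
    rw [h2] at h1
    linarith
  have hbd0 : 0 ≤ bd b := by rw [hbd]; positivity
  refine ⟨N b, Finset.filter_subset _ _, ?_, ?_⟩
  · have h1 : (p * v / 2) ^ 2 ≤ ((N b).card : ℝ) ^ 2 := by
      have : (p * v / 2) ^ 2 = p ^ 2 / 4 * v ^ 2 := by ring
      rw [this]
      have h3 : 0 ≤ p ^ 2 * v ^ 2 := by positivity
      nlinarith
    exact le_of_sq_le_sq h1 (by positivity)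
  · have h1 : 0 ≤ p ^ 2 / 2 * v ^ 2 := by positivity
    have h2 : 8 * bd b ≤ ((N b).card : ℝ) ^ 2 := by linarith
    exact h2

end SFL
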