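import Mathlib

/-!
# Squad SFL (MP_c10a6c_co): f(n) >= n/3 + (log n)^c.   Definitions.
Paper proof: /team-store/notes_MP_c10a6c_co_helper5.md
-/

namespace SFL

open Real

/-! ## the sum-free side -/

/-- middle third minus 1/3 -/
noncomputable def f (t : ℝ) : ℝ :=
  (if 1 / 3 ≤ Int.fract t ∧ Int.fract t < 2 / 3 then 1 else 0) - 1 / 3

noncomputable def F (A : Finset ℤ) (x : ℝ) : ℝ := ∑ a ∈ A, f (a * x)

/-- the non-principal character modulo 3 -/
def chi (m : ℕ) : ℤ := if m % 3 = 1 then 1 else if m % 3 = 2 then -1 else 0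

/-- all prime factors of r are larger than z -/
def Rough (z r : ℕ) : Prop := ∀ p : ℕ, p.Prime → p ∣ r → z < p

/-- w(y) = 1_A(y) + 1_A(-y) -/
def mult (A : Finset ℤ) (y : ℤ) : ℤ := (if y ∈ A then 1 else 0) + (if -y ∈ A then 1 else 0)

open Classical in
/-- T(y) = sum of 1/r over a in A with r = |y/a| > 1 rough -/
noncomputable def T (A : Finset ℤ) (z : ℕ) (y : ℤ) : ℝ :=
  ∑ a ∈ A, if a ∣ y ∧ 1 < (y / a).natAbs ∧ Rough z (y / a).natAbs
    then 1 / ((y / a).natAbs : ℝ) else 0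

/-- sum of 1/k over the divisors of the primorial = prod (1+1/p) -/
noncomputable def Pi1 (z : ℕ) : ℝ := ∑ k ∈ (primorial z).divisors, (1 : ℝ) / k

/-- the sieved function -/
noncomputable def GG (A : Finset ℤ) (z : ℕ) (x : ℝ) : ℝ :=
  -(2 * π / √3) * ∑ k ∈ (primorial z).divisors,
    ((ArithmeticFunction.moebius k : ℤ) : ℝ) * (chi k : ℝ) / (k : ℝ) * F A (k * x)

/-! ## functions on [0,1] -/

/-- cosine coefficient -/
noncomputable def cf (G : ℝ → ℝ) (y : ℤ) : ℝ :=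
  ∫ x in (0:ℝ)..1, G x * Real.cos (2 * π * y * x)

structure Good (G : ℝ → ℝ) (H K : ℝ) : Prop where
  meas : Measurable G
  bdd : ∀ x, |G x| ≤ H
  l1 : ∫ x in (0:ℝ)..1, |G x| ≤ K

/-! ## additive combinatorics -/

/-- additive energy -/
def energy (S : Finset ℤ) : ℕ :=
  ((S ×ˢ S ×ˢ S ×ˢ S).filter (fun t => t.1 + t.2.1 = t.2.2.1 + t.2.2.2)).card

/-! ## Bohr sets in the integers -/

/-- distance to the nearest integer -/
noncomputable def nz (x : ℝ) : ℝ := |x - round x|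

open Classical in
/-- Bohr set: |t| <= q s and ||t θ|| <= s for θ in Θ -/
noncomputable def Bohr (q : ℝ) (Θ : Finset ℝ) (s : ℝ) : Finset ℤ :=
  (Finset.Icc (-⌊q * s⌋) ⌊q * s⌋).filter (fun t => ∀ θ ∈ Θ, nz (t * θ) ≤ s)

/-- B is almost invariant under translation by t -/
def AI (κ : ℝ) (B : Finset ℤ) (t : ℤ) : Prop :=
  ((B.filter (fun x => x + t ∉ B)).card : ℝ) ≤ κ * B.card

/-- average of g over y + v B -/
noncomputable def Dv (g : ℤ → ℝ) (v : ℤ) (B : Finset ℤ) (y : ℤ) : ℝ :=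
  (∑ t ∈ B, g (y + t * v)) / B.card

/-- Fourier transform of the uniform measure on a symmetric set B -/
noncomputable def mB (B : Finset ℤ) (φ : ℝ) : ℝ :=
  (∑ t ∈ B, Real.cos (2 * π * t * φ)) / B.card

/-- sampled approximation -/
noncomputable def gt (k : ℕ) (x c : Fin k → ℝ) (y : ℤ) : ℝ :=
  (∑ i, c i * Real.cos (2 * π * y * x i)) / k

end SFL
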