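import Pool.Agent.SFL.Bas

/-!
# Dir: Dirichlet. A Bohr set contains a nonzero element if (1/s+1)^d <= q s.
The floor(qs)+1 > q s integers 0..floor(qs) are mapped to cells: for each θ the index floor(fract(tθ) * m) in {0..m-1},
m = ceil(1/s) <= 1/s + 1. The number of cells is m^d <= (1/s+1)^d <= q s, so two integers t < t' share a cell;
|fract(tθ) - fract(t'θ)| < 1/m <= s so nz((t'-t)θ) <= s, and 0 < t'-t <= floor(qs) <= q s.
-/

namespace SFL
open Real

theorem dirichlet {q s : ℝ} (hs : 0 < s) (Θ : Finset ℝ) (h : (1 / s + 1) ^ Θ.card ≤ q * s) :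
    ∃ t ∈ Bohr q Θ s, t ≠ 0 := by
  classical
  have h1s : 0 < 1 / s := by positivity
  set m : ℕ := ⌈1 / s⌉₊ with hm
  have hm1 : 1 / s ≤ m := Nat.le_ceil _
  have hm2 : (m : ℝ) ≤ 1 / s + 1 := (Nat.ceil_lt_add_one h1s.le).le
  have hm0 : (0 : ℝ) < m := h1s.trans_le hm1
  have hqs : 0 ≤ q * s := le_trans (by positivity) h
  set N : ℕ := ⌊q * s⌋₊ with hN
  have hN1 : (N : ℝ) ≤ q * s := Nat.floor_le hqs
  have hN2 : q * s < N + 1 := Nat.lt_floor_add_one _
  -- the cell map
  have hcard : (Fintype.piFinset (fun _ : Θ => Finset.range m)).card <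
      (Finset.range (N + 1)).card := by
    rw [Fintype.card_piFinset, Finset.card_range]
    simp only [Finset.card_range, Finset.prod_const, Finset.card_univ, Fintype.card_coe]
    have h2 : ((m ^ Θ.card : ℕ) : ℝ) < ((N + 1 : ℕ) : ℝ) := by
      push_cast
      calc (m : ℝ) ^ Θ.card ≤ (1 / s + 1) ^ Θ.card := by gcongr
        _ ≤ q * s := h
        _ < N + 1 := hN2
    exact_mod_cast h2
  obtain ⟨t, ht, t', ht', hne, heq⟩ := Finset.exists_ne_map_eq_of_card_lt_of_maps_to hcard
    (f := fun (t : ℕ) (θ : Θ) => ⌊Int.fract ((t : ℝ) * (θ : ℝ)) * m⌋₊) (by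
      intro t _
      rw [Finset.mem_coe, Fintype.mem_piFinset]
      intro θ
      rw [Finset.mem_range, Nat.floor_lt (by positivity)]
      have := Int.fract_lt_one ((t : ℝ) * (θ : ℝ))
      calc Int.fract ((t : ℝ) * (θ : ℝ)) * m < 1 * m := by gcongr
        _ = m := one_mul _)
  refine ⟨(t' : ℤ) - t, ?_, ?_⟩
  · rw [mem_Bohr]
    constructor
    · have h3 := Finset.mem_range.1 ht
      have h4 := Finset.mem_range.1 ht'
      have h5 : (t : ℝ) ≤ N := by exact_mod_cast Nat.lt_succ_iff.1 h3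
      have h6 : (t' : ℝ) ≤ N := by exact_mod_cast Nat.lt_succ_iff.1 h4
      have h7 : (0 : ℝ) ≤ t := by positivity
      have h8 : (0 : ℝ) ≤ t' := by positivity
      push_cast
      rw [abs_le]
      constructor <;> linarith
    · intro θ hθ
      have h3 : ⌊Int.fract ((t : ℝ) * θ) * m⌋₊ = ⌊Int.fract ((t' : ℝ) * θ) * m⌋₊ :=
        congrFun heq ⟨θ, hθ⟩
      have h4 : |Int.fract ((t : ℝ) * θ) * m - Int.fract ((t' : ℝ) * θ) * m| < 1 := by
        have a1 := Nat.floor_le (a := Int.fract ((t : ℝ) * θ) * m)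
          (mul_nonneg (Int.fract_nonneg _) hm0.le)
        have a2 := Nat.lt_floor_add_one (Int.fract ((t : ℝ) * θ) * m)
        have b1 := Nat.floor_le (a := Int.fract ((t' : ℝ) * θ) * m)
          (mul_nonneg (Int.fract_nonneg _) hm0.le)
        have b2 := Nat.lt_floor_add_one (Int.fract ((t' : ℝ) * θ) * m)
        rw [h3] at a1 a2
        rw [abs_lt]
        constructor <;> linarith
      have h5 : |Int.fract ((t : ℝ) * θ) - Int.fract ((t' : ℝ) * θ)| * m < 1 := by
        have h6 : Int.fract ((t : ℝ) * θ) * m - Int.fract ((t' : ℝ) * θ) * m =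
          (Int.fract ((t : ℝ) * θ) - Int.fract ((t' : ℝ) * θ)) * m := by ring
        rw [h6, abs_mul, abs_of_pos hm0] at h4
        exact h4
      have h7 : |Int.fract ((t : ℝ) * θ) - Int.fract ((t' : ℝ) * θ)| < s := by
        have h8 : |Int.fract ((t : ℝ) * θ) - Int.fract ((t' : ℝ) * θ)| < 1 / m := by
          rw [lt_div_iff₀ hm0]; exact h5
        have h9 : 1 / (m : ℝ) ≤ s := by
          rw [div_le_iff₀ hm0]
          rw [div_le_iff₀ hs] at hm1
          linarith
        linarith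
      have h10 := nz_le_abs_sub ((((t' : ℤ) - t : ℤ) : ℝ) * θ)
        (⌊(t' : ℝ) * θ⌋ - ⌊(t : ℝ) * θ⌋)
      refine h10.trans ?_
      have h11 : (((t' : ℤ) - t : ℤ) : ℝ) * θ - ((⌊(t' : ℝ) * θ⌋ - ⌊(t : ℝ) * θ⌋ : ℤ) : ℝ) =
          -(Int.fract ((t : ℝ) * θ) - Int.fract ((t' : ℝ) * θ)) := by
        unfold Int.fract
        push_cast
        ring
      rw [h11, abs_neg]
      exact h7.le
  · intro h0
    apply hne
    have : (t' : ℤ) = t := by linarith
    exact_mod_cast this.symm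

end SFL
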