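import Pool.Agent.SFL.Ker

/-!
# En: energy lower bound.
W(x) = sum_{y in S} cos(2πyx), E(x) = sum_{y in S} exp(2πi y x), |W| <= |E|, ∫|E|^4 = energy S (expand E^2 conj(E^2); ∫_0^1 exp(2πi t x)dx = [t=0]).
(1/2)|S| <= sum_S cf G y = ∫ G W <= ∫|G||W|. Cauchy-Schwarz: (∫|G||W|)^2 <= ∫|G| * ∫|G|W^2 <= K ∫|G|W^2; (∫|G|W^2)^2 <= ∫G^2 ∫W^4 <= (H K) energy(S).
So (|S|/2)^4 <= K^2 * H K * energy.
(Hint for Cauchy-Schwarz on [0,1]: for all λ>0, 2ab <= λa^2 + b^2/λ pointwise, or use intervalIntegral / MeasureTheory Hölder, or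
 discriminant: ∫(|G|)(t - |W|)^2 >= 0.)
-/

namespace SFL
open Real

theorem en_int (m : ℤ) : ∫ x in (0:ℝ)..1, Real.cos (2 * π * m * x) = if m = 0 then 1 else 0 := by
  by_cases hm : m = 0
  · subst hm
    simp
  · rw [if_neg hm]
    have hm' : (m : ℝ) ≠ 0 := by exact_mod_cast hm
    have hc : (2 * π * m : ℝ) ≠ 0 := by positivity
    rw [intervalIntegral.integral_comp_mul_left (fun x => Real.cos x) hc, integral_cos, smul_eq_mul]
    have e0 : Real.sin (2 * π * m * 1) = 0 := by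
      rw [mul_one, show 2 * π * (m:ℝ) = ((2 * m : ℤ) : ℝ) * π by push_cast; ring]
      exact Real.sin_int_mul_pi _
    rw [e0, mul_zero, Real.sin_zero, sub_zero, mul_zero]

/-- the square of the modulus of the exponential sum -/
theorem en_sq (S : Finset ℤ) (x : ℝ) :
    (∑ y ∈ S, Real.cos (2 * π * y * x)) ^ 2 + (∑ y ∈ S, Real.sin (2 * π * y * x)) ^ 2
      = ∑ p ∈ S ×ˢ S, Real.cos (2 * π * (p.1 - p.2 : ℤ) * x) := by
  rw [sq, sq, Finset.sum_mul_sum, Finset.sum_mul_sum, ← Finset.sum_product',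
    ← Finset.sum_product', ← Finset.sum_add_distrib]
  refine Finset.sum_congr rfl (fun p _ => ?_)
  rw [← Real.cos_sub]
  congr 1
  push_cast
  ring

theorem en_sin (S : Finset ℤ) (x : ℝ) :
    ∑ p ∈ S ×ˢ S, Real.sin (2 * π * (p.1 - p.2 : ℤ) * x) = 0 := by
  have h : ∑ p ∈ S ×ˢ S, Real.sin (2 * π * (p.1 - p.2 : ℤ) * x)
      = ∑ p ∈ S ×ˢ S, -Real.sin (2 * π * (p.1 - p.2 : ℤ) * x) := by
    refine Finset.sum_nbij' Prod.swap Prod.swap ?_ ?_ (by simp) (by simp) ?_
    · intro p hp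
      simp only [Finset.mem_product] at hp ⊢
      exact ⟨hp.2, hp.1⟩
    · intro p hp
      simp only [Finset.mem_product] at hp ⊢
      exact ⟨hp.2, hp.1⟩
    · intro p _
      rw [← Real.sin_neg]
      congr 1
      simp only [Prod.fst_swap, Prod.snd_swap]
      push_cast
      ring
  rw [Finset.sum_neg_distrib] at h
  linarith

theorem en_four (S : Finset ℤ) (x : ℝ) :
    (∑ p ∈ S ×ˢ S, Real.cos (2 * π * (p.1 - p.2 : ℤ) * x)) ^ 2
      = ∑ r ∈ (S ×ˢ S) ×ˢ (S ×ˢ S), Real.cos (2 * π * ((r.1.1 - r.1.2) + (r.2.1 - r.2.2) : ℤ) * x) := by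
  have h : ∀ r ∈ (S ×ˢ S) ×ˢ (S ×ˢ S),
      Real.cos (2 * π * ((r.1.1 - r.1.2) + (r.2.1 - r.2.2) : ℤ) * x)
      = Real.cos (2 * π * (r.1.1 - r.1.2 : ℤ) * x) * Real.cos (2 * π * (r.2.1 - r.2.2 : ℤ) * x)
        - Real.sin (2 * π * (r.1.1 - r.1.2 : ℤ) * x) * Real.sin (2 * π * (r.2.1 - r.2.2 : ℤ) * x) := by
    intro r _
    rw [← Real.cos_add]
    congr 1
    push_cast
    ring
  rw [Finset.sum_congr rfl h, Finset.sum_sub_distrib]
  have h2 := Finset.sum_mul_sum (S ×ˢ S) (S ×ˢ S)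
    (fun p => Real.sin (2 * π * (p.1 - p.2 : ℤ) * x))
    (fun p => Real.sin (2 * π * (p.1 - p.2 : ℤ) * x))
  rw [← Finset.sum_product'] at h2
  rw [← h2, en_sin, mul_zero, sub_zero, sq, Finset.sum_mul_sum, ← Finset.sum_product']

theorem en_count (S : Finset ℤ) :
    ∫ x in (0:ℝ)..1, (∑ p ∈ S ×ˢ S, Real.cos (2 * π * (p.1 - p.2 : ℤ) * x)) ^ 2
      = energy S := by
  simp only [en_four]
  rw [intervalIntegral.integral_finsetSum
    (fun r _ => Continuous.intervalIntegrable (by fun_prop) _ _)]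
  have h : ∀ r ∈ (S ×ˢ S) ×ˢ (S ×ˢ S),
      ∫ x in (0:ℝ)..1, Real.cos (2 * π * ((r.1.1 - r.1.2) + (r.2.1 - r.2.2) : ℤ) * x)
      = if (r.1.1 - r.1.2) + (r.2.1 - r.2.2) = 0 then (1:ℝ) else 0 := by
    intro r _
    exact en_int _
  rw [Finset.sum_congr rfl h, Finset.sum_boole]
  unfold energy
  congr 1
  refine Finset.card_nbij' (fun r => (r.1.1, r.2.1, r.1.2, r.2.2))
    (fun t => ((t.1, t.2.2.1), (t.2.1, t.2.2.2))) ?_ ?_ ?_ ?_
  · intro r hr
    simp only [Finset.coe_filter, Finset.mem_product, Set.mem_ofPred_eq] at hr ⊢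
    refine ⟨⟨hr.1.1.1, hr.1.2.1, hr.1.1.2, hr.1.2.2⟩, by linarith [hr.2]⟩
  · intro t ht
    simp only [Finset.coe_filter, Finset.mem_product, Set.mem_ofPred_eq] at ht ⊢
    refine ⟨⟨⟨ht.1.1, ht.1.2.2.1⟩, ht.1.2.1, ht.1.2.2.2⟩, by linarith [ht.2]⟩
  · intro r _
    rfl
  · intro t _
    rfl

theorem en_discr {a b c : ℝ} (h : ∀ t : ℝ, 0 ≤ a * (t * t) + (-2 * b) * t + c) : b ^ 2 ≤ a * c := by
  have := discrim_le_zero h
  unfold discrim at this
  nlinarith

theorem en {G : ℝ → ℝ} {H K : ℝ} (hG : Good G H K) {S : Finset ℤ}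
    (hS : ∀ y ∈ S, 1 / 2 ≤ cf G y) :
    ((S.card : ℝ) / 2) ^ 4 ≤ K ^ 3 * H * energy S := by
  set W : ℝ → ℝ := fun x => ∑ y ∈ S, Real.cos (2 * π * y * x) with hW
  have hWc : Continuous W := by
    rw [hW]
    exact continuous_finsetSum _ (fun j _ => by fun_prop)
  have hH0 : 0 ≤ H := (abs_nonneg _).trans (hG.bdd 0)
  have hgabs : Good (fun x => |G x|) H K := by
    refine ⟨hG.meas.abs, fun x => ?_, ?_⟩
    · show |(|G x|)| ≤ H
      rw [abs_abs]; exact hG.bdd x
    · simp only [abs_abs]; exact hG.l1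
  have hgsq : Good (fun x => G x ^ 2) (H ^ 2) (H * K) := by
    have hb : ∀ x, |G x ^ 2| ≤ H * |G x| := by
      intro x
      rw [abs_pow, sq]
      exact mul_le_mul_of_nonneg_right (hG.bdd x) (abs_nonneg _)
    refine ⟨hG.meas.pow_const 2, fun x => ?_, ?_⟩
    · show |G x ^ 2| ≤ H ^ 2
      rw [abs_pow]
      exact pow_le_pow_left₀ (abs_nonneg _) (hG.bdd x) 2
    · have i1 : IntervalIntegrable (fun x => |G x ^ 2|) MeasureTheory.volume 0 1 := by
        have h1 : IntervalIntegrable (fun _ : ℝ => H ^ 2) MeasureTheory.volume 0 1 :=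
          continuous_const.intervalIntegrable _ _
        refine h1.mono_fun (hG.meas.pow_const 2).abs.aestronglyMeasurable ?_
        refine Filter.Eventually.of_forall (fun x => ?_)
        show ‖|G x ^ 2|‖ ≤ ‖H ^ 2‖
        rw [Real.norm_eq_abs, Real.norm_eq_abs, abs_abs, abs_pow, abs_pow, abs_of_nonneg hH0]
        exact pow_le_pow_left₀ (abs_nonneg _) (hG.bdd x) 2
      have i2 : IntervalIntegrable (fun x => H * |G x|) MeasureTheory.volume 0 1 := by
        have := hgabs.intble (continuous_const (y := H)) 0 1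
        refine this.congr ?_
        intro x _
        show |G x| * H = H * |G x|
        ring
      calc ∫ x in (0:ℝ)..1, |G x ^ 2| ≤ ∫ x in (0:ℝ)..1, H * |G x| :=
            intervalIntegral.integral_mono_on zero_le_one i1 i2 (fun x _ => hb x)
        _ = H * ∫ x in (0:ℝ)..1, |G x| := intervalIntegral.integral_const_mul _ _
        _ ≤ H * K := mul_le_mul_of_nonneg_left hG.l1 hH0
  -- notation
  set P := ∫ x in (0:ℝ)..1, |G x| with hP
  set Q := ∫ x in (0:ℝ)..1, |G x| * |W x| with hQ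
  set R := ∫ x in (0:ℝ)..1, |G x| * W x ^ 2 with hR
  set U := ∫ x in (0:ℝ)..1, G x ^ 2 with hU
  set V := ∫ x in (0:ℝ)..1, W x ^ 4 with hV
  have iP : IntervalIntegrable (fun x => |G x|) MeasureTheory.volume 0 1 := by
    have := hgabs.intble (continuous_const (y := (1:ℝ))) 0 1
    refine this.congr ?_
    intro x _
    simp
  have iU : IntervalIntegrable (fun x => G x ^ 2) MeasureTheory.volume 0 1 := by
    have := hgsq.intble (continuous_const (y := (1:ℝ))) 0 1
    refine this.congr ?_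
    intro x _
    simp
  have iQ : IntervalIntegrable (fun x => |G x| * |W x|) MeasureTheory.volume 0 1 :=
    hgabs.intble hWc.abs 0 1
  have iR : IntervalIntegrable (fun x => |G x| * W x ^ 2) MeasureTheory.volume 0 1 :=
    hgabs.intble (hWc.pow 2) 0 1
  have iV : IntervalIntegrable (fun x => W x ^ 4) MeasureTheory.volume 0 1 :=
    (hWc.pow 4).intervalIntegrable _ _
  have cs1 : Q ^ 2 ≤ P * R := by
    refine en_discr (fun t => ?_)
    have h0 : 0 ≤ ∫ x in (0:ℝ)..1, |G x| * (t - |W x|) ^ 2 :=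
      intervalIntegral.integral_nonneg zero_le_one
        (fun x _ => mul_nonneg (abs_nonneg _) (sq_nonneg _))
    have he : ∀ x : ℝ, |G x| * (t - |W x|) ^ 2
        = t * t * |G x| + (-2 * t) * (|G x| * |W x|) + |G x| * W x ^ 2 := by
      intro x
      rw [← sq_abs (W x)]
      ring
    simp only [he] at h0
    rw [intervalIntegral.integral_add ((iP.const_mul _).add (iQ.const_mul _)) iR,
      intervalIntegral.integral_add (iP.const_mul _) (iQ.const_mul _),
      intervalIntegral.integral_const_mul, intervalIntegral.integral_const_mul] at h0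
    linarith
  have cs2 : R ^ 2 ≤ U * V := by
    refine en_discr (fun t => ?_)
    have h0 : 0 ≤ ∫ x in (0:ℝ)..1, (t * |G x| - W x ^ 2) ^ 2 :=
      intervalIntegral.integral_nonneg zero_le_one (fun x _ => sq_nonneg _)
    have he : ∀ x : ℝ, (t * |G x| - W x ^ 2) ^ 2
        = t * t * G x ^ 2 + (-2 * t) * (|G x| * W x ^ 2) + W x ^ 4 := by
      intro x
      rw [← sq_abs (G x)]
      ring
    simp only [he] at h0
    rw [intervalIntegral.integral_add ((iU.const_mul _).add (iR.const_mul _)) iV,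
      intervalIntegral.integral_add (iU.const_mul _) (iR.const_mul _),
      intervalIntegral.integral_const_mul, intervalIntegral.integral_const_mul] at h0
    linarith
  have hUb : U ≤ H * K := by
    refine le_trans (le_of_eq ?_) hgsq.l1
    rw [hU]
    congr 1
    funext x
    exact (abs_of_nonneg (sq_nonneg _)).symm
  have hVb : V ≤ energy S := by
    rw [← en_count, hV]
    refine intervalIntegral.integral_mono_on zero_le_one iV
      (Continuous.intervalIntegrable (Continuous.pow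
        (continuous_finsetSum _ (fun j _ => by fun_prop)) 2) _ _) (fun x _ => ?_)
    rw [← en_sq]
    have : W x ^ 4 = (W x ^ 2) ^ 2 := by ring
    rw [this]
    refine pow_le_pow_left₀ (sq_nonneg _) ?_ 2
    rw [hW]
    exact le_add_of_nonneg_right (sq_nonneg _)
  have hPK : P ≤ K := hG.l1
  have hP0 : 0 ≤ P := intervalIntegral.integral_nonneg zero_le_one (fun x _ => abs_nonneg _)
  have hR0 : 0 ≤ R := intervalIntegral.integral_nonneg zero_le_one
    (fun x _ => mul_nonneg (abs_nonneg _) (sq_nonneg _))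
  have hU0 : 0 ≤ U := intervalIntegral.integral_nonneg zero_le_one (fun x _ => sq_nonneg _)
  have hV0 : 0 ≤ V := intervalIntegral.integral_nonneg zero_le_one
    (fun x _ => by positivity)
  have hK0 : 0 ≤ K := hP0.trans hPK
  have hSQ : (S.card : ℝ) / 2 ≤ Q := by
    calc (S.card : ℝ) / 2 = ∑ _y ∈ S, (1 / 2 : ℝ) := by
          rw [Finset.sum_const, nsmul_eq_mul]; ring
      _ ≤ ∑ y ∈ S, cf G y := Finset.sum_le_sum hS
      _ = ∫ x in (0:ℝ)..1, G x * W x := by
          unfold cf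
          rw [← intervalIntegral.integral_finsetSum (fun j _ => hG.intble (by fun_prop) 0 1)]
          congr 1
          funext x
          rw [hW, Finset.mul_sum]
      _ ≤ Q := by
          refine intervalIntegral.integral_mono_on zero_le_one (hG.intble hWc 0 1) iQ (fun x _ => ?_)
          rw [← abs_mul]
          exact le_abs_self _
  have hcard0 : (0:ℝ) ≤ (S.card : ℝ) / 2 := by positivity
  have hQ0 : 0 ≤ Q := hcard0.trans hSQ
  calc ((S.card : ℝ) / 2) ^ 4 ≤ Q ^ 4 := pow_le_pow_left₀ hcard0 hSQ 4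
    _ = (Q ^ 2) ^ 2 := by ring
    _ ≤ (P * R) ^ 2 := pow_le_pow_left₀ (sq_nonneg _) cs1 2
    _ = P ^ 2 * R ^ 2 := by ring
    _ ≤ K ^ 2 * (U * V) := by
        refine mul_le_mul (pow_le_pow_left₀ hP0 hPK 2) cs2 (sq_nonneg _) (sq_nonneg _)
    _ ≤ K ^ 2 * ((H * K) * energy S) := by
        refine mul_le_mul_of_nonneg_left ?_ (sq_nonneg _)
        exact mul_le_mul hUb hVb hV0 (mul_nonneg hH0 hK0)
    _ = K ^ 3 * H * energy S := by ring

end SFL
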