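import Pool.Agent.SFL.Chain

/-!
# ThmB: choice of parameters.
Suppose log q > 10^9 K^5/α^3. m = ceil(80K+2) <= 80K+3, k1 = ceil(400K^2) <= 401K^2, d = ceil(2500K^2/α^2+1+m k1)
 <= 2500K^2/α^2 + 2 + 83K*401K^2 <= 36000 K^3/α^2. δ = (1/(3200K^2))/(16(d+1)), 1/δ <= 51200 K^2 * 36001 K^3/α^2 <= 2*10^9 K^5/α^2.
 s = α/(100K) δ^(2m). log(1/(δ s)) = (2m+1) log(1/δ) + log(100K/α), 2m+1 <= 167K, log(1/δ) <= 22 + 5 log K + 2 log(1/α) <= 29K/α (log x <= x - 1),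
 log(100K/α) <= 5 + K + 1/α <= 7K/α. So X := log(4/(δ s)) <= 2 + 4843K^2/α + 7K/α <= 4860 K^2/α.
 (2/(δs)+1)^d <= (4/(δs))^d, and we need d X + X <= log q (then (4/(δs))^d * (2/(δ s)) <= (4/(δs))^(d+1) <= q):
 (d+1) X <= 36001*4860 K^5/α^3 <= 1.8*10^8 K^5/α^3 < log q. So hdir holds and `chain` gives False.
 (q >= 1 real, q as a natural number.)
-/

namespace SFL
open Real

private theorem thmB_log (x : ℝ) (n : ℕ) (hx : 0 < x) (h : x ≤ 2.7 ^ n) : Real.log x ≤ n := by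
  rw [Real.log_le_iff_le_exp hx]
  have h1 : (2.7:ℝ) ≤ Real.exp 1 := by
    have := Real.exp_one_gt_d9
    linarith
  calc x ≤ 2.7 ^ n := h
    _ ≤ Real.exp 1 ^ n := by gcongr
    _ = Real.exp n := by rw [← Real.exp_nat_mul, mul_one]

private theorem thmB_d {K α m k1 d : ℝ} (hK : 1 ≤ K) (hα : 0 < α) (hα1 : α ≤ 1)
    (hm0 : 0 ≤ m) (hm : m ≤ 80 * K + 3) (hk1 : k1 ≤ 400 * K ^ 2 + 1)
    (hd : d ≤ 2500 * K ^ 2 / α ^ 2 + 1 + m * k1 + 1) :
    d + 1 ≤ 36000 * K ^ 3 / α ^ 2 := by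
  have h1 : m * k1 ≤ 33283 * K ^ 3 := by
    have hk : k1 ≤ 401 * K ^ 2 := by nlinarith
    have hm' : m ≤ 83 * K := by linarith
    calc m * k1 ≤ m * (401 * K ^ 2) := by gcongr
      _ ≤ (83 * K) * (401 * K ^ 2) := by gcongr
      _ = 33283 * K ^ 3 := by ring
  have ha : 1 ≤ 1 / α ^ 2 := by
    rw [le_div_iff₀ (by positivity)]
    nlinarith
  have h2 : 2500 * K ^ 2 / α ^ 2 ≤ 2500 * K ^ 3 * (1 / α ^ 2) := by
    rw [mul_one_div]
    gcongr
    norm_num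
  have hK3 : 1 ≤ K ^ 3 := one_le_pow₀ hK
  have h3 : K ^ 3 ≤ K ^ 3 * (1 / α ^ 2) := le_mul_of_one_le_right (by positivity) ha
  have e : 36000 * K ^ 3 / α ^ 2 = 36000 * (K ^ 3 * (1 / α ^ 2)) := by ring
  rw [e]
  linarith

private theorem thmB_u {K α u : ℝ} (hK : 1 ≤ K) (hα : 0 < α) (hα1 : α ≤ 1) (hu : 0 < u)
    (h : u ≤ 1843200000 * K ^ 5 / α ^ 2) : Real.log u ≤ 22 * K / α := by
  have h1 : Real.log u ≤ Real.log (1843200000 * K ^ 5 / α ^ 2) := Real.log_le_log hu h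
  have h2 : Real.log (1843200000 * K ^ 5 / α ^ 2) =
      Real.log 1843200000 + 5 * Real.log K - 2 * Real.log α := by
    rw [Real.log_div (by positivity) (by positivity), Real.log_mul (by norm_num) (by positivity),
      Real.log_pow, Real.log_pow]
    push_cast; ring
  have h3 : Real.log 1843200000 ≤ 22 := by
    have := thmB_log 1843200000 22 (by norm_num) (by norm_num)
    exact_mod_cast this
  have h4 : Real.log K ≤ K - 1 := Real.log_le_sub_one_of_pos (by linarith)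
  have h5 : -Real.log α ≤ 1 / α - 1 := by
    rw [← Real.log_inv, ← one_div]
    exact Real.log_le_sub_one_of_pos (by positivity)
  have ha : 1 ≤ 1 / α := by rw [le_div_iff₀ hα]; linarith
  have h6 : K ≤ K / α := by rw [le_div_iff₀ hα]; nlinarith
  have h7 : 1 / α ≤ K / α := by gcongr
  have e : 22 * K / α = 22 * (K / α) := by ring
  rw [e]
  linarith

private theorem thmB_v {K α : ℝ} (hK : 1 ≤ K) (hα : 0 < α) (hα1 : α ≤ 1) :
    Real.log (100 * K / α) ≤ 5 * K / α := by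
  have h2 : Real.log (100 * K / α) = Real.log 100 + Real.log K - Real.log α := by
    rw [Real.log_div (by positivity) (by positivity), Real.log_mul (by norm_num) (by positivity)]
  have h3 : Real.log 100 ≤ 5 := by
    have := thmB_log 100 5 (by norm_num) (by norm_num)
    exact_mod_cast this
  have h4 : Real.log K ≤ K - 1 := Real.log_le_sub_one_of_pos (by linarith)
  have h5 : -Real.log α ≤ 1 / α - 1 := by
    rw [← Real.log_inv, ← one_div]
    exact Real.log_le_sub_one_of_pos (by positivity)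
  have ha : 1 ≤ 1 / α := by rw [le_div_iff₀ hα]; linarith
  have h6 : K ≤ K / α := by rw [le_div_iff₀ hα]; nlinarith
  have h7 : 1 / α ≤ K / α := by gcongr
  have e : 5 * K / α = 5 * (K / α) := by ring
  rw [e]
  linarith

/-- the numerical core -/
private theorem thmB_X {K α δ : ℝ} {m d : ℕ} (hK : 1 ≤ K) (hα : 0 < α) (hα1 : α ≤ 1)
    (hm : (m:ℝ) ≤ 80 * K + 3) (hd : (d:ℝ) + 1 ≤ 36000 * K ^ 3 / α ^ 2) (hδ : 0 < δ)
    (hδe : 1 / δ = 51200 * K ^ 2 * ((d:ℝ) + 1)) :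
    ((d:ℝ) + 1) * Real.log (4 / (δ * (α / (100 * K) * (δ ^ 2) ^ m))) ≤ 10 ^ 9 * K ^ 5 / α ^ 3 := by
  have hK0 : 0 < K := by linarith
  have hu : Real.log (1 / δ) ≤ 22 * K / α := by
    refine thmB_u hK hα hα1 (by positivity) ?_
    rw [hδe]
    calc 51200 * K ^ 2 * ((d:ℝ) + 1) ≤ 51200 * K ^ 2 * (36000 * K ^ 3 / α ^ 2) := by gcongr
      _ = 1843200000 * K ^ 5 / α ^ 2 := by ring
  have hv := thmB_v hK hα hα1
  have e1 : Real.log (4 / (δ * (α / (100 * K) * (δ ^ 2) ^ m))) =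
      Real.log 4 + (2 * m + 1) * Real.log (1 / δ) + Real.log (100 * K / α) := by
    have : 4 / (δ * (α / (100 * K) * (δ ^ 2) ^ m)) = 4 * (1 / δ) ^ (2 * m + 1) * (100 * K / α) := by
      rw [← pow_mul, pow_succ, one_div, inv_pow]
      field_simp
    rw [this, Real.log_mul (by positivity) (by positivity), Real.log_mul (by norm_num) (by positivity),
      Real.log_pow]
    push_cast; ring
  have h4 : Real.log 4 ≤ 2 := by
    have := thmB_log 4 2 (by norm_num) (by norm_num)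
    exact_mod_cast this
  have hm2 : (2 * (m:ℝ) + 1) ≤ 167 * K := by linarith
  have h5 : (2 * (m:ℝ) + 1) * Real.log (1 / δ) ≤ (167 * K) * (22 * K / α) := by
    calc (2 * (m:ℝ) + 1) * Real.log (1 / δ) ≤ (2 * (m:ℝ) + 1) * (22 * K / α) := by gcongr
      _ ≤ (167 * K) * (22 * K / α) := by gcongr
  have h6 : K / α ≤ K ^ 2 / α := by gcongr; nlinarith
  have h7 : 1 ≤ K ^ 2 / α := by rw [le_div_iff₀ hα]; nlinarith
  have hX : Real.log (4 / (δ * (α / (100 * K) * (δ ^ 2) ^ m))) ≤ 3681 * (K ^ 2 / α) := by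
    rw [e1]
    have e2 : (167 * K) * (22 * K / α) = 3674 * (K ^ 2 / α) := by ring
    have e3 : 5 * K / α = 5 * (K / α) := by ring
    rw [e2] at h5
    rw [e3] at hv
    linarith
  calc ((d:ℝ) + 1) * Real.log (4 / (δ * (α / (100 * K) * (δ ^ 2) ^ m)))
      ≤ ((d:ℝ) + 1) * (3681 * (K ^ 2 / α)) := by gcongr
    _ ≤ (36000 * K ^ 3 / α ^ 2) * (3681 * (K ^ 2 / α)) := by gcongr
    _ = 132516000 * (K ^ 5 / α ^ 3) := by field_simp; ring
    _ ≤ 10 ^ 9 * (K ^ 5 / α ^ 3) := by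
        gcongr
        norm_num
    _ = 10 ^ 9 * K ^ 5 / α ^ 3 := by ring

theorem thmB {G : ℝ → ℝ} {H K : ℝ} (hG : Good G H K) (hK : 1 ≤ K) {w : ℤ → ℤ} {Y0 : ℤ}
    (hw : Near G w Y0) {v y0 : ℤ} (hv : v ≠ 0) {q : ℕ} (hq : 1 ≤ q) {α : ℝ} (hα : 0 < α) (hα1 : α ≤ 1)
    (hden : α * (2 * q + 1) ≤
      (((Finset.Icc (-(q:ℤ)) q).filter (fun t => 1 ≤ w (y0 + t * v))).card : ℝ)) :
    Real.log q ≤ 10 ^ 9 * K ^ 5 / α ^ 3 := by
  by_contra hcon
  push Not at hcon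
  have hK0 : 0 < K := by linarith
  set m : ℕ := ⌈80 * K + 2⌉₊ with hm
  set k1 : ℕ := ⌈400 * K ^ 2⌉₊ with hk1
  set d : ℕ := ⌈2500 * K ^ 2 / α ^ 2 + 1 + m * k1⌉₊ with hd
  have hm1 : 80 * K + 2 ≤ m := Nat.le_ceil _
  have hm2 : (m:ℝ) ≤ 80 * K + 3 := by
    have := (Nat.ceil_lt_add_one (by positivity : 0 ≤ 80 * K + 2)).le
    rw [← hm] at this
    linarith
  have hk1' : 400 * K ^ 2 ≤ k1 := Nat.le_ceil _
  have hk2 : (k1:ℝ) ≤ 400 * K ^ 2 + 1 := (Nat.ceil_lt_add_one (by positivity)).le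
  have hd1 : 2500 * K ^ 2 / α ^ 2 + 1 + m * k1 ≤ d := Nat.le_ceil _
  have hd2 : (d:ℝ) ≤ 2500 * K ^ 2 / α ^ 2 + 1 + m * k1 + 1 :=
    (Nat.ceil_lt_add_one (by positivity)).le
  have hd3 : (d:ℝ) + 1 ≤ 36000 * K ^ 3 / α ^ 2 := thmB_d hK hα hα1 (by positivity) hm2 hk2 hd2
  set δ : ℝ := 1 / (3200 * K ^ 2) / (16 * ((d : ℝ) + 1)) with hδ
  have hδ0 : 0 < δ := by positivity
  have hδe : 1 / δ = 51200 * K ^ 2 * ((d:ℝ) + 1) := by
    rw [hδ]; field_simp; ring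
  have hδ1 : δ ≤ 1 := by
    have : 1 ≤ 1 / δ := by
      rw [hδe]
      have : (0:ℝ) ≤ d := by positivity
      nlinarith [mul_pos hK0 hK0]
    rwa [le_div_iff₀ hδ0, one_mul] at this
  have hX := thmB_X hK hα hα1 hm2 hd3 hδ0 hδe
  set t : ℝ := δ * (α / (100 * K) * (δ ^ 2) ^ m) with ht
  have ht0 : 0 < t := by positivity
  have ht1 : t ≤ 1 := by
    have h1 : (δ ^ 2) ^ m ≤ 1 := pow_le_one₀ (by positivity) (pow_le_one₀ hδ0.le hδ1)
    have h2 : α / (100 * K) ≤ 1 := by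
      rw [div_le_one (by positivity)]; linarith
    have h3 : α / (100 * K) * (δ ^ 2) ^ m ≤ 1 := mul_le_one₀ h2 (by positivity) h1
    exact mul_le_one₀ hδ1 (by positivity) h3
  refine chain hG hK hw hv hq hα hα1 hden hm1 hk1' hd1 hδ0 le_rfl ?_
  rw [← ht]
  have hq0 : (0:ℝ) < q := by exact_mod_cast hq
  have h4 : 0 < 4 / t := by positivity
  have h5 : (4 / t) ^ (d + 1) ≤ q := by
    rw [← Real.log_le_log_iff (by positivity) hq0, Real.log_pow]
    push_cast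
    exact hX.trans hcon.le
  have h6 : 2 / t + 1 ≤ 4 / t := by
    have : 1 ≤ 1 / t := by rw [le_div_iff₀ ht0]; linarith
    have e1 : 2 / t = 2 * (1 / t) := by ring
    have e2 : 4 / t = 4 * (1 / t) := by ring
    rw [e1, e2]; linarith
  calc (2 / t + 1) ^ d ≤ (4 / t) ^ d := by gcongr
    _ = (4 / t) ^ (d + 1) * (t / 4) := by
        rw [pow_succ]; field_simp
    _ ≤ q * (t / 4) := by gcongr
    _ ≤ q * (t / 2) := by
        gcongr
        norm_num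

end SFL
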