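import Pool.Agent.SFL.En
import Pool.Agent.SFL.BSG
import Pool.Agent.SFL.DAP
import Pool.Agent.SFL.ThmB

/-!
# En2: robust weak Littlewood theorem (assembly).
Let G be Good H K, Near G w Y0, S a nonempty finite set with w >= 1 on S, H <= |S| K, K >= 1. Then log|S| <= 10^200 K^2000  (any such constant).
cf G >= 0.99 on S; en: (|S|/2)^4 <= K^3 H energy <= K^4 |S| energy, so |S|^3 <= 16 K^4 energy: E0 = 16K^4. bsg: B, |S| <= 128K^4|B|, |B-B| <= κ|B|,
κ = 2^22 (16K^4)^10 = 2^62 K^40. dap with α = 1/κ^5 = 2^(-310) K^(-200), k = ceil(800 κ^24) <= 801 κ^24 = 801 * 2^1488 K^960. thmB: log q <= 10^9K^5 κ^15 =: Q0.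
Take q = largest natural number with (6q+1)^k < |B| (if q = 1 fails, i.e. 7^k >= |B|, then log|B| <= 2k and done). (6(q+1)+1)^k >= |B| gives
log|B| <= k log(6q+7) <= k log(13 q) <= k(3 + Q0). So log|S| <= log(128K^4) + k(3+Q0) <= ... <= 10^9*4*801*K^5 * κ^39 * ... = C K^1565, C <= 10^(13) * 2^(62*39) <= 10^(13+728) .
So the statement with 10^800 K^1600 is safe.
-/

namespace SFL
open Real

theorem En2_num {K κ k Q : ℝ} (hK : 1 ≤ K) (hκ : κ = 2 ^ 62 * K ^ 40) (hk : k ≤ 801 * κ ^ 24)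
    (hQ : Q = 10 ^ 9 * K ^ 5 * κ ^ 15) :
    128 * K ^ 4 + k * (3 + Q) ≤ 10 ^ 800 * K ^ 1600 := by
  have hK0 : 0 < K := by linarith
  have hκ1 : 1 ≤ κ := by
    rw [hκ]
    have : 1 ≤ K ^ 40 := one_le_pow₀ hK
    nlinarith
  have hx : 1 ≤ K ^ 5 * κ ^ 15 := one_le_mul_of_one_le_of_one_le (one_le_pow₀ hK) (one_le_pow₀ hκ1)
  have h1 : 3 + Q ≤ 4 * 10 ^ 9 * (K ^ 5 * κ ^ 15) := by rw [hQ]; nlinarith
  have hQ0 : 0 ≤ 3 + Q := by rw [hQ]; positivity
  have h2 : k * (3 + Q) ≤ 801 * κ ^ 24 * (4 * 10 ^ 9 * (K ^ 5 * κ ^ 15)) := by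
    calc k * (3 + Q) ≤ 801 * κ ^ 24 * (3 + Q) := mul_le_mul_of_nonneg_right hk hQ0
      _ ≤ _ := mul_le_mul_of_nonneg_left h1 (by positivity)
  have h3 : 801 * κ ^ 24 * (4 * 10 ^ 9 * (K ^ 5 * κ ^ 15)) =
      801 * 4 * 10 ^ 9 * 2 ^ 2418 * K ^ 1565 := by
    have : κ ^ 24 * κ ^ 15 = 2 ^ 2418 * K ^ 1560 := by
      rw [← pow_add, hκ, mul_pow, ← pow_mul, ← pow_mul]
    calc 801 * κ ^ 24 * (4 * 10 ^ 9 * (K ^ 5 * κ ^ 15))
        = 801 * 4 * 10 ^ 9 * (κ ^ 24 * κ ^ 15) * K ^ 5 := by ring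
      _ = 801 * 4 * 10 ^ 9 * 2 ^ 2418 * (K ^ 1560 * K ^ 5) := by rw [this]; ring
      _ = _ := by rw [← pow_add]
  have h4 : K ^ 1565 ≤ K ^ 1600 := pow_le_pow_right₀ hK (by norm_num)
  have h5 : K ^ 4 ≤ K ^ 1600 := pow_le_pow_right₀ hK (by norm_num)
  rw [h3] at h2
  have h6 : (801 * 4 * 10 ^ 9 * 2 ^ 2418 + 128 : ℝ) ≤ 10 ^ 800 := by
    have e1 : (2 : ℝ) ^ 2418 = (2 ^ 93) ^ 26 := by rw [← pow_mul]
    have e2 : (10 : ℝ) ^ 728 = (10 ^ 28) ^ 26 := by rw [← pow_mul]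
    have e3 : (10 : ℝ) ^ 800 = 10 ^ 72 * 10 ^ 728 := by rw [← pow_add]
    have e4 : (2 : ℝ) ^ 2418 ≤ 10 ^ 728 := by
      rw [e1, e2]
      exact pow_le_pow_left₀ (by positivity) (by norm_num) 26
    have e5 : (1 : ℝ) ≤ 10 ^ 728 := one_le_pow₀ (by norm_num)
    rw [e3]
    generalize (2 : ℝ) ^ 2418 = x at e4
    generalize (10 : ℝ) ^ 728 = X at e4 e5
    norm_num
    linarith
  have h7 : (0 : ℝ) < K ^ 1600 := by positivity
  calc 128 * K ^ 4 + k * (3 + Q)
      ≤ 128 * K ^ 1600 + 801 * 4 * 10 ^ 9 * 2 ^ 2418 * K ^ 1600 := by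
        apply add_le_add
        · exact mul_le_mul_of_nonneg_left h5 (by norm_num)
        · exact h2.trans (mul_le_mul_of_nonneg_left h4 (by positivity))
    _ = (801 * 4 * 10 ^ 9 * 2 ^ 2418 + 128) * K ^ 1600 := by ring
    _ ≤ _ := mul_le_mul_of_nonneg_right h6 h7.le

theorem littlewood {G : ℝ → ℝ} {H K : ℝ} (hG : Good G H K) (hK : 1 ≤ K) {w : ℤ → ℤ} {Y0 : ℤ}
    (hw : Near G w Y0) {S : Finset ℤ} (hS : S.Nonempty) (hSw : ∀ y ∈ S, 1 ≤ w y)
    (hH : H ≤ S.card * K) : Real.log S.card ≤ 10 ^ 800 * K ^ 1600 := by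
  have hK0 : 0 < K := by linarith
  have hn1 : (1 : ℝ) ≤ S.card := by exact_mod_cast Finset.card_pos.2 hS
  have hn0 : (0 : ℝ) < S.card := by linarith
  have hcf : ∀ y ∈ S, 1 / 2 ≤ cf G y := by
    intro y hy
    have h1 := abs_le.1 (hw.near y)
    have h2 : (1 : ℝ) ≤ w y := by exact_mod_cast hSw y hy
    linarith
  have hen := en hG hcf
  have hE : (S.card : ℝ) ^ 3 ≤ 16 * K ^ 4 * energy S := by
    have h1 : K ^ 3 * H * energy S ≤ K ^ 3 * (S.card * K) * energy S := by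
      apply mul_le_mul_of_nonneg_right _ (Nat.cast_nonneg _)
      exact mul_le_mul_of_nonneg_left hH (by positivity)
    have h2 := hen.trans h1
    have h3 : (S.card : ℝ) * (S.card : ℝ) ^ 3 ≤ S.card * (16 * K ^ 4 * energy S) := by
      nlinarith
    exact le_of_mul_le_mul_left h3 hn0
  have hE0 : 1 ≤ 16 * K ^ 4 := by
    have : 1 ≤ K ^ 4 := one_le_pow₀ hK
    linarith
  obtain ⟨B, hBS, hB, hB1, hB2⟩ := bsg hS hE0 hE
  set κ : ℝ := 2 ^ 62 * K ^ 40 with hκ
  have eκ : (2 : ℝ) ^ 22 * (16 * K ^ 4) ^ 10 = κ := by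
    rw [hκ]; ring
  rw [eκ] at hB2
  have hκ1 : 1 ≤ κ := by
    rw [hκ]
    have : 1 ≤ K ^ 40 := one_le_pow₀ hK
    nlinarith
  have hκ0 : 0 < κ := by linarith
  set k : ℕ := ⌈800 * κ ^ 24⌉₊ with hk
  have hk1 : 800 * κ ^ 24 ≤ k := Nat.le_ceil _
  have hk2 : (k : ℝ) ≤ 801 * κ ^ 24 := by
    have h1 : (k : ℝ) < 800 * κ ^ 24 + 1 := Nat.ceil_lt_add_one (by positivity)
    have h2 : 1 ≤ κ ^ 24 := one_le_pow₀ hκ1
    linarith
  have hk0 : 0 < k := by
    have h2 : 1 ≤ κ ^ 24 := one_le_pow₀ hκ1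
    have : (0 : ℝ) < k := by linarith
    exact_mod_cast this
  set Q : ℝ := 10 ^ 9 * K ^ 5 * κ ^ 15 with hQ
  have hQ0 : 0 ≤ Q := by positivity
  have hBpos : (0 : ℝ) < B.card := by exact_mod_cast Finset.card_pos.2 hB
  have hlogB : Real.log B.card ≤ k * (3 + Q) := by
    by_cases h7 : 7 ^ k < B.card
    · -- the largest `q`
      set q : ℕ := Nat.findGreatest (fun q => (6 * q + 1) ^ k < B.card) B.card with hq
      have hBc : 1 ≤ B.card := Finset.card_pos.2 hB
      have hq1 : 1 ≤ q := Nat.le_findGreatest (P := fun q => (6 * q + 1) ^ k < B.card) hBc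
        (by simpa using h7)
      have hqs : (6 * q + 1) ^ k < B.card :=
        Nat.findGreatest_spec (P := fun q => (6 * q + 1) ^ k < B.card) hBc (by simpa using h7)
      have hqn : B.card ≤ (6 * (q + 1) + 1) ^ k := by
        by_contra hcon
        push Not at hcon
        have hle : q + 1 ≤ B.card := by
          have h1 : 6 * (q + 1) + 1 ≤ (6 * (q + 1) + 1) ^ k := Nat.le_self_pow hk0.ne' _
          omega
        have := Nat.le_findGreatest (P := fun q => (6 * q + 1) ^ k < B.card) hle hcon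
        omega
      obtain ⟨v, y0, hv, hd⟩ := dap hB hκ1 hB2 hq1 hk1 hqs
      have hα : 0 < 1 / κ ^ 5 := by positivity
      have hα1 : 1 / κ ^ 5 ≤ 1 := by
        rw [div_le_one (by positivity)]
        exact one_le_pow₀ hκ1
      have hden : 1 / κ ^ 5 * (2 * q + 1) ≤
          (((Finset.Icc (-(q:ℤ)) q).filter (fun t => 1 ≤ w (y0 + t * v))).card : ℝ) := by
        refine hd.trans ?_
        have hsub : (Finset.Icc (-(q:ℤ)) q).filter (fun i => y0 + i * v ∈ B) ⊆
            (Finset.Icc (-(q:ℤ)) q).filter (fun t => 1 ≤ w (y0 + t * v)) := by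
          intro x hx
          rw [Finset.mem_filter] at hx ⊢
          exact ⟨hx.1, hSw _ (hBS hx.2)⟩
        exact_mod_cast Finset.card_le_card hsub
      have hlogq := thmB hG hK hw hv hq1 hα hα1 hden
      have eQ : 10 ^ 9 * K ^ 5 / (1 / κ ^ 5) ^ 3 = Q := by
        rw [hQ]
        field_simp
      rw [eQ] at hlogq
      have hq1' : (1 : ℝ) ≤ q := by exact_mod_cast hq1
      have h13 : Real.log 13 ≤ 3 := by
        rw [Real.log_le_iff_le_exp (by norm_num)]
        have := Real.exp_one_gt_d9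
        have e : Real.exp 3 = Real.exp 1 ^ 3 := by rw [← Real.exp_nat_mul]; norm_num
        rw [e]
        calc (13 : ℝ) ≤ 2.7 ^ 3 := by norm_num
          _ ≤ Real.exp 1 ^ 3 := pow_le_pow_left₀ (by norm_num) (by linarith) 3
      calc Real.log B.card ≤ Real.log (((6 * (q + 1) + 1) ^ k : ℕ) : ℝ) := by
            apply Real.log_le_log hBpos
            exact_mod_cast hqn
        _ = k * Real.log (6 * (q + 1) + 1) := by
            push_cast
            rw [Real.log_pow]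
        _ ≤ k * (3 + Q) := by
            apply mul_le_mul_of_nonneg_left _ (Nat.cast_nonneg _)
            calc Real.log (6 * ((q : ℝ) + 1) + 1) ≤ Real.log (13 * q) := by
                  apply Real.log_le_log (by positivity)
                  linarith
              _ = Real.log 13 + Real.log q := Real.log_mul (by norm_num) (by linarith)
              _ ≤ 3 + Q := add_le_add h13 hlogq
    · push Not at h7
      have h7' : (B.card : ℝ) ≤ 7 ^ k := by exact_mod_cast h7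
      have hl7 : Real.log 7 ≤ 3 := by
        rw [Real.log_le_iff_le_exp (by norm_num)]
        have := Real.add_one_le_exp (3 : ℝ)
        have h1 := Real.exp_one_gt_d9
        have e : Real.exp 3 = Real.exp 1 ^ 3 := by rw [← Real.exp_nat_mul]; norm_num
        rw [e]
        calc (7 : ℝ) ≤ 2.7 ^ 3 := by norm_num
          _ ≤ Real.exp 1 ^ 3 := pow_le_pow_left₀ (by norm_num) (by linarith) 3
      calc Real.log B.card ≤ Real.log (7 ^ k) := Real.log_le_log hBpos h7'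
        _ = k * Real.log 7 := Real.log_pow _ _
        _ ≤ k * (3 + Q) := by
            apply mul_le_mul_of_nonneg_left _ (Nat.cast_nonneg _)
            linarith
  have h8 : Real.log S.card ≤ Real.log (8 * (16 * K ^ 4)) + Real.log B.card := by
    rw [← Real.log_mul (by positivity) hBpos.ne']
    exact Real.log_le_log hn0 hB1
  have h9 : Real.log (8 * (16 * K ^ 4)) ≤ 128 * K ^ 4 := by
    have h := Real.log_le_sub_one_of_pos (show 0 < 8 * (16 * K ^ 4) by positivity)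
    linarith
  have h10 := En2_num hK hκ hk2 hQ
  linarith

end SFL
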