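import Pool.Agent.SFL.Main
import Pool.Agent.SFree.Defs

/-!
# Fin: the theorem on f(n).
Let |A0| = n, A = A0 \ {0}, |A| >= n - 1. main_F: x with F A x > (log(n-1))^(1/1800). B = {a in A : 1/3 <= fract(a x) < 2/3} is sum-free
(fract of a sum of two numbers with fract in [1/3,2/3) lies in [2/3,1) or [0,1/3)) and |B| = F A x + |A|/3 >= (n-1)/3 + (log(n-1))^(1/1800) >= n/3 + (log n)^(1/2000) for n large.
f n >= |B|: SFree.f n is an infimum: every m with (exists A, |A| = n, all sum-free subsets of size <= m) is >= the bound.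
-/

namespace SFL
open Real

theorem sumfree_third (A : Finset ℤ) (x : ℝ) :
    ∃ B ⊆ A, (∀ a ∈ B, ∀ b ∈ B, a + b ∉ B) ∧ (B.card : ℝ) = (A.card : ℝ) / 3 + F A x := by
  classical
  refine ⟨A.filter (fun a : ℤ => 1 / 3 ≤ Int.fract ((a : ℝ) * x) ∧ Int.fract ((a : ℝ) * x) < 2 / 3),
    Finset.filter_subset _ _, ?_, ?_⟩
  · intro a ha b hb hab
    rw [Finset.mem_filter] at ha hb hab
    obtain ⟨-, ha1, ha2⟩ := ha
    obtain ⟨-, hb1, hb2⟩ := hb
    obtain ⟨-, hc1, hc2⟩ := hab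
    have h1 : ((a + b : ℤ) : ℝ) * x = (a : ℝ) * x + (b : ℝ) * x := by push_cast; ring
    rw [h1] at hc1 hc2
    have e1 := Int.floor_add_fract ((a : ℝ) * x)
    have e2 := Int.floor_add_fract ((b : ℝ) * x)
    have e3 := Int.floor_add_fract ((a : ℝ) * x + (b : ℝ) * x)
    have h2 : ((⌊(a : ℝ) * x + (b : ℝ) * x⌋ - ⌊(a : ℝ) * x⌋ - ⌊(b : ℝ) * x⌋ : ℤ) : ℝ) =
      Int.fract ((a : ℝ) * x) + Int.fract ((b : ℝ) * x) -
        Int.fract ((a : ℝ) * x + (b : ℝ) * x) := by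
      push_cast
      linarith
    set w : ℤ := ⌊(a : ℝ) * x + (b : ℝ) * x⌋ - ⌊(a : ℝ) * x⌋ - ⌊(b : ℝ) * x⌋ with hw
    have h3 : (0 : ℝ) < (w : ℝ) := by rw [h2]; linarith
    have h4 : (w : ℝ) < 1 := by rw [h2]; linarith
    have h5 : (0 : ℤ) < w := by exact_mod_cast h3
    have h6 : w < (1 : ℤ) := by exact_mod_cast h4
    omega
  · unfold F f
    rw [Finset.sum_sub_distrib, Finset.sum_const, nsmul_eq_mul, Finset.card_filter]
    push_cast
    ring

theorem main_bound : ∃ n0 : ℕ, ∀ n : ℕ, n0 ≤ n →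
    (n : ℝ) / 3 + (Real.log n) ^ (1 / 2000 : ℝ) ≤ (SFree.f n : ℝ) := by
  classical
  obtain ⟨n1, hn1⟩ := main_F
  have htend : Filter.Tendsto (fun n : ℕ => Real.log (n : ℝ)) Filter.atTop Filter.atTop :=
    Real.tendsto_log_atTop.comp tendsto_natCast_atTop_atTop
  obtain ⟨n2, hn2⟩ := Filter.eventually_atTop.1
    (htend.eventually_ge_atTop ((4 : ℝ) ^ (18000 : ℝ)))
  refine ⟨max (n1 + 1) (max n2 4), ?_⟩
  intro n hn
  have hnn1 : n1 + 1 ≤ n := (le_max_left _ _).trans hn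
  have hnn2 : n2 ≤ n := ((le_max_left _ _).trans (le_max_right _ _)).trans hn
  have hn4 : 4 ≤ n := ((le_max_right _ _).trans (le_max_right _ _)).trans hn
  have hL := hn2 n hnn2
  set L : ℝ := Real.log (n : ℝ) with hLdef
  -- the infimum is attained
  have hne : {m : ℕ | ∃ A : Finset ℤ, A.card = n ∧
      ∀ B ⊆ A, SFree.SumFree (B : Set ℤ) → B.card ≤ m}.Nonempty := by
    refine ⟨n, Finset.Ico 0 (n : ℤ), by simp, ?_⟩
    intro B hB _
    have := Finset.card_le_card hB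
    simpa using this
  obtain ⟨A0, hA0, hA0'⟩ := Nat.sInf_mem hne
  have hf : SFree.f n = sInf {m : ℕ | ∃ A : Finset ℤ, A.card = n ∧
      ∀ B ⊆ A, SFree.SumFree (B : Set ℤ) → B.card ≤ m} := rfl
  rw [← hf] at hA0'
  set A : Finset ℤ := A0.erase 0 with hA
  have hAc : n - 1 ≤ A.card := by
    rw [hA, ← hA0]
    exact Finset.pred_card_le_card_erase
  obtain ⟨x, hx⟩ := hn1 A (Finset.notMem_erase _ _) (by omega)
  obtain ⟨B, hBA, hBsf, hBc⟩ := sumfree_third A x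
  have hBf : B.card ≤ SFree.f n := by
    apply hA0' B (hBA.trans (Finset.erase_subset _ _))
    intro a ha b hb hab
    exact hBsf a (Finset.mem_coe.1 ha) b (Finset.mem_coe.1 hb) (Finset.mem_coe.1 hab)
  have hBf' : (B.card : ℝ) ≤ (SFree.f n : ℝ) := by exact_mod_cast hBf
  have hAc' : (n : ℝ) - 1 ≤ (A.card : ℝ) := by
    have : n ≤ A.card + 1 := by omega
    have : (n : ℝ) ≤ A.card + 1 := by exact_mod_cast this
    linarith
  have hn4' : (4 : ℝ) ≤ n := by exact_mod_cast hn4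
  -- logs
  have hLpos : 0 < L := lt_of_lt_of_le (by positivity) hL
  have hlogA : L / 2 ≤ Real.log (A.card : ℝ) := by
    have h1 : Real.log (n : ℝ) ≤ Real.log ((A.card : ℝ) ^ 2) := by
      apply Real.log_le_log (by linarith)
      nlinarith
    rw [Real.log_pow] at h1
    push_cast at h1
    linarith
  have h2 : (L / 2) ^ (1 / 1800 : ℝ) ≤ (Real.log (A.card : ℝ)) ^ (1 / 1800 : ℝ) :=
    Real.rpow_le_rpow (by positivity) hlogA (by norm_num)
  have h3 : (4 : ℝ) ≤ L ^ (1 / 18000 : ℝ) := by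
    have h4 : ((4 : ℝ) ^ (18000 : ℝ)) ^ (1 / 18000 : ℝ) ≤ L ^ (1 / 18000 : ℝ) :=
      Real.rpow_le_rpow (by positivity) hL (by norm_num)
    rw [← Real.rpow_mul (by norm_num)] at h4
    have h5 : (18000 : ℝ) * (1 / 18000 : ℝ) = 1 := by norm_num
    rw [h5, Real.rpow_one] at h4
    exact h4
  have h6 : L ^ (1 / 1800 : ℝ) = L ^ (1 / 2000 : ℝ) * L ^ (1 / 18000 : ℝ) := by
    rw [← Real.rpow_add hLpos]
    norm_num
  have h7 : (L / 2) ^ (1 / 1800 : ℝ) ≥ L ^ (1 / 1800 : ℝ) / 2 := by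
    rw [Real.div_rpow hLpos.le (by norm_num)]
    have h8 : (2 : ℝ) ^ (1 / 1800 : ℝ) ≤ 2 ^ (1 : ℝ) :=
      Real.rpow_le_rpow_of_exponent_le (by norm_num) (by norm_num)
    rw [Real.rpow_one] at h8
    have h9 : 0 < (2 : ℝ) ^ (1 / 1800 : ℝ) := by positivity
    apply div_le_div_of_nonneg_left (by positivity) h9 h8
  have hL1 : (1 : ℝ) ≤ L := by
    refine le_trans ?_ hL
    exact Real.one_le_rpow (by norm_num) (by norm_num)
  have h10 : (1 : ℝ) ≤ L ^ (1 / 2000 : ℝ) := Real.one_le_rpow hL1 (by norm_num)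
  have h11 : L ^ (1 / 2000 : ℝ) + 1 ≤ (Real.log (A.card : ℝ)) ^ (1 / 1800 : ℝ) := by
    refine le_trans ?_ h2
    refine le_trans ?_ h7
    rw [h6]
    nlinarith
  rw [hBc] at hBf'
  linarith

end SFL
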