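import Pool.Agent.SFL.Defs

/-!
# G1: exponential moment bound for triangular sequences (Rudin).
For every real c in [-1,1]: exp(λ c) <= cosh λ + c sinh λ (convexity of exp on [-λ,λ]).
So exp(λ sum_j cos(2πu_jx)) <= prod_j (cosh λ + sinh λ cos(2πu_jx)) =: prod_j h_j(x).
Claim ∫_0^1 prod_{i<=j<N} h_j = cosh λ ∫_0^1 prod_{i+1<=j<N} h_j: H(x) = prod_{j>i} h_j(x) is periodic with period 1/m_i (m_i | u_j for j > i), m_i does not divide u_i.
 ∫_0^1 cos(2πu_i x)H(x)dx = 0 by the shift argument (see C1 (a)): C = ∫cos(2πu_ix)H, S = ∫sin(2πu_ix)H, shift x -> x + 1/m_i: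
 C = C cosθ - S sinθ, S = S cosθ + C sinθ, θ = 2πu_i/m_i not in 2πZ => C = 0.   (m_i != 0 since m_i | .. hm0.)
Result ∫ <= (cosh λ)^N <= exp(λ^2 N/2) (Real.cosh_le_exp_half_sq).
-/

namespace SFL
open Real

theorem g1_conv (l c : ℝ) (h1 : -1 ≤ c) (h2 : c ≤ 1) :
    Real.exp (l * c) ≤ Real.cosh l + Real.sinh l * c := by
  have h := convexOn_exp.2 (Set.mem_univ l) (Set.mem_univ (-l))
    (show 0 ≤ (1 + c) / 2 by linarith) (show 0 ≤ (1 - c) / 2 by linarith) (by ring)
  rw [smul_eq_mul, smul_eq_mul, smul_eq_mul, smul_eq_mul] at h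
  have e1 : (1 + c) / 2 * l + (1 - c) / 2 * -l = l * c := by ring
  rw [e1] at h
  rw [Real.cosh_eq, Real.sinh_eq]
  linarith

/-- a periodic function integrates the same over every shift of the unit interval -/
theorem g1_shift_int {g : ℝ → ℝ} (hg : ∀ x, g (x + 1) = g x) (d : ℝ) :
    ∫ x in (0:ℝ)..1, g (x + d) = ∫ x in (0:ℝ)..1, g x := by
  have hp : Function.Periodic g 1 := hg
  rw [intervalIntegral.integral_comp_add_right (fun x => g x) d]
  have := hp.intervalIntegral_add_eq d 0
  rw [zero_add] at this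
  rw [zero_add, add_comm 1 d]
  exact this

theorem g1_zero {Hf : ℝ → ℝ} (hc : Continuous Hf) {m u : ℤ} (hm : m ≠ 0) (hu : ¬ m ∣ u)
    (hH : ∀ x, Hf (x + 1 / m) = Hf x) (hH1 : ∀ x, Hf (x + 1) = Hf x) :
    ∫ x in (0:ℝ)..1, Real.cos (2 * π * u * x) * Hf x = 0 := by
  set C := ∫ x in (0:ℝ)..1, Real.cos (2 * π * u * x) * Hf x with hC
  set S := ∫ x in (0:ℝ)..1, Real.sin (2 * π * u * x) * Hf x with hS
  set θ : ℝ := 2 * π * u / m with hθ
  have hm' : (m : ℝ) ≠ 0 := by exact_mod_cast hm
  have ic : IntervalIntegrable (fun x => Real.cos (2 * π * u * x) * Hf x) MeasureTheory.volume 0 1 :=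
    Continuous.intervalIntegrable (by fun_prop) _ _
  have is : IntervalIntegrable (fun x => Real.sin (2 * π * u * x) * Hf x) MeasureTheory.volume 0 1 :=
    Continuous.intervalIntegrable (by fun_prop) _ _
  have e1 : C = C * Real.cos θ - S * Real.sin θ := by
    have h1 : ∫ x in (0:ℝ)..1, Real.cos (2 * π * u * (x + 1 / m)) * Hf (x + 1 / m) = C := by
      rw [hC]
      refine g1_shift_int (g := fun x => Real.cos (2 * π * u * x) * Hf x) (fun x => ?_) (1 / m)
      show Real.cos (2 * π * u * (x + 1)) * Hf (x + 1) = Real.cos (2 * π * u * x) * Hf x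
      rw [hH1]
      congr 1
      rw [show 2 * π * u * (x + 1) = 2 * π * u * x + u * (2 * π) by ring,
        Real.cos_add_int_mul_two_pi]
    refine h1.symm.trans ?_
    have h2 : ∀ x : ℝ, Real.cos (2 * π * u * (x + 1 / m)) * Hf (x + 1 / m)
        = Real.cos (2 * π * u * x) * Hf x * Real.cos θ
          - Real.sin (2 * π * u * x) * Hf x * Real.sin θ := by
      intro x
      rw [hH, show 2 * π * u * (x + 1 / m) = 2 * π * u * x + θ by rw [hθ]; ring, Real.cos_add]
      ring
    simp only [h2]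
    rw [intervalIntegral.integral_sub (ic.mul_const _) (is.mul_const _),
      intervalIntegral.integral_mul_const, intervalIntegral.integral_mul_const]
  have e2 : S = S * Real.cos θ + C * Real.sin θ := by
    have h1 : ∫ x in (0:ℝ)..1, Real.sin (2 * π * u * (x + 1 / m)) * Hf (x + 1 / m) = S := by
      rw [hS]
      refine g1_shift_int (g := fun x => Real.sin (2 * π * u * x) * Hf x) (fun x => ?_) (1 / m)
      show Real.sin (2 * π * u * (x + 1)) * Hf (x + 1) = Real.sin (2 * π * u * x) * Hf x
      rw [hH1]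
      congr 1
      rw [show 2 * π * u * (x + 1) = 2 * π * u * x + u * (2 * π) by ring,
        Real.sin_add_int_mul_two_pi]
    refine h1.symm.trans ?_
    have h2 : ∀ x : ℝ, Real.sin (2 * π * u * (x + 1 / m)) * Hf (x + 1 / m)
        = Real.sin (2 * π * u * x) * Hf x * Real.cos θ
          + Real.cos (2 * π * u * x) * Hf x * Real.sin θ := by
      intro x
      rw [hH, show 2 * π * u * (x + 1 / m) = 2 * π * u * x + θ by rw [hθ]; ring, Real.sin_add]
      ring
    simp only [h2]
    rw [intervalIntegral.integral_add (is.mul_const _) (ic.mul_const _),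
      intervalIntegral.integral_mul_const, intervalIntegral.integral_mul_const]
  have e3 : C * ((1 - Real.cos θ) ^ 2 + Real.sin θ ^ 2) = 0 := by
    have a1 : C * (1 - Real.cos θ) = -(S * Real.sin θ) := by linarith
    have a2 : S * (1 - Real.cos θ) = C * Real.sin θ := by linarith
    calc C * ((1 - Real.cos θ) ^ 2 + Real.sin θ ^ 2)
        = (C * (1 - Real.cos θ)) * (1 - Real.cos θ) + C * Real.sin θ * Real.sin θ := by ring
      _ = -(S * Real.sin θ) * (1 - Real.cos θ) + S * (1 - Real.cos θ) * Real.sin θ := by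
          rw [a1, a2]
      _ = 0 := by ring
  rcases mul_eq_zero.mp e3 with h | h
  · exact h
  · exfalso
    have h3 : Real.cos θ = 1 := by nlinarith [sq_nonneg (1 - Real.cos θ), sq_nonneg (Real.sin θ)]
    obtain ⟨n, hn⟩ := (Real.cos_eq_one_iff θ).mp h3
    apply hu
    refine ⟨n, ?_⟩
    have h4 : (n : ℝ) * (2 * π) * m = 2 * π * u := by
      rw [hn, hθ]
      field_simp
    have h5 : (m : ℝ) * n = u := by
      have hpi : (2 * π) ≠ 0 := by positivity
      apply mul_left_cancel₀ hpi
      linarith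
    exact_mod_cast h5.symm

theorem g1_prod {N : ℕ} {u m : ℕ → ℤ} (hm0 : ∀ i < N, m i ≠ 0) (h1 : ∀ i < N, ¬ m i ∣ u i)
    (h2 : ∀ i j, i < j → j < N → m i ∣ u j) (l : ℝ) (k : ℕ) (hk : k ≤ N) :
    ∫ x in (0:ℝ)..1, ∏ j ∈ Finset.Ico (N - k) N,
      (Real.cosh l + Real.sinh l * Real.cos (2 * π * u j * x)) = Real.cosh l ^ k := by
  induction k with
  | zero => simp
  | succ k ih =>
    have ih' := ih (by omega)
    set i := N - (k + 1) with hi
    have hiN : i < N := by omega
    have hi1 : N - k = i + 1 := by omega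
    rw [hi1] at ih'
    set Hf : ℝ → ℝ := fun x => ∏ j ∈ Finset.Ico (i + 1) N,
      (Real.cosh l + Real.sinh l * Real.cos (2 * π * u j * x)) with hHf
    have hc : Continuous Hf := by
      rw [hHf]
      exact continuous_finsetProd _ (fun j _ => by fun_prop)
    have hsh : ∀ x, Hf (x + 1 / m i) = Hf x := by
      intro x
      rw [hHf]
      refine Finset.prod_congr rfl (fun j hj => ?_)
      rw [Finset.mem_Ico] at hj
      obtain ⟨q, hq⟩ := h2 i j (by omega) hj.2
      have hmi : (m i : ℝ) ≠ 0 := by exact_mod_cast hm0 i hiN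
      congr 2
      rw [show 2 * π * u j * (x + 1 / m i) = 2 * π * u j * x + q * (2 * π) by
        rw [hq]; push_cast; field_simp, Real.cos_add_int_mul_two_pi]
    have hsh1 : ∀ x, Hf (x + 1) = Hf x := by
      intro x
      rw [hHf]
      refine Finset.prod_congr rfl (fun j hj => ?_)
      congr 2
      rw [show 2 * π * u j * (x + 1) = 2 * π * u j * x + u j * (2 * π) by ring,
        Real.cos_add_int_mul_two_pi]
    have hz := g1_zero hc (hm0 i hiN) (h1 i hiN) hsh hsh1
    have he : ∀ x : ℝ, ∏ j ∈ Finset.Ico i N,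
        (Real.cosh l + Real.sinh l * Real.cos (2 * π * u j * x))
        = Real.cosh l * Hf x + Real.sinh l * (Real.cos (2 * π * u i * x) * Hf x) := by
      intro x
      rw [Finset.prod_eq_prod_Ico_succ_bot hiN]
      rw [hHf]
      ring
    simp only [he]
    rw [intervalIntegral.integral_add
      (Continuous.intervalIntegrable (by fun_prop) _ _)
      (Continuous.intervalIntegrable (by fun_prop) _ _),
      intervalIntegral.integral_const_mul, intervalIntegral.integral_const_mul, hz, ih']
    ring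

theorem expmom {N : ℕ} {u m : ℕ → ℤ} (hm0 : ∀ i < N, m i ≠ 0) (h1 : ∀ i < N, ¬ m i ∣ u i)
    (h2 : ∀ i j, i < j → j < N → m i ∣ u j) (l : ℝ) :
    ∫ x in (0:ℝ)..1, Real.exp (l * ∑ j ∈ Finset.range N, Real.cos (2 * π * u j * x))
      ≤ Real.exp (l ^ 2 * N / 2) := by
  have hp := g1_prod hm0 h1 h2 l N le_rfl
  rw [Nat.sub_self, ← Finset.range_eq_Ico] at hp
  calc ∫ x in (0:ℝ)..1, Real.exp (l * ∑ j ∈ Finset.range N, Real.cos (2 * π * u j * x))
      ≤ ∫ x in (0:ℝ)..1, ∏ j ∈ Finset.range N,
          (Real.cosh l + Real.sinh l * Real.cos (2 * π * u j * x)) := by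
        refine intervalIntegral.integral_mono_on zero_le_one
          (Continuous.intervalIntegrable ?_ _ _) (Continuous.intervalIntegrable ?_ _ _) ?_
        · refine Real.continuous_exp.comp (continuous_const.mul ?_)
          exact continuous_finsetSum _ (fun j _ => by fun_prop)
        · exact continuous_finsetProd _ (fun j _ => by fun_prop)
        · intro x _
          rw [Finset.mul_sum, Real.exp_sum]
          refine Finset.prod_le_prod (fun j _ => (Real.exp_pos _).le) (fun j _ => ?_)
          exact g1_conv l _ (Real.neg_one_le_cos _) (Real.cos_le_one _)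
    _ = Real.cosh l ^ N := hp
    _ ≤ Real.exp (l ^ 2 / 2) ^ N :=
        pow_le_pow_left₀ (Real.cosh_pos l).le (Real.cosh_le_exp_half_sq l) N
    _ = Real.exp (l ^ 2 * N / 2) := by
        rw [← Real.exp_nat_mul]
        congr 1
        ring

end SFL
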