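import Pool.Agent.SFL.Ker
import Pool.Agent.SFL.G1

/-!
# G2: test inequality.
C(x) = sum_{j<N} cos(2πu_jx), |C| <= N. sum_j cf G (u_j) = ∫ G C <= ∫|G||C|.
|C| <= l + N 1[|C| > l], and 1[|C|>l] <= exp(-λ l)(exp(λC) + exp(-λC)) with λ = l/N. So pointwise
 |G||C| <= l|G| + H N exp(-λl)(exp(λC)+exp(-λC)).
Integrate: expmom with λ and -λ: <= l K + 2 H N exp(-λ l + λ^2N/2) = lK + 2HN exp(-l^2/(2N)).
-/

namespace SFL
open Real

theorem g2_pt {g H c N l μ : ℝ} (hH : |g| ≤ H) (hc : |c| ≤ N) (hl : 0 ≤ l) (hμ : 0 ≤ μ) :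
    g * c ≤ l * |g| + H * N * Real.exp (-(μ * l)) * (Real.exp (μ * c) + Real.exp (-μ * c)) := by
  have hH0 : 0 ≤ H := (abs_nonneg _).trans hH
  have hN0 : 0 ≤ N := (abs_nonneg _).trans hc
  have h1 : g * c ≤ |g| * |c| := by
    rw [← abs_mul]; exact le_abs_self _
  by_cases h : |c| ≤ l
  · have h2 : |g| * |c| ≤ l * |g| := by
      rw [mul_comm l]
      exact mul_le_mul_of_nonneg_left h (abs_nonneg _)
    have h3 : 0 ≤ H * N * Real.exp (-(μ * l)) * (Real.exp (μ * c) + Real.exp (-μ * c)) := by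
      positivity
    linarith
  · push Not at h
    have h2 : |g| * |c| ≤ H * N := mul_le_mul hH hc (abs_nonneg _) hH0
    have h3 : 1 ≤ Real.exp (-(μ * l)) * (Real.exp (μ * c) + Real.exp (-μ * c)) := by
      have h4 : Real.exp (μ * |c|) ≤ Real.exp (μ * c) + Real.exp (-μ * c) := by
        rcases abs_cases c with ⟨e, _⟩ | ⟨e, _⟩
        · rw [e]; linarith [Real.exp_pos (-μ * c)]
        · rw [e, show μ * -c = -μ * c by ring]; linarith [Real.exp_pos (μ * c)]
      have h5 : Real.exp (μ * l) ≤ Real.exp (μ * |c|) :=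
        Real.exp_le_exp.mpr (mul_le_mul_of_nonneg_left h.le hμ)
      calc (1:ℝ) = Real.exp (-(μ * l)) * Real.exp (μ * l) := by
            rw [← Real.exp_add]; simp
        _ ≤ _ := mul_le_mul_of_nonneg_left (h5.trans h4) (Real.exp_pos _).le
    have h4 : H * N ≤ H * N * Real.exp (-(μ * l)) * (Real.exp (μ * c) + Real.exp (-μ * c)) := by
      rw [mul_assoc (H * N)]
      exact le_mul_of_one_le_right (mul_nonneg hH0 hN0) h3
    have h5 : 0 ≤ l * |g| := mul_nonneg hl (abs_nonneg _)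
    linarith

theorem test_ineq {G : ℝ → ℝ} {H K : ℝ} (hG : Good G H K) {N : ℕ} (hN : 1 ≤ N) {u m : ℕ → ℤ}
    (hm0 : ∀ i < N, m i ≠ 0) (h1 : ∀ i < N, ¬ m i ∣ u i)
    (h2 : ∀ i j, i < j → j < N → m i ∣ u j) {l : ℝ} (hl : 0 ≤ l) :
    ∑ j ∈ Finset.range N, cf G (u j) ≤ l * K + 2 * H * N * Real.exp (-(l ^ 2 / (2 * N))) := by
  have hN' : (0:ℝ) < N := by exact_mod_cast hN
  set C : ℝ → ℝ := fun x => ∑ j ∈ Finset.range N, Real.cos (2 * π * u j * x) with hC
  have hCc : Continuous C := by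
    rw [hC]
    exact continuous_finsetSum _ (fun j _ => by fun_prop)
  have hCb : ∀ x, |C x| ≤ N := by
    intro x
    rw [hC]
    calc |∑ j ∈ Finset.range N, Real.cos (2 * π * u j * x)|
        ≤ ∑ j ∈ Finset.range N, |Real.cos (2 * π * u j * x)| := Finset.abs_sum_le_sum_abs _ _
      _ ≤ ∑ _j ∈ Finset.range N, (1 : ℝ) :=
          Finset.sum_le_sum (fun j _ => Real.abs_cos_le_one _)
      _ = N := by simp
  have hH0 : 0 ≤ H := (abs_nonneg _).trans (hG.bdd 0)
  set μ : ℝ := l / N with hμ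
  have hμ0 : 0 ≤ μ := by positivity
  have e1 : ∑ j ∈ Finset.range N, cf G (u j) = ∫ x in (0:ℝ)..1, G x * C x := by
    unfold cf
    rw [← intervalIntegral.integral_finsetSum (fun j _ => hG.intble (by fun_prop) 0 1)]
    congr 1
    funext x
    rw [hC, Finset.mul_sum]
  have iabs : IntervalIntegrable (fun x => |G x|) MeasureTheory.volume 0 1 := by
    have := (hG.intble (continuous_const (y := (1:ℝ))) 0 1).abs
    refine this.congr ?_
    intro x _
    simp
  have iexp : ∀ a : ℝ, IntervalIntegrable (fun x => Real.exp (a * C x)) MeasureTheory.volume 0 1 :=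
    fun a => Continuous.intervalIntegrable (Real.continuous_exp.comp (continuous_const.mul hCc)) _ _
  have m1 : ∫ x in (0:ℝ)..1, Real.exp (μ * C x) ≤ Real.exp (μ ^ 2 * N / 2) := expmom hm0 h1 h2 μ
  have m2 : ∫ x in (0:ℝ)..1, Real.exp (-μ * C x) ≤ Real.exp (μ ^ 2 * N / 2) := by
    have := expmom hm0 h1 h2 (-μ)
    rwa [neg_sq] at this
  rw [e1]
  calc ∫ x in (0:ℝ)..1, G x * C x
      ≤ ∫ x in (0:ℝ)..1, (l * |G x| + H * N * Real.exp (-(μ * l)) *
          (Real.exp (μ * C x) + Real.exp (-μ * C x))) := by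
        refine intervalIntegral.integral_mono_on zero_le_one (hG.intble hCc 0 1) ?_ (fun x _ => ?_)
        · exact (iabs.const_mul _).add (((iexp μ).add (iexp (-μ))).const_mul _)
        · exact g2_pt (hG.bdd x) (hCb x) hl hμ0
    _ = l * (∫ x in (0:ℝ)..1, |G x|) + H * N * Real.exp (-(μ * l)) *
          ((∫ x in (0:ℝ)..1, Real.exp (μ * C x)) + ∫ x in (0:ℝ)..1, Real.exp (-μ * C x)) := by
        rw [intervalIntegral.integral_add (iabs.const_mul _)
          (((iexp μ).add (iexp (-μ))).const_mul _), intervalIntegral.integral_const_mul,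
          intervalIntegral.integral_const_mul, intervalIntegral.integral_add (iexp μ) (iexp (-μ))]
    _ ≤ l * K + H * N * Real.exp (-(μ * l)) * (Real.exp (μ ^ 2 * N / 2) + Real.exp (μ ^ 2 * N / 2)) := by
        refine add_le_add (mul_le_mul_of_nonneg_left hG.l1 hl) ?_
        exact mul_le_mul_of_nonneg_left (add_le_add m1 m2) (by positivity)
    _ = l * K + 2 * H * N * Real.exp (-(l ^ 2 / (2 * N))) := by
        have h3 : Real.exp (-(μ * l)) * Real.exp (μ ^ 2 * N / 2) = Real.exp (-(l ^ 2 / (2 * N))) := by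
          rw [← Real.exp_add]
          congr 1
          rw [hμ]
          field_simp
          ring
        rw [← h3]
        ring

end SFL
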