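import Pool.Agent.SFL.Defs

/-!
# G3: greedy selection.
T A z (-y) = T A z y and mult A (-y) = mult A y. Take y > 0 minimal with T A z y >= 1/100 (y > 0 by symmetry).
R = {r in divisors of y : 1 < r, Rough z r, 1 <= mult A (y/r)} (natural numbers). T A z y = sum_{r | y, r>1 rough} mult A (y/r)/r <= 2 sum_{R}1/r
 (regroup the sum over a in A by r = |y/a|; a = ± y/r), so sum_R 1/r >= 1/200.
For a prime p > z: {r in R : p | r}: r = p r', r' >= 1 rough, p | y and r' | y/p, mult A ((y/p)/r') >= 1. So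
 sum_{r in R, p|r} 1/r <= (1/p)(1 + sum_{r' | y/p, r'>1 rough, mult >= 1} 1/r') <= (1/p)(1 + T A z (y/p)) <= (1/p)(1+1/100) <= 2/z' , p >= z+1;
 use minimality: 0 < y/p < y, so T A z (y/p) < 1/100.
Greedy: for i < N choose r_i in R divisible by none of p_0..p_{i-1}, p_i := a prime factor of r_i (> z as r_i is rough, r_i > 1). Possible because the excluded r's have
 total weight <= i * 2/(z+1)  < 1/200 for i <= N - 1, N <= z/400 (i*2/(z+1) < 2N/z.. <= 1/200).
u_i = y/r_i, m_i = p_i^(v_{p_i}(y)): m_i | u_j for j > i because p_i does not divide r_j; m_i does not divide u_i because p_i | r_i.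
 T A z (u_i) < 1/100 by minimality (0 < u_i < y), mult A (u_i) >= 1.
-/

namespace SFL
open Real

open Classical in
theorem G3_T_neg (A : Finset ℤ) (z : ℕ) (y : ℤ) : T A z (-y) = T A z y := by
  unfold T
  apply Finset.sum_congr rfl
  intro a _
  by_cases h : a ∣ y
  · have e : ((-y) / a).natAbs = (y / a).natAbs := by
      rw [Int.neg_ediv_of_dvd h, Int.natAbs_neg]
    rw [e]
    simp only [dvd_neg]
  · have h' : ¬ a ∣ -y := by rwa [dvd_neg]
    simp only [h, h', false_and, if_false]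

theorem G3_mem {Y r : ℕ} (hY : 0 < Y) (hr : r ∣ Y) (a : ℤ) :
    (a ∣ (Y : ℤ) ∧ ((Y : ℤ) / a).natAbs = r) ↔ (a = ((Y / r : ℕ) : ℤ) ∨ a = -((Y / r : ℕ) : ℤ)) := by
  obtain ⟨b, rfl⟩ := hr
  have hr0 : 0 < r := Nat.pos_of_mul_pos_right hY
  have hb0 : 0 < b := Nat.pos_of_mul_pos_left hY
  rw [Nat.mul_div_cancel_left _ hr0]
  constructor
  · rintro ⟨⟨k, hk⟩, h2⟩
    have ha : a ≠ 0 := by
      rintro rfl
      rw [zero_mul] at hk
      have : (r * b : ℕ) = 0 := by exact_mod_cast hk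
      omega
    rw [hk, Int.mul_ediv_cancel_left _ ha] at h2
    have h3 : (((r * b : ℕ) : ℤ)).natAbs = (a * k).natAbs := by rw [hk]
    rw [Int.natAbs_natCast, Int.natAbs_mul, h2, mul_comm] at h3
    have h4 : b = a.natAbs := Nat.eq_of_mul_eq_mul_right hr0 h3
    have := Int.natAbs_eq a
    rw [← h4] at this
    exact this
  · rintro (rfl | rfl)
    · refine ⟨⟨r, by push_cast; ring⟩, ?_⟩
      rw [Nat.cast_mul, Int.mul_ediv_cancel _ (by exact_mod_cast hb0.ne')]
      simp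
    · refine ⟨⟨-r, by push_cast; ring⟩, ?_⟩
      rw [Int.ediv_neg, Nat.cast_mul, Int.mul_ediv_cancel _ (by exact_mod_cast hb0.ne')]
      simp

theorem G3_card (A : Finset ℤ) {Y r : ℕ} (hY : 0 < Y) (hr : r ∣ Y) :
    (((A.filter (fun a => a ∣ (Y : ℤ) ∧ ((Y : ℤ) / a).natAbs = r)).card : ℕ) : ℤ) =
      mult A ((Y / r : ℕ) : ℤ) := by
  have hb0 : 0 < Y / r := Nat.div_pos (Nat.le_of_dvd hY hr) (Nat.pos_of_dvd_of_pos hr hY)
  have e : A.filter (fun a => a ∣ (Y : ℤ) ∧ ((Y : ℤ) / a).natAbs = r) =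
      ({((Y / r : ℕ) : ℤ), -((Y / r : ℕ) : ℤ)} : Finset ℤ).filter (· ∈ A) := by
    ext a
    simp only [Finset.mem_filter, Finset.mem_insert, Finset.mem_singleton]
    rw [G3_mem hY hr, and_comm]
  rw [e]
  set b : ℤ := ((Y / r : ℕ) : ℤ) with hb
  have hbpos : 0 < b := by
    rw [hb]
    exact_mod_cast hb0
  have hne : b ∉ ({-b} : Finset ℤ) := by
    rw [Finset.mem_singleton]
    omega
  unfold mult
  rw [Finset.filter_insert, Finset.filter_singleton]
  by_cases h1 : b ∈ A <;> by_cases h2 : -b ∈ A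
  · simp only [h1, h2, if_true]
    rw [Finset.card_insert_of_notMem hne]
    simp
  · simp [h1, h2]
  · simp [h1, h2]
  · simp [h1, h2]

open Classical in
theorem G3_T_eq (A : Finset ℤ) (z : ℕ) {Y : ℕ} (hY : 0 < Y) :
    T A z (Y : ℤ) = ∑ r ∈ Y.divisors, if 1 < r ∧ Rough z r then
      ((mult A ((Y / r : ℕ) : ℤ) : ℤ) : ℝ) / r else 0 := by
  have h1 : T A z (Y : ℤ) = ∑ a ∈ A.filter (fun a => a ∣ (Y : ℤ)),
      (if 1 < ((Y : ℤ) / a).natAbs ∧ Rough z ((Y : ℤ) / a).natAbs then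
        1 / ((((Y : ℤ) / a).natAbs : ℕ) : ℝ) else 0) := by
    unfold T
    rw [Finset.sum_filter]
    apply Finset.sum_congr rfl
    intro a _
    by_cases h : a ∣ (Y : ℤ)
    · simp only [h, true_and, if_true]
    · simp only [h, false_and, if_false]
  rw [h1, ← Finset.sum_fiberwise_of_maps_to (s := A.filter (fun a => a ∣ (Y : ℤ)))
    (t := Y.divisors) (g := fun a => ((Y : ℤ) / a).natAbs)]
  · apply Finset.sum_congr rfl
    intro r hr
    rw [Nat.mem_divisors] at hr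
    rw [Finset.filter_filter]
    have h2 : ∀ a ∈ A.filter (fun a => a ∣ (Y : ℤ) ∧ ((Y : ℤ) / a).natAbs = r),
        (if 1 < ((Y : ℤ) / a).natAbs ∧ Rough z ((Y : ℤ) / a).natAbs then
          1 / ((((Y : ℤ) / a).natAbs : ℕ) : ℝ) else 0) =
        (if 1 < r ∧ Rough z r then 1 / (r : ℝ) else 0) := by
      intro a ha
      rw [Finset.mem_filter] at ha
      rw [ha.2.2]
    rw [Finset.sum_congr rfl h2, Finset.sum_const, nsmul_eq_mul]
    have h3 := G3_card A hY hr.1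
    have h4 : ((A.filter (fun a => a ∣ (Y : ℤ) ∧ ((Y : ℤ) / a).natAbs = r)).card : ℝ) =
        ((mult A ((Y / r : ℕ) : ℤ) : ℤ) : ℝ) := by
      rw [← h3]
      push_cast
      rfl
    rw [h4]
    split_ifs
    · ring
    · ring
  · intro a ha
    rw [Finset.mem_filter] at ha
    rw [Nat.mem_divisors]
    refine ⟨?_, hY.ne'⟩
    obtain ⟨k, hk⟩ := ha.2
    have ha0 : a ≠ 0 := by
      rintro rfl
      rw [zero_mul] at hk
      have : Y = 0 := by exact_mod_cast hk
      omega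
    rw [hk, Int.mul_ediv_cancel_left _ ha0]
    have h3 : ((Y : ℤ)).natAbs = (a * k).natAbs := by rw [hk]
    rw [Int.natAbs_natCast, Int.natAbs_mul] at h3
    exact ⟨a.natAbs, by rw [h3, mul_comm]⟩

theorem G3_mult_nonneg (A : Finset ℤ) (y : ℤ) : 0 ≤ mult A y := by
  unfold mult
  split_ifs <;> norm_num

theorem G3_mult_le (A : Finset ℤ) (y : ℤ) : mult A y ≤ 2 := by
  unfold mult
  split_ifs <;> norm_num

open Classical in
/-- the rough divisors `r > 1` of `Y` with `Y / r` in `± A` -/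
noncomputable def G3_R (A : Finset ℤ) (z Y : ℕ) : Finset ℕ :=
  Y.divisors.filter (fun r => 1 < r ∧ Rough z r ∧ 1 ≤ mult A ((Y / r : ℕ) : ℤ))

theorem G3_upper (A : Finset ℤ) (z : ℕ) {Y : ℕ} (hY : 0 < Y) :
    T A z (Y : ℤ) ≤ 2 * ∑ r ∈ G3_R A z Y, 1 / (r : ℝ) := by
  classical
  rw [G3_T_eq A z hY, G3_R, Finset.sum_filter, Finset.mul_sum]
  apply Finset.sum_le_sum
  intro r _
  have h1 := G3_mult_nonneg A ((Y / r : ℕ) : ℤ)
  have h2 := G3_mult_le A ((Y / r : ℕ) : ℤ)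
  have h2' : ((mult A ((Y / r : ℕ) : ℤ) : ℤ) : ℝ) ≤ 2 := by exact_mod_cast h2
  by_cases h : 1 < r ∧ Rough z r
  · rw [if_pos h]
    by_cases h3 : 1 ≤ mult A ((Y / r : ℕ) : ℤ)
    · rw [if_pos ⟨h.1, h.2, h3⟩]
      have h4 : (0 : ℝ) < r := by exact_mod_cast (by omega : 0 < r)
      rw [mul_one_div]
      exact div_le_div_of_nonneg_right h2' h4.le
    · have h4 : mult A ((Y / r : ℕ) : ℤ) = 0 := by omega
      rw [if_neg (fun h5 => h3 h5.2.2), h4]
      simp
  · rw [if_neg h, if_neg (fun h5 => h ⟨h5.1, h5.2.1⟩)]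
    simp

theorem G3_lower (A : Finset ℤ) (z : ℕ) {Y : ℕ} (hY : 0 < Y) :
    ∑ r ∈ G3_R A z Y, 1 / (r : ℝ) ≤ T A z (Y : ℤ) := by
  classical
  rw [G3_T_eq A z hY, G3_R, Finset.sum_filter]
  apply Finset.sum_le_sum
  intro r _
  have h1 := G3_mult_nonneg A ((Y / r : ℕ) : ℤ)
  have h1' : (0 : ℝ) ≤ ((mult A ((Y / r : ℕ) : ℤ) : ℤ) : ℝ) := by exact_mod_cast h1
  by_cases h : 1 < r ∧ Rough z r ∧ 1 ≤ mult A ((Y / r : ℕ) : ℤ)
  · rw [if_pos h, if_pos ⟨h.1, h.2.1⟩]
    have h4 : (0 : ℝ) < r := by exact_mod_cast (by omega : 0 < r)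
    have h5 : (1 : ℝ) ≤ ((mult A ((Y / r : ℕ) : ℤ) : ℤ) : ℝ) := by exact_mod_cast h.2.2
    exact div_le_div_of_nonneg_right h5 h4.le
  · rw [if_neg h]
    split_ifs
    · positivity
    · exact le_rfl

/-- the members of `R` divisible by a prime -/
theorem G3_prime (A : Finset ℤ) (z : ℕ) {Y : ℕ} (hY : 0 < Y)
    (hmin : ∀ Y' : ℕ, 0 < Y' → Y' < Y → T A z (Y' : ℤ) < 1 / 100) {p : ℕ} (hp : p.Prime) :
    ∑ r ∈ (G3_R A z Y).filter (fun r => p ∣ r), 1 / (r : ℝ) ≤ (101 / 100) / p := by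
  classical
  have hp0 : (0 : ℝ) < p := by exact_mod_cast hp.pos
  by_cases hpY : p ∣ Y
  · obtain ⟨Y', rfl⟩ := hpY
    have hY' : 0 < Y' := Nat.pos_of_mul_pos_left hY
    have hlt : Y' < p * Y' := by
      have := hp.two_le
      nlinarith
    have h1 : (G3_R A z (p * Y')).filter (fun r => p ∣ r) ⊆
        (insert 1 (G3_R A z Y')).image (fun r => p * r) := by
      intro r hr
      rw [Finset.mem_filter, G3_R, Finset.mem_filter, Nat.mem_divisors] at hr
      obtain ⟨⟨⟨hr1, _⟩, hr2, hr3, hr4⟩, r', rfl⟩ := hr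
      rw [Finset.mem_image]
      refine ⟨r', ?_, rfl⟩
      rw [Finset.mem_insert]
      by_cases h : r' = 1
      · exact Or.inl h
      · right
        rw [G3_R, Finset.mem_filter, Nat.mem_divisors]
        have h5 : r' ∣ Y' := Nat.dvd_of_mul_dvd_mul_left hp.pos hr1
        have h6 : 0 < r' := Nat.pos_of_dvd_of_pos h5 hY'
        refine ⟨⟨h5, hY'.ne'⟩, by omega, fun q hq hqr => hr3 q hq (hqr.mul_left p), ?_⟩
        rw [Nat.mul_div_mul_left _ _ hp.pos] at hr4
        exact hr4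
    have h2 : ∑ r ∈ (G3_R A z (p * Y')).filter (fun r => p ∣ r), 1 / (r : ℝ) ≤
        ∑ r ∈ (insert 1 (G3_R A z Y')).image (fun r => p * r), 1 / (r : ℝ) :=
      Finset.sum_le_sum_of_subset_of_nonneg h1 (fun _ _ _ => by positivity)
    rw [Finset.sum_image (fun a _ b _ h => Nat.eq_of_mul_eq_mul_left hp.pos h),
      Finset.sum_insert (by simp [G3_R])] at h2
    have h3 : ∑ r ∈ G3_R A z Y', 1 / (((p * r : ℕ)) : ℝ) =
        (1 / p) * ∑ r ∈ G3_R A z Y', 1 / (r : ℝ) := by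
      rw [Finset.mul_sum]
      apply Finset.sum_congr rfl
      intro r _
      push_cast
      rw [one_div_mul_one_div]
    rw [h3] at h2
    have h4 := G3_lower A z hY'
    have h5 := hmin Y' hY' hlt
    have h6 : (1 / (p : ℝ)) * ∑ r ∈ G3_R A z Y', 1 / (r : ℝ) ≤ (1 / p) * (1 / 100) :=
      mul_le_mul_of_nonneg_left (by linarith) (by positivity)
    refine h2.trans ?_
    push_cast
    have e : (101 / 100 : ℝ) / p = 1 / (p * 1) + (1 / p) * (1 / 100) := by
      field_simp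
      norm_num
    rw [e]
    linarith
  · have h1 : (G3_R A z Y).filter (fun r => p ∣ r) = ∅ := by
      rw [Finset.filter_eq_empty_iff]
      intro r hr hpr
      rw [G3_R, Finset.mem_filter, Nat.mem_divisors] at hr
      exact hpY (hpr.trans hr.1.1)
    rw [h1, Finset.sum_empty]
    positivity

theorem greedy {A : Finset ℤ} (h0 : (0:ℤ) ∉ A) {z : ℕ} (hz : 1 ≤ z) {y : ℤ} (hy : y ≠ 0)
    (hT : 1 / 100 ≤ T A z y) {N : ℕ} (hN : 400 * N ≤ z) :
    ∃ u m : ℕ → ℤ, (∀ i < N, m i ≠ 0) ∧ (∀ i < N, ¬ m i ∣ u i) ∧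
      (∀ i j, i < j → j < N → m i ∣ u j) ∧
      ∀ i < N, u i ≠ 0 ∧ 1 ≤ mult A (u i) ∧ T A z (u i) < 1 / 100 := by
  classical
  -- a minimal positive Y
  have hex : ∃ n : ℕ, 0 < n ∧ 1 / 100 ≤ T A z (n : ℤ) := by
    refine ⟨y.natAbs, Int.natAbs_pos.2 hy, ?_⟩
    rcases Int.natAbs_eq y with h | h
    · rw [← h]
      exact hT
    · rw [h, G3_T_neg] at hT
      exact hT
  obtain ⟨hY, hTY⟩ := Nat.find_spec hex
  set Y := Nat.find hex with hYdef
  have hmin : ∀ Y' : ℕ, 0 < Y' → Y' < Y → T A z (Y' : ℤ) < 1 / 100 := by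
    intro Y' h1 h2
    have := Nat.find_min hex h2
    by_contra h3
    push Not at h3
    exact this ⟨h1, h3⟩
  have hsum : 1 / 200 ≤ ∑ r ∈ G3_R A z Y, 1 / (r : ℝ) := by
    have := G3_upper A z hY
    linarith
  have hRprop : ∀ r ∈ G3_R A z Y, r ∣ Y ∧ 1 < r ∧ Rough z r ∧ 1 ≤ mult A ((Y / r : ℕ) : ℤ) := by
    intro r hr
    rw [G3_R, Finset.mem_filter, Nat.mem_divisors] at hr
    exact ⟨hr.1.1, hr.2.1, hr.2.2.1, hr.2.2.2⟩
  -- greedy choice
  have hstep : ∀ (r : ℕ → ℕ) (n : ℕ), n < N → (∀ i < n, r i ∈ G3_R A z Y) →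
      ∃ s ∈ G3_R A z Y, ∀ j < n, ¬ (r j).minFac ∣ s := by
    intro r n hn hr
    by_contra hno
    push Not at hno
    have h1 : ∀ s ∈ G3_R A z Y, 1 / (s : ℝ) ≤
        ∑ j ∈ Finset.range n, if (r j).minFac ∣ s then 1 / (s : ℝ) else 0 := by
      intro s hs
      obtain ⟨j, hj, hjs⟩ := hno s hs
      have h2 : (if (r j).minFac ∣ s then 1 / (s : ℝ) else 0) ≤
          ∑ j ∈ Finset.range n, if (r j).minFac ∣ s then 1 / (s : ℝ) else 0 :=
        Finset.single_le_sum (f := fun j => if (r j).minFac ∣ s then 1 / (s : ℝ) else 0)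
          (fun j _ => by
            split_ifs
            · positivity
            · exact le_rfl) (Finset.mem_range.2 hj)
      rw [if_pos hjs] at h2
      exact h2
    have h2 : ∑ s ∈ G3_R A z Y, 1 / (s : ℝ) ≤
        ∑ j ∈ Finset.range n, ∑ s ∈ (G3_R A z Y).filter (fun s => (r j).minFac ∣ s),
          1 / (s : ℝ) := by
      refine (Finset.sum_le_sum h1).trans (le_of_eq ?_)
      rw [Finset.sum_comm]
      apply Finset.sum_congr rfl
      intro j _
      rw [Finset.sum_filter]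
    have hz0 : (0 : ℝ) < (z : ℝ) := by exact_mod_cast (by omega : 0 < z)
    have h3 : ∀ j ∈ Finset.range n, ∑ s ∈ (G3_R A z Y).filter (fun s => (r j).minFac ∣ s),
        1 / (s : ℝ) ≤ (101 / 100) / z := by
      intro j hj
      obtain ⟨_, h4, h5, _⟩ := hRprop _ (hr j (Finset.mem_range.1 hj))
      have hp : (r j).minFac.Prime := Nat.minFac_prime (by omega)
      have h6 := h5 _ hp (Nat.minFac_dvd _)
      have h7 : (z : ℝ) ≤ (r j).minFac := by exact_mod_cast h6.le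
      refine (G3_prime A z hY hmin hp).trans ?_
      exact div_le_div_of_nonneg_left (by norm_num) hz0 h7
    have h4 := Finset.sum_le_sum h3
    rw [Finset.sum_const, Finset.card_range, nsmul_eq_mul] at h4
    have h5 : (n : ℝ) * ((101 / 100) / z) < 1 / 200 := by
      rw [mul_div_assoc', div_lt_iff₀ hz0]
      have h6 : (400 * (n + 1) : ℝ) ≤ z := by
        have : 400 * (n + 1) ≤ z := by omega
        exact_mod_cast this
      linarith [Nat.cast_nonneg (α := ℝ) n]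
    linarith
  have hseq : ∀ n ≤ N, ∃ r : ℕ → ℕ, ∀ i < n, r i ∈ G3_R A z Y ∧ ∀ j < i, ¬ (r j).minFac ∣ r i := by
    intro n
    induction n with
    | zero =>
      intro _
      exact ⟨fun _ => 0, fun i hi => absurd hi (Nat.not_lt_zero _)⟩
    | succ n ih =>
      intro hn
      obtain ⟨r, hr⟩ := ih (by omega)
      obtain ⟨s, hs1, hs2⟩ := hstep r n (by omega) (fun i hi => (hr i hi).1)
      refine ⟨fun i => if i < n then r i else s, ?_⟩
      intro i hi
      by_cases h : i < n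
      · simp only [h, if_true]
        refine ⟨(hr i h).1, fun j hj => ?_⟩
        have hjn : j < n := hj.trans h
        simp only [hjn, if_true]
        exact (hr i h).2 j hj
      · simp only [h, if_false]
        refine ⟨hs1, fun j hj => ?_⟩
        have hjn : j < n := by omega
        simp only [hjn, if_true]
        exact hs2 j hjn
  obtain ⟨r, hr⟩ := hseq N le_rfl
  refine ⟨fun i => ((Y / r i : ℕ) : ℤ), fun i => ((ordProj[(r i).minFac] Y : ℕ) : ℤ), ?_, ?_, ?_, ?_⟩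
  · intro i _
    show ((ordProj[(r i).minFac] Y : ℕ) : ℤ) ≠ 0
    exact_mod_cast (Nat.ordProj_pos Y (r i).minFac).ne'
  · intro i hi h
    have h' : ((ordProj[(r i).minFac] Y : ℕ) : ℤ) ∣ ((Y / r i : ℕ) : ℤ) := h
    have h1 : ordProj[(r i).minFac] Y ∣ Y / r i := by exact_mod_cast h'
    obtain ⟨h2, h3, _, _⟩ := hRprop _ (hr i hi).1
    have hp : (r i).minFac.Prime := Nat.minFac_prime (by omega)
    have h4 : (r i).minFac ^ (Y.factorization (r i).minFac + 1) ∣ Y := by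
      have h5 := Nat.mul_dvd_mul h1 (Nat.minFac_dvd (r i))
      rw [Nat.div_mul_cancel h2, ← pow_succ] at h5
      exact h5
    exact Nat.pow_succ_factorization_not_dvd hY.ne' hp h4
  · intro i j hij hj
    obtain ⟨h2, h3, _, _⟩ := hRprop _ (hr j hj).1
    obtain ⟨_, h3', _, _⟩ := hRprop _ (hr i (by omega)).1
    have hp : (r i).minFac.Prime := Nat.minFac_prime (by omega)
    have h4 : ¬ (r i).minFac ∣ r j := (hr j hj).2 i hij
    have h5 : Nat.Coprime (ordProj[(r i).minFac] Y) (r j) :=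
      Nat.Coprime.pow_left _ ((Nat.Prime.coprime_iff_not_dvd hp).2 h4)
    have h6 : ordProj[(r i).minFac] Y ∣ (Y / r j) * r j := by
      rw [Nat.div_mul_cancel h2]
      exact Nat.ordProj_dvd Y _
    show ((ordProj[(r i).minFac] Y : ℕ) : ℤ) ∣ ((Y / r j : ℕ) : ℤ)
    exact_mod_cast h5.dvd_of_dvd_mul_right h6
  · intro i hi
    obtain ⟨h2, h3, _, h5⟩ := hRprop _ (hr i hi).1
    have h6 : 0 < Y / r i := Nat.div_pos (Nat.le_of_dvd hY h2) (by omega)
    refine ⟨?_, h5, ?_⟩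
    · show ((Y / r i : ℕ) : ℤ) ≠ 0
      exact_mod_cast h6.ne'
    exact hmin _ h6 (Nat.div_lt_self hY h3)

end SFL
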