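import Pool.Agent.SFL.Defs

/-!
# Mert: Pi1 z <= C (log z)^4.
Pi1 z = prod_{p <= z}(1+1/p) (primorial squarefree; or: Pi1 z <= prod_{p<=z}(1+1/p)) <= exp(sum_{p<=z} 1/p).
Dyadic Chebyshev: (2^j)^{#primes in (2^j,2^{j+1}]} <= primorial(2^{j+1}) <= 4^(2^{j+1}) (primorial_le_four_pow), so # <= 4*2^j/j (j >= 1) and
sum of 1/p over (2^j,2^{j+1}] <= 4/j. With 2^m >= z: sum_{p<=z}1/p <= 1/2 + sum_{j=1}^{m-1} 4/j <= 1/2+4(1+log m); m <= log z/log 2 + 1 <= 3 log z.
So Pi1 z <= e^{4.5} (3 log z)^4.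
-/

namespace SFL
open Real

theorem Mert_div (S : Finset ℕ) (hS : ∀ p ∈ S, p.Prime) :
    ∑ k ∈ (∏ p ∈ S, p).divisors, (1:ℝ) / k ≤ ∏ p ∈ S, (1 + 1 / (p:ℝ)) := by
  classical
  induction S using Finset.induction_on with
  | empty => simp
  | insert p S hp ih =>
    have ih' := ih (fun q hq => hS q (Finset.mem_insert_of_mem hq))
    have hpp := hS p (Finset.mem_insert_self _ _)
    have hn : (∏ q ∈ S, q) ≠ 0 := Finset.prod_ne_zero_iff.2
      fun q hq => (hS q (Finset.mem_insert_of_mem hq)).ne_zero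
    rw [Finset.prod_insert hp, Finset.prod_insert hp]
    set n := ∏ q ∈ S, q with hn'
    have hsub : (p * n).divisors ⊆ n.divisors ∪ n.divisors.image (fun k => p * k) := by
      intro k hk
      rw [Nat.mem_divisors] at hk
      rw [Finset.mem_union, Finset.mem_image]
      by_cases hpk : p ∣ k
      · right
        obtain ⟨k', rfl⟩ := hpk
        exact ⟨k', Nat.mem_divisors.2 ⟨Nat.dvd_of_mul_dvd_mul_left hpp.pos hk.1, hn⟩, rfl⟩
      · left
        have hco : Nat.Coprime k p := ((Nat.Prime.coprime_iff_not_dvd hpp).2 hpk).symm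
        exact Nat.mem_divisors.2 ⟨hco.dvd_of_dvd_mul_left hk.1, hn⟩
    have himg : ∑ k ∈ n.divisors.image (fun k => p * k), (1:ℝ) / k
        = 1 / p * ∑ k ∈ n.divisors, (1:ℝ) / k := by
      rw [Finset.sum_image (fun a _ b _ h => Nat.eq_of_mul_eq_mul_left hpp.pos h), Finset.mul_sum]
      apply Finset.sum_congr rfl
      intro k _
      push_cast
      rw [one_div_mul_one_div]
    calc ∑ k ∈ (p * n).divisors, (1:ℝ) / k
        ≤ ∑ k ∈ n.divisors ∪ n.divisors.image (fun k => p * k), (1:ℝ) / k :=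
          Finset.sum_le_sum_of_subset_of_nonneg hsub (fun _ _ _ => by positivity)
      _ ≤ ∑ k ∈ n.divisors, (1:ℝ) / k + ∑ k ∈ n.divisors.image (fun k => p * k), (1:ℝ) / k := by
          rw [← Finset.sum_union_inter]
          have : 0 ≤ ∑ k ∈ n.divisors ∩ n.divisors.image (fun k => p * k), (1:ℝ) / k :=
            Finset.sum_nonneg (fun _ _ => by positivity)
          linarith
      _ = (1 + 1 / (p:ℝ)) * ∑ k ∈ n.divisors, (1:ℝ) / k := by rw [himg]; ring
      _ ≤ _ := mul_le_mul_of_nonneg_left ih' (by positivity)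

/-- number of primes in a dyadic interval -/
theorem Mert_block (m : ℕ) (hm : 1 ≤ m) :
    ∑ p ∈ (Finset.Ioc (2 ^ m) (2 ^ (m + 1))).filter Nat.Prime, (1:ℝ) / p ≤ 4 / m := by
  set Q := (Finset.Ioc (2 ^ m) (2 ^ (m + 1))).filter Nat.Prime with hQ
  have h1 : ((2 ^ m) ^ Q.card : ℕ) ≤ 4 ^ (2 ^ (m + 1)) := by
    calc ((2 ^ m) ^ Q.card : ℕ) = ∏ p ∈ Q, 2 ^ m := by rw [Finset.prod_const]
      _ ≤ ∏ p ∈ Q, p := by
          apply Finset.prod_le_prod'
          intro p hp
          rw [hQ, Finset.mem_filter, Finset.mem_Ioc] at hp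
          exact hp.1.1.le
      _ ≤ primorial (2 ^ (m + 1)) := by
          unfold primorial
          apply Finset.prod_le_prod_of_subset_of_one_le'
          · intro p hp
            rw [hQ, Finset.mem_filter, Finset.mem_Ioc] at hp
            rw [Finset.mem_filter, Finset.mem_range]
            exact ⟨by omega, hp.2⟩
          · intro p hp _
            rw [Finset.mem_filter] at hp
            exact hp.2.one_lt.le
      _ ≤ 4 ^ (2 ^ (m + 1)) := primorial_le_four_pow _
  have h2 : m * Q.card ≤ 4 * 2 ^ m := by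
    have e : (4 : ℕ) ^ (2 ^ (m + 1)) = 2 ^ (4 * 2 ^ m) := by
      rw [show (4 : ℕ) = 2 ^ 2 by norm_num, ← pow_mul]
      congr 1
      ring
    rw [← pow_mul, e] at h1
    exact (Nat.pow_le_pow_iff_right (by norm_num)).1 h1
  have h2' : (m : ℝ) * Q.card ≤ 4 * 2 ^ m := by exact_mod_cast h2
  have hm' : (0 : ℝ) < m := by exact_mod_cast hm
  calc ∑ p ∈ Q, (1:ℝ) / p ≤ ∑ p ∈ Q, (1:ℝ) / 2 ^ m := by
        apply Finset.sum_le_sum
        intro p hp
        rw [hQ, Finset.mem_filter, Finset.mem_Ioc] at hp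
        apply one_div_le_one_div_of_le (by positivity)
        exact_mod_cast hp.1.1.le
    _ = Q.card / 2 ^ m := by rw [Finset.sum_const, nsmul_eq_mul]; ring
    _ ≤ 4 / m := by
        rw [div_le_div_iff₀ (by positivity) hm']
        linarith

theorem Mert_sum (n : ℕ) :
    ∑ p ∈ (Finset.range (2 ^ (n + 1) + 1)).filter Nat.Prime, (1:ℝ) / p
      ≤ 1 / 2 + 4 * (harmonic n : ℝ) := by
  induction n with
  | zero =>
    have : (Finset.range (2 ^ (0 + 1) + 1)).filter Nat.Prime = {2} := by decide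
    rw [this]
    simp
  | succ n ih =>
    have hsplit : (Finset.range (2 ^ (n + 1 + 1) + 1)).filter Nat.Prime =
        (Finset.range (2 ^ (n + 1) + 1)).filter Nat.Prime ∪
          (Finset.Ioc (2 ^ (n + 1)) (2 ^ (n + 1 + 1))).filter Nat.Prime := by
      rw [← Finset.filter_union]
      congr 1
      ext x
      have : 2 ^ (n + 1) ≤ 2 ^ (n + 1 + 1) := Nat.pow_le_pow_right (by norm_num) (by omega)
      simp only [Finset.mem_range, Finset.mem_union, Finset.mem_Ioc]
      omega
    have hdis : Disjoint ((Finset.range (2 ^ (n + 1) + 1)).filter Nat.Prime)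
        ((Finset.Ioc (2 ^ (n + 1)) (2 ^ (n + 1 + 1))).filter Nat.Prime) := by
      rw [Finset.disjoint_left]
      intro x hx hx'
      rw [Finset.mem_filter, Finset.mem_range] at hx
      rw [Finset.mem_filter, Finset.mem_Ioc] at hx'
      omega
    rw [hsplit, Finset.sum_union hdis]
    have h1 := Mert_block (n + 1) (by omega)
    have h2 : (harmonic (n + 1) : ℝ) = harmonic n + 1 / (n + 1) := by
      rw [harmonic_succ]
      push_cast
      rw [one_div]
    rw [h2]
    push_cast at h1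
    have e : (4 : ℝ) / (n + 1) = 4 * (1 / (n + 1)) := by ring
    rw [e] at h1
    linarith

theorem pi1_le : ∃ C : ℝ, 0 < C ∧ ∀ z : ℕ, 2 ≤ z → Pi1 z ≤ C * (Real.log z) ^ 4 := by
  refine ⟨Real.exp (9 / 2) * 81, by positivity, ?_⟩
  intro z hz
  have hc1 : 1 ≤ Nat.clog 2 z := Nat.clog_pos (by norm_num) hz
  obtain ⟨n, hn⟩ : ∃ n, Nat.clog 2 z = n + 1 := ⟨Nat.clog 2 z - 1, by omega⟩
  have hz1 : z ≤ 2 ^ (n + 1) := by
    rw [← hn]
    exact Nat.le_pow_clog (by norm_num) z
  have hz2 : 2 ^ n < z := by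
    have := Nat.pow_pred_clog_lt_self (b := 2) (by norm_num) (x := z) (by omega)
    rw [hn] at this
    simpa using this
  have hlog : ((n : ℝ) + 1) ≤ 3 * Real.log z := by
    have h1 : (n : ℝ) * Real.log 2 ≤ Real.log z := by
      rw [← Real.log_pow]
      apply Real.log_le_log (by positivity)
      exact_mod_cast hz2.le
    have h2 : Real.log 2 ≤ Real.log z := by
      apply Real.log_le_log (by norm_num)
      exact_mod_cast hz
    have h3 := Real.log_two_gt_d9
    nlinarith
  have h1 : Pi1 z ≤ ∏ p ∈ (Finset.range (z + 1)).filter Nat.Prime, (1 + 1 / (p:ℝ)) :=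
    Mert_div _ (fun p hp => (Finset.mem_filter.1 hp).2)
  have h2 : ∏ p ∈ (Finset.range (z + 1)).filter Nat.Prime, (1 + 1 / (p:ℝ)) ≤
      Real.exp (∑ p ∈ (Finset.range (z + 1)).filter Nat.Prime, (1:ℝ) / p) := by
    rw [Real.exp_sum]
    apply Finset.prod_le_prod
    · intro p _; positivity
    · intro p _
      have := Real.add_one_le_exp ((1:ℝ) / p)
      linarith
  have h3 : ∑ p ∈ (Finset.range (z + 1)).filter Nat.Prime, (1:ℝ) / p ≤
      1 / 2 + 4 * (harmonic n : ℝ) := by
    refine le_trans ?_ (Mert_sum n)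
    apply Finset.sum_le_sum_of_subset_of_nonneg
    · apply Finset.filter_subset_filter
      intro x hx
      rw [Finset.mem_range] at hx ⊢
      omega
    · intro _ _ _; positivity
  have h4 : (harmonic n : ℝ) ≤ 1 + Real.log ((n : ℝ) + 1) := by
    refine (harmonic_le_one_add_log n).trans ?_
    have : Real.log (n : ℝ) ≤ Real.log ((n : ℝ) + 1) := by
      rcases Nat.eq_zero_or_pos n with h | h
      · rw [h]; simp
      · apply Real.log_le_log (by exact_mod_cast h)
        linarith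
    linarith
  have h5 : Pi1 z ≤ Real.exp (9 / 2 + 4 * Real.log ((n : ℝ) + 1)) := by
    refine (h1.trans h2).trans (Real.exp_le_exp.2 ?_)
    linarith
  have h6 : Real.exp (9 / 2 + 4 * Real.log ((n : ℝ) + 1)) = Real.exp (9 / 2) * ((n : ℝ) + 1) ^ 4 := by
    rw [Real.exp_add]
    congr 1
    rw [show (4 : ℝ) * Real.log ((n : ℝ) + 1) = ((4 : ℕ) : ℝ) * Real.log ((n : ℝ) + 1) by norm_num,
      Real.exp_nat_mul, Real.exp_log (by positivity)]
  rw [h6] at h5
  refine h5.trans ?_
  rw [mul_assoc]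
  apply mul_le_mul_of_nonneg_left _ (Real.exp_pos _).le
  calc ((n : ℝ) + 1) ^ 4 ≤ (3 * Real.log z) ^ 4 := by
        apply pow_le_pow_left₀ (by positivity) hlog
    _ = 81 * Real.log z ^ 4 := by ring

theorem one_le_pi1 (z : ℕ) : 1 ≤ Pi1 z := by
  unfold Pi1
  have h : 1 ∈ (primorial z).divisors := Nat.mem_divisors.2 ⟨one_dvd _, (primorial_pos z).ne'⟩
  have := Finset.single_le_sum (f := fun k : ℕ => (1:ℝ) / k) (fun _ _ => by positivity) h
  simpa using this

end SFL
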