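import Pool.Agent.SFL.C2
import Pool.Agent.SFL.C3
import Pool.Agent.SFL.Mert
import Pool.Agent.SFL.G2
import Pool.Agent.SFL.G3

/-!
# G4: growth lemma.
Let K = 8 L Pi1 z, H = 4 n Pi1 z (Good, C3), n = card A >= 1, L >= 1; H >= 4, K >= 8.
Suppose T A z y >= 1/100 for some y != 0. N := z/400 (floor) >= 1. greedy gives u, m. cf (u_j) >= mult - T >= 99/100 >= 1/2 (coef_near).
test_ineq: N/2 <= l K + 2 H N exp(-l^2/(2N)), l = sqrt(2 N log(16 H)): the last term is N/8. So 3N/8 <= K sqrt(2N log(16H)), N <= 15 K^2 log(16H).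
But N > z/400 - 1 >= 15 K^2 log (16H). Contradiction.  (16 H = 64 n Pi1.)
-/

namespace SFL
open Real

theorem growth {A : Finset ℤ} (h0 : (0:ℤ) ∉ A) (hA : A.Nonempty) {z : ℕ} {L : ℝ} (hL : 1 ≤ L)
    (hF : ∀ x, F A x ≤ L)
    (hz : 400 * (15 * (8 * L * Pi1 z) ^ 2 * Real.log (64 * A.card * Pi1 z) + 1) ≤ z)
    {y : ℤ} (hy : y ≠ 0) : T A z y < 1 / 100 := by
  by_contra hT
  push Not at hT
  have hG := good_GG A h0 z (by linarith) hF
  have hP := one_le_pi1 z
  have hn : (1 : ℝ) ≤ A.card := by exact_mod_cast Finset.card_pos.2 hA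
  set K : ℝ := 8 * L * Pi1 z with hK
  set H : ℝ := 4 * A.card * Pi1 z with hH
  have hK8 : 8 ≤ K := by rw [hK]; nlinarith
  have hH4 : 4 ≤ H := by rw [hH]; nlinarith
  have e16 : 64 * A.card * Pi1 z = 16 * H := by rw [hH]; ring
  rw [e16] at hz
  set Λ : ℝ := Real.log (16 * H) with hΛ
  have hΛ0 : 0 < Λ := Real.log_pos (by linarith)
  set N : ℕ := z / 400 with hN
  have hN1 : 400 * N ≤ z := Nat.mul_div_le z 400
  have hN2 : (z : ℝ) < 400 * (N + 1) := by
    have : z < 400 * (N + 1) := by omega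
    exact_mod_cast this
  have hNX : 15 * K ^ 2 * Λ < N := by linarith
  have hN0 : (0 : ℝ) < N := lt_trans (by positivity) hNX
  have hN3 : 1 ≤ N := by
    have : 0 < N := by exact_mod_cast hN0
    omega
  obtain ⟨u, m, h1, h2, h3, h4⟩ := greedy h0 (z := z) (by omega) hy hT hN1
  have htest := test_ineq hG hN3 h1 h2 h3 (Real.sqrt_nonneg (2 * N * Λ))
  have hlow : (N : ℝ) / 2 ≤ ∑ j ∈ Finset.range N, cf (GG A z) (u j) := by
    have : ∑ j ∈ Finset.range N, (1 / 2 : ℝ) ≤ ∑ j ∈ Finset.range N, cf (GG A z) (u j) := by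
      apply Finset.sum_le_sum
      intro j hj
      obtain ⟨k1, k2, k3⟩ := h4 j (Finset.mem_range.1 hj)
      have k4 := abs_le.1 (coef_near A h0 z k1)
      have k5 : (1 : ℝ) ≤ mult A (u j) := by exact_mod_cast k2
      linarith
    rw [Finset.sum_const, Finset.card_range, nsmul_eq_mul] at this
    linarith
  have hexp : Real.exp (-(√(2 * N * Λ) ^ 2 / (2 * N))) = 1 / (16 * H) := by
    rw [Real.sq_sqrt (by positivity)]
    have : 2 * (N : ℝ) * Λ / (2 * N) = Λ := by field_simp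
    rw [this, Real.exp_neg, hΛ, Real.exp_log (by linarith), one_div]
  rw [hexp] at htest
  have h5 : 2 * H * N * (1 / (16 * H)) = N / 8 := by
    have : H ≠ 0 := by linarith
    field_simp
    norm_num
  rw [h5] at htest
  have h6 : 3 / 8 * (N : ℝ) ≤ K * √(2 * N * Λ) := by linarith
  have h7 : (3 / 8 * (N : ℝ)) ^ 2 ≤ K ^ 2 * (2 * N * Λ) := by
    calc (3 / 8 * (N : ℝ)) ^ 2 ≤ (K * √(2 * N * Λ)) ^ 2 := pow_le_pow_left₀ (by positivity) h6 2
      _ = K ^ 2 * (2 * N * Λ) := by rw [mul_pow, Real.sq_sqrt (by positivity)]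
  have h8 : 9 / 64 * (N : ℝ) ≤ 2 * K ^ 2 * Λ := by
    have : (N : ℝ) * (9 / 64 * N) ≤ N * (2 * K ^ 2 * Λ) := by nlinarith
    exact le_of_mul_le_mul_left this hN0
  have h9 : 0 < K ^ 2 * Λ := by positivity
  nlinarith

end SFL
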