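import Pool.Agent.SFL.Bas

/-!
# Ker: averages of coefficients over a symmetric set.
cos(2πyx + 2πtvx) = cos(2πyx)cos(2πtvx) - sin(2πyx)sin(2πtvx); summing over the symmetric set B the sine part cancels (t <-> -t:
Finset.sum_involution or sum = sum over -t). So sum_{t in B} cf G (y+tv) = ∫ G(x) cos(2πyx) sum_t cos(2πt(vx)) dx.
Everything is interval integrable: measurable and bounded (Good).
-/

namespace SFL
open Real

/-- a measurable bounded function times a continuous function is interval integrable -/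
theorem Good.intble {G : ℝ → ℝ} {H K : ℝ} (hG : Good G H K) {φ : ℝ → ℝ} (hφ : Continuous φ) (a b : ℝ) :
    IntervalIntegrable (fun x => G x * φ x) MeasureTheory.volume a b := by
  have h1 : IntervalIntegrable (fun x => H * φ x) MeasureTheory.volume a b :=
    (continuous_const.mul hφ).intervalIntegrable a b
  refine h1.mono_fun (hG.meas.mul hφ.measurable).aestronglyMeasurable ?_
  refine Filter.Eventually.of_forall (fun x => ?_)
  show ‖G x * φ x‖ ≤ ‖H * φ x‖
  rw [norm_mul, norm_mul]
  refine mul_le_mul_of_nonneg_right ?_ (norm_nonneg _)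
  rw [Real.norm_eq_abs, Real.norm_eq_abs]
  exact (hG.bdd x).trans (le_abs_self _)

theorem ker_cont (c : ℝ) : Continuous (fun x : ℝ => Real.cos (c * x)) := by
  fun_prop

theorem ker_sin {B : Finset ℤ} (hsym : ∀ t ∈ B, -t ∈ B) (w : ℝ) :
    ∑ t ∈ B, Real.sin (2 * π * t * w) = 0 := by
  have h : ∑ t ∈ B, Real.sin (2 * π * t * w) = ∑ t ∈ B, -Real.sin (2 * π * t * w) := by
    refine Finset.sum_nbij' (fun t => -t) (fun t => -t) hsym hsym (by simp) (by simp) ?_
    intro t _
    rw [← Real.sin_neg]
    congr 1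
    push_cast
    ring
  rw [Finset.sum_neg_distrib] at h
  linarith

theorem Dv_cf {G : ℝ → ℝ} {H K : ℝ} (hG : Good G H K) (v : ℤ) {B : Finset ℤ}
    (hsym : ∀ t ∈ B, -t ∈ B) (y : ℤ) :
    Dv (cf G) v B y = ∫ x in (0:ℝ)..1, G x * (Real.cos (2 * π * y * x) * mB B (v * x)) := by
  unfold Dv cf
  rw [← intervalIntegral.integral_finsetSum (fun t _ => hG.intble (ker_cont _) 0 1),
    ← intervalIntegral.integral_div]
  congr 1
  funext x
  unfold mB
  rw [← Finset.mul_sum, mul_div_assoc]
  congr 1
  rw [← mul_div_assoc]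
  congr 1
  have h : ∀ t ∈ B, Real.cos (2 * π * ((y + t * v : ℤ) : ℝ) * x)
      = Real.cos (2 * π * y * x) * Real.cos (2 * π * t * (v * x))
        - Real.sin (2 * π * y * x) * Real.sin (2 * π * t * (v * x)) := by
    intro t _
    rw [← Real.cos_add]
    congr 1
    push_cast
    ring
  rw [Finset.sum_congr rfl h, Finset.sum_sub_distrib, ← Finset.mul_sum, ← Finset.mul_sum,
    ker_sin hsym]
  ring

theorem abs_cf_le {G : ℝ → ℝ} {H K : ℝ} (hG : Good G H K) (y : ℤ) : |cf G y| ≤ K := by
  have h1 := hG.intble (ker_cont (2 * π * y)) 0 1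
  have h2 : IntervalIntegrable (fun x => |G x|) MeasureTheory.volume 0 1 := by
    have := (hG.intble (continuous_const (y := (1:ℝ))) 0 1).abs
    refine this.congr ?_
    intro x _
    simp
  unfold cf
  calc |∫ x in (0:ℝ)..1, G x * Real.cos (2 * π * y * x)|
      ≤ ∫ x in (0:ℝ)..1, |G x * Real.cos (2 * π * y * x)| :=
        intervalIntegral.abs_integral_le_integral_abs zero_le_one
    _ ≤ ∫ x in (0:ℝ)..1, |G x| := by
        refine intervalIntegral.integral_mono_on zero_le_one h1.abs h2 (fun x _ => ?_)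
        rw [abs_mul]
        exact mul_le_of_le_one_right (abs_nonneg _) (Real.abs_cos_le_one _)
    _ ≤ K := hG.l1

end SFL
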