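import Pool.Agent.SFL.G4
import Pool.Agent.SFL.En2

/-!
# Main: the lower bound for sets of non-zero integers.
A, 0 not in A, n = |A| large, F A x <= L for all x. Claim L >= (log n)^(1/1700)... we prove: if 1 <= L and F A <= L then log n <= C (L (log log n)^c..)^1600...
Precisely: suppose L = (log n)^(1/1800) (>= 1). z := floor((log n)^2). Pi1 z <= C(2 loglog n)^4, K = 8 L Pi1 z <= (log n)^(1/1700) for n large.
 growth hypothesis: 400(15 K^2 log(64 n Pi1)+1) <= z for n large. So T < 1/100 for all y != 0 and Near (GG A z) (mult A) Y0 with Y0 = sum of |a| (coef_near, coef_zero; mult A 0 = 0 as 0 not in A).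
 S = A: mult A >= 1 on A. H = 4 n Pi1 z <= n K as K = 8 L Pi1. littlewood: log n <= 10^800 K^1600 <= 10^800 (log n)^(1600/1700) < log n for n large. Contradiction.
So for n large sup F A > (log n)^(1/1800).
-/

namespace SFL
open Real

private theorem Main_asym (C D : ℝ) (hC : 0 < C) : ∀ᶠ x : ℝ in Filter.atTop,
    5 ≤ x ∧ 8 * x ^ (1 / 1800 : ℝ) * (C * (2 * Real.log x) ^ 4) ≤ x ^ (1 / 1700 : ℝ) ∧
      18401 ≤ x ^ (1 / 2 : ℝ) ∧ D * x ^ (16 / 17 : ℝ) < x := by
  have hε : (0 : ℝ) < (1 / 1700 - 1 / 1800) / 4 := by norm_num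
  have h1 := isLittleO_log_rpow_atTop hε
  have hc : (0 : ℝ) < min 1 (1 / (128 * C)) := by positivity
  have h2 := h1.def hc
  have h3 := (tendsto_rpow_atTop (show (0 : ℝ) < 1 / 2 by norm_num)).eventually_ge_atTop 18401
  have h4 := (tendsto_rpow_atTop (show (0 : ℝ) < 1 / 17 by norm_num)).eventually_gt_atTop D
  filter_upwards [Filter.eventually_ge_atTop (5 : ℝ), h2, h3, h4] with x hx h2 h3 h4
  have hx0 : 0 < x := by linarith
  refine ⟨hx, ?_, h3, ?_⟩
  · have hlog : 0 ≤ Real.log x := Real.log_nonneg (by linarith)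
    rw [Real.norm_of_nonneg hlog, Real.norm_of_nonneg (Real.rpow_nonneg hx0.le _)] at h2
    have h5 : Real.log x ^ 4 ≤ (min 1 (1 / (128 * C)) * x ^ (((1 / 1700 - 1 / 1800) / 4 : ℝ))) ^ 4 :=
      pow_le_pow_left₀ hlog h2 4
    have h6 : (x ^ (((1 / 1700 - 1 / 1800) / 4 : ℝ))) ^ 4 = x ^ (1 / 1700 - 1 / 1800 : ℝ) := by
      rw [← Real.rpow_natCast, ← Real.rpow_mul hx0.le]; norm_num
    have h7 : (min 1 (1 / (128 * C))) ^ 4 ≤ 1 / (128 * C) := by
      have e1 : min 1 (1 / (128 * C)) ≤ 1 := min_le_left _ _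
      have e2 : (min 1 (1 / (128 * C))) ^ 4 ≤ (min 1 (1 / (128 * C))) ^ 1 :=
        pow_le_pow_of_le_one hc.le e1 (by norm_num)
      rw [pow_one] at e2
      exact e2.trans (min_le_right _ _)
    rw [mul_pow, h6] at h5
    have h8 : 0 < x ^ (1 / 1700 - 1 / 1800 : ℝ) := Real.rpow_pos_of_pos hx0 _
    have h9 : Real.log x ^ 4 ≤ 1 / (128 * C) * x ^ (1 / 1700 - 1 / 1800 : ℝ) :=
      h5.trans (mul_le_mul_of_nonneg_right h7 h8.le)
    have h10 : 0 < x ^ (1 / 1800 : ℝ) := Real.rpow_pos_of_pos hx0 _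
    calc 8 * x ^ (1 / 1800 : ℝ) * (C * (2 * Real.log x) ^ 4)
        = (128 * C * x ^ (1 / 1800 : ℝ)) * Real.log x ^ 4 := by ring
      _ ≤ (128 * C * x ^ (1 / 1800 : ℝ)) * (1 / (128 * C) * x ^ (1 / 1700 - 1 / 1800 : ℝ)) :=
          mul_le_mul_of_nonneg_left h9 (by positivity)
      _ = x ^ (1 / 1800 : ℝ) * x ^ (1 / 1700 - 1 / 1800 : ℝ) := by
          have : C ≠ 0 := hC.ne'
          field_simp
      _ = x ^ (1 / 1700 : ℝ) := by
          rw [← Real.rpow_add hx0]; norm_num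
  · have h11 : x = x ^ (1 / 17 : ℝ) * x ^ (16 / 17 : ℝ) := by
      rw [← Real.rpow_add hx0]; norm_num
    have h12 : 0 < x ^ (16 / 17 : ℝ) := Real.rpow_pos_of_pos hx0 _
    calc D * x ^ (16 / 17 : ℝ) < x ^ (1 / 17 : ℝ) * x ^ (16 / 17 : ℝ) :=
          mul_lt_mul_of_pos_right h4 h12
      _ = x := h11.symm

private theorem Main_near {A : Finset ℤ} (h0 : (0:ℤ) ∉ A) {z : ℕ}
    (hT : ∀ y : ℤ, y ≠ 0 → T A z y < 1 / 100) : Near (GG A z) (mult A) (∑ a ∈ A, |a|) := by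
  refine ⟨?_, ?_, ?_, ?_⟩
  · intro y
    by_cases hy : y = 0
    · subst hy
      rw [coef_zero A h0 z]
      have : mult A 0 = 0 := by simp [mult, h0]
      rw [this]; norm_num
    · exact (coef_near A h0 z hy).trans (hT y hy).le
  · intro y
    unfold mult
    split_ifs <;> norm_num
  · intro y
    unfold mult
    split_ifs <;> norm_num
  · intro y hy
    have hmem : ∀ a ∈ A, |a| ≤ ∑ a ∈ A, |a| := fun a ha =>
      Finset.single_le_sum (f := fun a => |a|) (fun i _ => abs_nonneg i) ha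
    have h1 : y ∉ A := fun h => absurd (hmem y h) (not_le.mpr hy)
    have h2 : -y ∉ A := fun h => by
      have := hmem (-y) h
      rw [abs_neg] at this
      exact absurd this (not_le.mpr hy)
    simp [mult, h1, h2]

theorem main_F : ∃ n0 : ℕ, ∀ A : Finset ℤ, (0:ℤ) ∉ A → n0 ≤ A.card →
    ∃ x : ℝ, (Real.log A.card) ^ (1 / 1800 : ℝ) < F A x := by
  obtain ⟨C, hC, hPi⟩ := pi1_le
  obtain ⟨D, hD⟩ : ∃ D : ℝ, D = 10 ^ 800 := ⟨_, rfl⟩
  have hDpos : 0 < D := by rw [hD]; positivity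
  have hasym := Main_asym C D hC
  have hlogn : Filter.Tendsto (fun n : ℕ => Real.log n) Filter.atTop Filter.atTop :=
    Real.tendsto_log_atTop.comp tendsto_natCast_atTop_atTop
  have hev := hlogn.eventually hasym
  rw [Filter.eventually_atTop] at hev
  obtain ⟨n0, hn0⟩ := hev
  refine ⟨n0, fun A h0 hA => ?_⟩
  obtain ⟨h5, h4a, h12, hDx⟩ := hn0 A.card hA
  obtain ⟨x, hx⟩ : ∃ x : ℝ, x = Real.log A.card := ⟨_, rfl⟩
  rw [← hx] at h5 h4a h12 hDx ⊢
  by_contra hcon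
  push Not at hcon
  have hx0 : 0 < x := by linarith
  have hcardne : A.card ≠ 0 := by
    intro h
    rw [h] at hx
    simp at hx
    linarith
  have hAne : A.Nonempty := Finset.card_ne_zero.mp hcardne
  have hcard1 : (1 : ℝ) ≤ A.card := by exact_mod_cast Nat.one_le_iff_ne_zero.mpr hcardne
  obtain ⟨L, hL⟩ : ∃ L : ℝ, L = x ^ (1 / 1800 : ℝ) := ⟨_, rfl⟩
  rw [← hL] at hcon h4a
  have hL1 : 1 ≤ L := by
    rw [hL]; exact Real.one_le_rpow (by linarith) (by norm_num)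
  obtain ⟨z, hz⟩ : ∃ z : ℕ, z = ⌊x ^ 2⌋₊ := ⟨_, rfl⟩
  have hzle : (z : ℝ) ≤ x ^ 2 := by rw [hz]; exact Nat.floor_le (by positivity)
  have hzge : x ^ 2 - 1 < (z : ℝ) := by
    rw [hz]; have := Nat.lt_floor_add_one (x ^ 2); linarith
  have hz2 : 2 ≤ z := by
    have : (2 : ℝ) < z := by nlinarith
    exact_mod_cast this.le
  have hPi1 := hPi z hz2
  have hPiz := one_le_pi1 z
  have hlogz : Real.log z ≤ 2 * Real.log x := by
    have e1 : Real.log z ≤ Real.log (x ^ 2) :=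
      Real.log_le_log (by exact_mod_cast (by omega : 0 < z)) hzle
    rw [Real.log_pow] at e1
    exact_mod_cast e1
  have hlogz0 : 0 ≤ Real.log z := Real.log_nonneg (by exact_mod_cast (by omega : 1 ≤ z))
  have hPi2 : Pi1 z ≤ C * (2 * Real.log x) ^ 4 :=
    hPi1.trans (mul_le_mul_of_nonneg_left (pow_le_pow_left₀ hlogz0 hlogz 4) hC.le)
  obtain ⟨K, hK⟩ : ∃ K : ℝ, K = 8 * L * Pi1 z := ⟨_, rfl⟩
  have hKle : K ≤ x ^ (1 / 1700 : ℝ) := by
    rw [hK]
    exact (mul_le_mul_of_nonneg_left hPi2 (by positivity)).trans h4a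
  have hK8 : 8 ≤ K := by rw [hK]; nlinarith
  have hPiK : Pi1 z ≤ K := by rw [hK]; nlinarith
  have hx17 : x ^ (1 / 1700 : ℝ) ≤ x := by
    calc x ^ (1 / 1700 : ℝ) ≤ x ^ (1 : ℝ) :=
          Real.rpow_le_rpow_of_exponent_le (by linarith) (by norm_num)
      _ = x := Real.rpow_one x
  have hgrow : 400 * (15 * (8 * L * Pi1 z) ^ 2 * Real.log (64 * A.card * Pi1 z) + 1) ≤ z := by
    rw [← hK]
    have e1 : K ^ 2 ≤ x ^ (1 / 2 : ℝ) := by
      calc K ^ 2 ≤ (x ^ (1 / 1700 : ℝ)) ^ 2 := pow_le_pow_left₀ (by linarith) hKle 2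
        _ = x ^ (1 / 850 : ℝ) := by
            rw [← Real.rpow_natCast, ← Real.rpow_mul hx0.le]; norm_num
        _ ≤ x ^ (1 / 2 : ℝ) := Real.rpow_le_rpow_of_exponent_le (by linarith) (by norm_num)
    have e2 : Real.log (64 * A.card * Pi1 z) ≤ 3 * x := by
      rw [Real.log_mul (by positivity) (by positivity), Real.log_mul (by norm_num) (by positivity), ← hx]
      have e3 : Real.log 64 ≤ x := by
        have : Real.log 64 = 6 * Real.log 2 := by
          rw [show (64 : ℝ) = 2 ^ 6 by norm_num, Real.log_pow]; norm_num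
        rw [this]
        have := Real.log_two_lt_d9
        linarith
      have e4 : Real.log (Pi1 z) ≤ x := by
        have e5 := Real.log_le_sub_one_of_pos (show 0 < Pi1 z by linarith)
        linarith
      linarith
    have e6 : 0 ≤ Real.log (64 * A.card * Pi1 z) := Real.log_nonneg (by nlinarith)
    have e7 : K ^ 2 * Real.log (64 * A.card * Pi1 z) ≤ x ^ (1 / 2 : ℝ) * (3 * x) :=
      mul_le_mul e1 e2 e6 (Real.rpow_nonneg hx0.le _)
    have e8 : x ^ (1 / 2 : ℝ) * x ^ (1 / 2 : ℝ) = x := by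
      rw [← Real.rpow_add hx0]; norm_num
    have e9 : 0 < x ^ (1 / 2 : ℝ) := Real.rpow_pos_of_pos hx0 _
    have e10 : 18401 * (x ^ (1 / 2 : ℝ) * x) ≤ x ^ 2 := by
      calc 18401 * (x ^ (1 / 2 : ℝ) * x) ≤ x ^ (1 / 2 : ℝ) * (x ^ (1 / 2 : ℝ) * x) :=
            mul_le_mul_of_nonneg_right h12 (by positivity)
        _ = x ^ 2 := by rw [← mul_assoc, e8]; ring
    have e11 : 1 ≤ x ^ (1 / 2 : ℝ) * x := by nlinarith
    nlinarith
  have hT : ∀ y : ℤ, y ≠ 0 → T A z y < 1 / 100 := fun y hy =>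
    growth h0 hAne hL1 hcon hgrow hy
  have hnear := Main_near h0 hT
  have hgood := good_GG A h0 z (by linarith : (0 : ℝ) ≤ L) hcon
  rw [← hK] at hgood
  have hlit := littlewood hgood (by linarith) hnear hAne
    (fun y hy => by
      unfold mult
      rw [if_pos hy]
      split_ifs <;> norm_num)
    (by
      rw [hK]
      have e1 : 0 ≤ (A.card : ℝ) * Pi1 z := by positivity
      nlinarith)
  rw [← hx, ← hD] at hlit
  have hKpow : K ^ 1600 ≤ x ^ (16 / 17 : ℝ) := by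
    calc K ^ 1600 ≤ (x ^ (1 / 1700 : ℝ)) ^ 1600 := pow_le_pow_left₀ (by linarith) hKle 1600
      _ = x ^ (16 / 17 : ℝ) := by
          rw [← Real.rpow_natCast, ← Real.rpow_mul hx0.le]; norm_num
  have := mul_le_mul_of_nonneg_left hKpow hDpos.le
  linarith

end SFL
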