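import Pool.Agent.SFL.Bas

/-!
# Reg: regular radii of Bohr sets.

## ratio: |Bohr(s)| <= 5^(d+1) |Bohr(s/2)|, d = card Θ.
For t in Bohr(s) define the cell: for each θ the index floor((tθ - round(tθ) + s)/(s/2)) in {0,..,4}
(the signed representative tθ - round(tθ) lies in [-s,s]) and the index floor((t + q s)/(q s/2)) in {0,..,4}
(if q s = 0 then t = 0 and there is only one element). There are at most 5^(d+1) cells; two elements t, t' of the
same cell satisfy nz((t-t')θ) <= |signed difference| <= s/2 and |t-t'| <= q s/2, so t - t' in Bohr(s/2); hence each cell has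
at most |Bohr(s/2)| elements (inject t -> t - t0, t0 a fixed element of the cell).
(Finset.card_le_mul_card_image or Finset.card_eq_sum_card_fiberwise.)

## exists_regular.
Let N = floor(1/(2δ)) (>= 1/(4δ) as δ <= 1/16). Suppose that for every i < N the radius r_i = s/2 + (i+1)δ s (<= s)
satisfies |Bohr(r_i)| > (1+κ)|Bohr(r_i - δ s)|, r_i - δs = r_{i-1} (r_{-1} = s/2).
Then |Bohr(s)| >= |Bohr(r_{N-1})| > (1+κ)^N |Bohr(s/2)|, but
(1+κ)^N >= exp(κN/2) (log(1+κ) >= κ/2 for κ in [0,1]) >= exp(κ/(8δ)) >= exp(2(d+1)) > 5^(d+1), contradiction to ratio (e^2 > 5).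
So some r = r_i has |Bohr(r)| <= (1+κ)|Bohr(r-δ s)|. For t in Bohr(δ s) and x in Bohr(r-δ s), x + t in Bohr(r), so
#{x in Bohr(r) : x+t not in Bohr(r)} <= |Bohr(r)| - |Bohr(r-δ s)| <= κ|Bohr(r-δs)| <= κ|Bohr(r)|.
-/

namespace SFL
open Real

/-- class of a real number in `[0, 4]` -/
noncomputable def Reg_cl (x : ℝ) : Fin 5 := ⟨⌊x⌋.toNat % 5, Nat.mod_lt _ (by norm_num)⟩

theorem Reg_cl_eq {x y : ℝ} (hx0 : 0 ≤ x) (hx4 : x ≤ 4) (hy0 : 0 ≤ y) (hy4 : y ≤ 4)
    (h : Reg_cl x = Reg_cl y) : |x - y| ≤ 1 := by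
  have hx1 : 0 ≤ ⌊x⌋ := Int.floor_nonneg.2 hx0
  have hy1 : 0 ≤ ⌊y⌋ := Int.floor_nonneg.2 hy0
  have hx2 : ⌊x⌋ ≤ 4 := by
    have : (⌊x⌋ : ℝ) ≤ 4 := (Int.floor_le x).trans hx4
    exact_mod_cast this
  have hy2 : ⌊y⌋ ≤ 4 := by
    have : (⌊y⌋ : ℝ) ≤ 4 := (Int.floor_le y).trans hy4
    exact_mod_cast this
  have h1 : ⌊x⌋.toNat % 5 = ⌊y⌋.toNat % 5 := by
    have := congrArg Fin.val h
    exact this
  have h2 : ⌊x⌋ = ⌊y⌋ := by omega
  have h3 := Int.floor_le x
  have h4 := Int.lt_floor_add_one x
  have h5 := Int.floor_le y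
  have h6 := Int.lt_floor_add_one y
  rw [h2] at h3 h4
  rw [abs_le]
  constructor <;> linarith

theorem ratio {q s : ℝ} (hq : 0 ≤ q) (hs : 0 < s) (Θ : Finset ℝ) :
    (Bohr q Θ s).card ≤ 5 ^ (Θ.card + 1) * (Bohr q Θ (s / 2)).card := by
  classical
  set c : ℤ → (Option {θ // θ ∈ Θ} → Fin 5) := fun t o =>
    match o with
    | none => Reg_cl ((t + q * s) / (q * s / 2))
    | some θ => Reg_cl ((t * θ.1 - round (t * θ.1) + s) / (s / 2)) with hc
  have key := Finset.card_le_mul_card_image_of_maps_to (f := c) (s := Bohr q Θ s)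
    (t := Finset.univ) (fun a _ => Finset.mem_univ _) (Bohr q Θ (s / 2)).card (by
      intro b _
      rcases Finset.eq_empty_or_nonempty ({a ∈ Bohr q Θ s | c a = b}) with he | ⟨t0, ht0⟩
      · rw [he, Finset.card_empty]
        exact Nat.zero_le _
      · rw [Finset.mem_filter, mem_Bohr] at ht0
        obtain ⟨⟨h01, h02⟩, h03⟩ := ht0
        apply Finset.card_le_card_of_injOn (fun t => t - t0)
        · intro t ht
          rw [Finset.mem_coe, Finset.mem_filter, mem_Bohr] at ht
          obtain ⟨⟨h1, h2⟩, h3⟩ := ht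
          rw [Finset.mem_coe, mem_Bohr]
          have h4 : c t = c t0 := h3.trans h03.symm
          have h1' := abs_le.1 h1
          have h01' := abs_le.1 h01
          constructor
          · rcases eq_or_lt_of_le (mul_nonneg hq hs.le) with h0 | h0
            · rw [← h0] at h1' h01'
              have e1 : (t : ℝ) = 0 := by linarith
              have e2 : (t0 : ℝ) = 0 := by linarith
              push_cast
              rw [e1, e2, sub_zero, abs_zero]
              positivity
            · have h5 := congrFun h4 none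
              simp only [hc] at h5
              have h6 := Reg_cl_eq (div_nonneg (by linarith) (by linarith))
                (by rw [div_le_iff₀ (by linarith)]; linarith)
                (div_nonneg (by linarith) (by linarith))
                (by rw [div_le_iff₀ (by linarith)]; linarith) h5
              rw [← sub_div, abs_div, abs_of_pos (show 0 < q * s / 2 by linarith),
                div_le_iff₀ (by linarith)] at h6
              push_cast
              have e : (t : ℝ) + q * s - (t0 + q * s) = t - t0 := by ring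
              rw [e] at h6
              linarith
          · intro θ hθ
            have h5 := congrFun h4 (some ⟨θ, hθ⟩)
            simp only [hc] at h5
            have h7 := abs_le.1 (h2 θ hθ)
            have h8 := abs_le.1 (h02 θ hθ)
            have h6 := Reg_cl_eq (div_nonneg (by linarith) (by linarith))
                (by rw [div_le_iff₀ (by linarith)]; linarith)
                (div_nonneg (by linarith) (by linarith))
                (by rw [div_le_iff₀ (by linarith)]; linarith) h5
            rw [← sub_div, abs_div, abs_of_pos (show 0 < s / 2 by linarith),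
              div_le_iff₀ (by linarith)] at h6
            refine (nz_le_abs_sub _ (round ((t : ℝ) * θ) - round ((t0 : ℝ) * θ))).trans ?_
            push_cast
            have e : ((t : ℝ) - t0) * θ - (round ((t : ℝ) * θ) - round ((t0 : ℝ) * θ))
                = (t * θ - round ((t : ℝ) * θ) + s) - (t0 * θ - round ((t0 : ℝ) * θ) + s) := by
              ring
            rw [e]
            linarith
        · intro a _ b _ h
          exact sub_left_injective h)
  have hcard : (Finset.univ : Finset (Option {θ // θ ∈ Θ} → Fin 5)).card = 5 ^ (Θ.card + 1) := by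
    rw [Finset.card_univ, Fintype.card_fun, Fintype.card_option, Fintype.card_fin,
      Fintype.card_coe]
  rw [hcard, mul_comm] at key
  exact key

theorem exists_regular {q s κ δ : ℝ} (hq : 0 ≤ q) (hs : 0 < s) (Θ : Finset ℝ) (hκ : 0 < κ)
    (hκ1 : κ ≤ 1) (hδ : 0 < δ) (hδ1 : δ ≤ κ / (16 * (Θ.card + 1))) :
    ∃ r, s / 2 ≤ r ∧ r ≤ s ∧ ∀ t ∈ Bohr q Θ (δ * s), AI κ (Bohr q Θ r) t := by
  by_contra hcon
  push Not at hcon
  set d : ℝ := (Θ.card : ℝ) + 1 with hd
  have hd1 : 1 ≤ d := by rw [hd]; linarith [Nat.cast_nonneg (α := ℝ) Θ.card]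
  have hδ2 : δ * (16 * d) ≤ κ := by rwa [le_div_iff₀ (by positivity)] at hδ1
  set N := ⌊1 / (2 * δ)⌋₊ with hN
  have hN1 : (N : ℝ) ≤ 1 / (2 * δ) := Nat.floor_le (by positivity)
  have hN2 : 1 / (2 * δ) < N + 1 := Nat.lt_floor_add_one _
  have hN3 : N * δ ≤ 1 / 2 := by
    rw [le_div_iff₀ (by positivity)] at hN1
    linarith
  have hN4 : 1 < (N + 1) * (2 * δ) := by
    rw [div_lt_iff₀ (by positivity)] at hN2
    exact hN2
  have hN5 : 1 / 4 ≤ N * δ := by nlinarith
  have step : ∀ i : ℕ, i ≤ N → (1 + κ) ^ i * ((Bohr q Θ (s / 2)).card : ℝ) ≤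
      ((Bohr q Θ (s / 2 + i * (δ * s))).card : ℝ) := by
    intro i
    induction i with
    | zero => intro _; simp
    | succ i ih =>
      intro hi
      have ih' := ih (by omega)
      have hi' : ((i : ℝ) + 1) * δ ≤ 1 / 2 := by
        have : ((i : ℝ) + 1) ≤ N := by exact_mod_cast hi
        nlinarith
      set r : ℝ := s / 2 + ((i + 1 : ℕ) : ℝ) * (δ * s) with hr
      have hr1 : s / 2 ≤ r := by rw [hr]; have : 0 ≤ ((i + 1 : ℕ) : ℝ) * (δ * s) := by positivity
                                 linarith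
      have hr2 : r ≤ s := by rw [hr]; push_cast; nlinarith
      obtain ⟨t, ht, hAI⟩ := hcon r hr1 hr2
      unfold AI at hAI
      push Not at hAI
      have hrr : r - δ * s = s / 2 + i * (δ * s) := by rw [hr]; push_cast; ring
      have hsub : (Bohr q Θ r).filter (fun x => x + t ∉ Bohr q Θ r) ⊆
          Bohr q Θ r \ Bohr q Θ (s / 2 + i * (δ * s)) := by
        intro x hx
        rw [Finset.mem_filter] at hx
        rw [Finset.mem_sdiff]
        refine ⟨hx.1, fun h => hx.2 ?_⟩
        have := Bohr_add_mem h ht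
        have e : s / 2 + i * (δ * s) + δ * s = r := by rw [← hrr]; ring
        rwa [e] at this
      have hmono : Bohr q Θ (s / 2 + i * (δ * s)) ⊆ Bohr q Θ r := by
        apply Bohr_mono hq
        rw [← hrr]
        have : 0 < δ * s := by positivity
        linarith
      have hcard := Finset.card_le_card hsub
      rw [Finset.card_sdiff_of_subset hmono] at hcard
      have hle := Finset.card_le_card hmono
      have h1 : (((Bohr q Θ r).filter (fun x => x + t ∉ Bohr q Θ r)).card : ℝ) ≤
          (Bohr q Θ r).card - (Bohr q Θ (s / 2 + i * (δ * s))).card := by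
        rw [← Nat.cast_sub hle]
        exact_mod_cast hcard
      have h2 : ((Bohr q Θ (s / 2 + i * (δ * s))).card : ℝ) ≤ (1 - κ) * (Bohr q Θ r).card := by
        linarith
      have h3 : (0 : ℝ) ≤ (Bohr q Θ r).card := Nat.cast_nonneg _
      calc (1 + κ) ^ (i + 1) * ((Bohr q Θ (s / 2)).card : ℝ)
          = (1 + κ) * ((1 + κ) ^ i * ((Bohr q Θ (s / 2)).card : ℝ)) := by ring
        _ ≤ (1 + κ) * ((1 - κ) * (Bohr q Θ r).card) := by
            apply mul_le_mul_of_nonneg_left (ih'.trans h2) (by linarith)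
        _ = (1 - κ ^ 2) * (Bohr q Θ r).card := by ring
        _ ≤ 1 * (Bohr q Θ r).card := by
            apply mul_le_mul_of_nonneg_right _ h3
            nlinarith [sq_nonneg κ]
        _ = (Bohr q Θ r).card := one_mul _
  have h1 := step N le_rfl
  have h2 : ((Bohr q Θ (s / 2 + N * (δ * s))).card : ℝ) ≤ (Bohr q Θ s).card := by
    have : Bohr q Θ (s / 2 + N * (δ * s)) ⊆ Bohr q Θ s := by
      apply Bohr_mono hq
      nlinarith
    exact_mod_cast Finset.card_le_card this
  have h3 : ((Bohr q Θ s).card : ℝ) ≤ 5 ^ (Θ.card + 1) * (Bohr q Θ (s / 2)).card := by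
    exact_mod_cast ratio hq hs Θ
  have h4 : (0 : ℝ) < (Bohr q Θ (s / 2)).card := by
    have := Bohr_zero_mem hq (show 0 ≤ s / 2 by linarith) Θ
    exact_mod_cast Finset.card_pos.2 ⟨0, this⟩
  have h5 : (1 + κ) ^ N ≤ (5 : ℝ) ^ (Θ.card + 1) := by
    have := (h1.trans h2).trans h3
    exact le_of_mul_le_mul_right this h4
  have h6 : Real.exp (κ / 2) ≤ 1 + κ := by
    have e1 := Real.add_one_le_exp (-(κ / 2))
    have e2 : Real.exp (κ / 2) * Real.exp (-(κ / 2)) = 1 := by
      rw [← Real.exp_add]; simp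
    have e3 := Real.exp_pos (κ / 2)
    have e4 : Real.exp (κ / 2) * (1 - κ / 2) ≤ 1 := by
      rw [← e2]
      apply mul_le_mul_of_nonneg_left _ e3.le
      linarith
    nlinarith
  have h7 : Real.exp (κ / 2) ^ N ≤ (5 : ℝ) ^ (Θ.card + 1) :=
    (pow_le_pow_left₀ (Real.exp_pos _).le h6 N).trans h5
  rw [← Real.exp_nat_mul] at h7
  have h8 : 2 * d ≤ N * (κ / 2) := by
    have : d * 4 ≤ N * (δ * (16 * d)) := by nlinarith
    nlinarith [mul_le_mul_of_nonneg_left hδ2 (Nat.cast_nonneg (α := ℝ) N)]
  have h9 : Real.exp (2 * d) = Real.exp 2 ^ (Θ.card + 1) := by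
    rw [← Real.exp_nat_mul]
    congr 1
    rw [hd]; push_cast; ring
  have h10 : (5 : ℝ) < Real.exp 2 := by
    have := Real.exp_one_gt_d9
    have e : Real.exp 2 = Real.exp 1 * Real.exp 1 := by rw [← Real.exp_add]; norm_num
    rw [e]
    nlinarith
  have h11 : (5 : ℝ) ^ (Θ.card + 1) < Real.exp 2 ^ (Θ.card + 1) :=
    pow_lt_pow_left₀ h10 (by norm_num) (by omega)
  have h12 := Real.exp_le_exp.2 h8
  rw [h9] at h12
  linarith

end SFL
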