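import Pool.Agent.SFL.Bas

/-!
# Walk: walking to infinity.
Points y0 + n t v (n = 0,1,2,..). For n large every y0 + n t v + s v (s in B) has absolute value > Y0 (t v != 0, B finite), so the average is <= 1/100 < 1/2.
Take the least n with Dv(y0 + n t v) < 1/2; n >= 1 and Dv(y0+(n-1)tv) >= 1/2. One step changes Dv by at most 2κ*3 = 6κ
(shift_abs applied to φ(x) = g(y + x v), H = 3: Dv g v B (y + t v) = avg φ(x+t)).
-/

namespace SFL
open Real

private theorem walk_far {g : ℤ → ℝ} {Y0 : ℤ} (hfar : ∀ y, Y0 < |y| → |g y| ≤ 1 / 100)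
    {v t : ℤ} (hv : v ≠ 0) (ht : t ≠ 0) {B : Finset ℤ} (hB : B.Nonempty) (y0 : ℤ) :
    ∃ n : ℕ, Dv g v B (y0 + n * (t * v)) < 1 / 2 := by
  set C : ℤ := |Y0| + |y0| + ∑ s ∈ B, |s * v| with hC
  have hC0 : 0 ≤ C := by
    have : 0 ≤ ∑ s ∈ B, |s * v| := Finset.sum_nonneg fun _ _ => abs_nonneg _
    positivity
  refine ⟨(C + 1).toNat, ?_⟩
  have hn : (((C + 1).toNat : ℕ) : ℤ) = C + 1 := Int.toNat_of_nonneg (by linarith)
  have hcard : (0:ℝ) < B.card := by exact_mod_cast hB.card_pos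
  have hle : ∑ s ∈ B, g (y0 + ((C + 1).toNat : ℕ) * (t * v) + s * v) ≤ ∑ s ∈ B, (1 / 100 : ℝ) := by
    refine Finset.sum_le_sum fun s hs => ?_
    refine (le_abs_self _).trans (hfar _ ?_)
    rw [hn]
    have h1 : |s * v| ≤ ∑ s ∈ B, |s * v| :=
      Finset.single_le_sum (f := fun s : ℤ => |s * v|) (fun _ _ => abs_nonneg _) hs
    have h2 : 1 ≤ |t * v| := Int.one_le_abs (mul_ne_zero ht hv)
    have h3 : C + 1 ≤ |(C + 1) * (t * v)| := by
      rw [abs_mul, abs_of_nonneg (by linarith : (0:ℤ) ≤ C + 1)]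
      nlinarith
    have h4 : |(C + 1) * (t * v)| ≤ |y0 + (C + 1) * (t * v) + s * v| + |y0| + |s * v| := by
      have e : (C + 1) * (t * v) = (y0 + (C + 1) * (t * v) + s * v) + (-y0) + (-(s * v)) := by ring
      calc |(C + 1) * (t * v)| = |(y0 + (C + 1) * (t * v) + s * v) + (-y0) + (-(s * v))| := by
            rw [← e]
        _ ≤ |(y0 + (C + 1) * (t * v) + s * v)| + |-y0| + |-(s * v)| := by
            refine (abs_add_le _ _).trans ?_
            gcongr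
            exact abs_add_le _ _
        _ = _ := by rw [abs_neg, abs_neg]
    have h5 : Y0 ≤ |Y0| := le_abs_self _
    linarith
  unfold Dv
  rw [div_lt_iff₀ hcard]
  have : ∑ s ∈ B, (1 / 100 : ℝ) = B.card * (1 / 100) := by simp
  rw [this] at hle
  linarith

theorem walk {g : ℤ → ℝ} (hg : ∀ y, |g y| ≤ 3) {Y0 : ℤ} (hfar : ∀ y, Y0 < |y| → |g y| ≤ 1 / 100)
    {v t : ℤ} (hv : v ≠ 0) (ht : t ≠ 0) {B : Finset ℤ} (hB : B.Nonempty) {κ : ℝ} (hAI : AI κ B t)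
    {y0 : ℤ} (h0 : 1 / 2 ≤ Dv g v B y0) :
    ∃ y, 1 / 2 - 6 * κ ≤ Dv g v B y ∧ Dv g v B y < 1 / 2 := by
  classical
  have hex := walk_far hfar hv ht hB y0
  have hcard : (0:ℝ) < B.card := by exact_mod_cast hB.card_pos
  obtain ⟨n, hn, hmin⟩ : ∃ n : ℕ, Dv g v B (y0 + n * (t * v)) < 1 / 2 ∧
      ∀ m < n, ¬ Dv g v B (y0 + m * (t * v)) < 1 / 2 :=
    ⟨Nat.find hex, Nat.find_spec hex, fun m hm => Nat.find_min hex hm⟩
  have hn0 : n ≠ 0 := by
    rintro rfl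
    simp only [Nat.cast_zero, zero_mul, add_zero] at hn
    linarith
  obtain ⟨m, rfl⟩ := Nat.exists_eq_succ_of_ne_zero hn0
  refine ⟨_, ?_, hn⟩
  have hm := hmin m (Nat.lt_succ_self m)
  push Not at hm
  set y' : ℤ := y0 + m * (t * v) with hy'
  have hy2 : y0 + ((m + 1 : ℕ) : ℤ) * (t * v) = y' + t * v := by
    rw [hy']; push_cast; ring
  have hs := shift_abs hAI (φ := fun x => g (y' + x * v)) (H := 3) (fun y => hg _)
  have e1 : Dv g v B (y' + t * v) = (∑ x ∈ B, g (y' + (x + t) * v)) / B.card := by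
    unfold Dv
    congr 1
    refine Finset.sum_congr rfl fun x _ => ?_
    congr 1
    ring
  have e2 : Dv g v B y' = (∑ x ∈ B, g (y' + x * v)) / B.card := rfl
  have h3 : -(2 * κ * B.card * 3) ≤ ∑ x ∈ B, g (y' + (x + t) * v) - ∑ x ∈ B, g (y' + x * v) :=
    neg_le_of_abs_le hs
  have h4 : Dv g v B y' - 6 * κ ≤ Dv g v B (y' + t * v) := by
    rw [e1, e2, le_div_iff₀ hcard, sub_mul, div_mul_cancel₀ _ hcard.ne']
    linarith
  show 1 / 2 - 6 * κ ≤ Dv g v B (y0 + ((m + 1 : ℕ) : ℤ) * (t * v))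
  rw [hy2]
  linarith

end SFL
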