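import Pool.Agent.SFL.Avg
import Pool.Agent.SFL.Samp
import Pool.Agent.SFL.Reg
import Pool.Agent.SFL.Dir
import Pool.Agent.SFL.Walk
import Pool.Agent.SFL.Base

/-!
# Step: one step of the density chain.
B = Bohr q Θ r. g = cf G, |g| <= 3 (Near), |g| <= 1/100 far away.
(1) B_mid: exists_regular for Θ and scale δ s gives r1 in [δs/2, δs] with AI κ (Bohr q Θ r1) t for all t in Bohr q Θ (δ (δ s)). B_mid = Bohr q Θ r1.
    B_mid is inside Bohr q Θ (δ s), so hinv: AI κ B t for t in B_mid. B_mid contains 0.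
(2) dirichlet (scale δ s/2) gives t* != 0 in Bohr q Θ (δ s/2), inside B_mid. hinv: AI κ B t*.
(3) walk: ystar with 1/2 - 6κ <= D_B(ystar) < 1/2.
(4) sampling with W = B_mid, ψ t = ystar + t v, k = k1 >= 400K^2: sum (g-gt)^2 <= |W|K^2/k1 <= |W|(1/20)^2. Θ' = Θ ∪ {v x_i}.
(5) exists_regular for Θ' and scale δ^2 s: r' in [δ^2 s/2, δ^2 s], AI κ (Bohr q Θ' r') t for t in Bohr q Θ' (δ (δ^2 s)). B' = Bohr q Θ' r'.
    (card Θ' <= card Θ + k1 so δ <= κ/(16(card Θ'+1)).)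
(6) Suppose |D_B(y) - D_B'(y)| <= 1/10 for all y. For t in B_mid: |D_B(ystar+tv) - D_B(ystar)| <= 6κ (shift_abs for B, φ(x) = g(ystar + x v)), so
    D_B'(ystar+tv) in [0.39 - 0.01.., 0.61] i.e. |D_B' - 1/2| <= 1/10 + 12κ <= 0.11.
    avg_bound with W = B_mid, B', ε = 1/20, κ, ρ = δ^2 s <= s <= 1/(100K): for s' in B': s' in Bohr q Θ' (δ^2 s), inside Bohr q Θ (δ (δ s)): AI κ B_mid s'. nz(s' (v x_i)) <= r' <= δ^2 s.
    Average of |D_B' - g|(ystar+tv) over B_mid <= 1/10 + κ(3+K) + 2πK/(100K)  <= 0.1 + 0.0013 + 0.063 <= 0.17 (κ <= 1/(3200K^2), K >= 1).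
    So some t in B_mid has |D_B'(y) - g(y)| <= 0.17, |g(y) - 1/2| <= 0.28, but g(y) is within 1/100 of an integer: contradiction.
-/

namespace SFL
open Real

theorem step {G : ℝ → ℝ} {H K : ℝ} (hG : Good G H K) (hK : 1 ≤ K) {w : ℤ → ℤ} {Y0 : ℤ}
    (hw : Near G w Y0) {v : ℤ} (hv : v ≠ 0) {q κ δ : ℝ} (hq : 0 ≤ q) (hκ : 0 < κ)
    (hκ1 : κ ≤ 1 / (3200 * K ^ 2)) (hδ : 0 < δ)
    {k1 : ℕ} (hk1 : 400 * K ^ 2 ≤ k1)
    {Θ : Finset ℝ} (hδ1 : δ ≤ κ / (16 * ((Θ.card : ℝ) + k1 + 1)))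
    {s r : ℝ} (hs : 0 < s) (hs1 : s ≤ 1 / (100 * K)) (hr1 : s / 2 ≤ r) (hr2 : r ≤ s)
    (hinv : ∀ t ∈ Bohr q Θ (δ * s), AI κ (Bohr q Θ r) t)
    (hdir : (2 / (δ * s) + 1) ^ Θ.card ≤ q * (δ * s / 2))
    (hbig : ∃ y, 1 / 2 ≤ Dv (cf G) v (Bohr q Θ r) y) :
    ∃ (Θ' : Finset ℝ) (r' : ℝ), Θ ⊆ Θ' ∧ Θ'.card ≤ Θ.card + k1 ∧
      δ ^ 2 * s / 2 ≤ r' ∧ r' ≤ δ ^ 2 * s ∧
      (∀ t ∈ Bohr q Θ' (δ * (δ ^ 2 * s)), AI κ (Bohr q Θ' r') t) ∧
      ∃ y, 1 / 10 < |Dv (cf G) v (Bohr q Θ r) y - Dv (cf G) v (Bohr q Θ' r') y| := by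
  classical
  -- numerical facts
  have hK0 : 0 < K := by linarith
  have hK2 : 1 ≤ K ^ 2 := by nlinarith
  have hκ2 : κ * (3200 * K ^ 2) ≤ 1 := by
    rw [le_div_iff₀ (by positivity)] at hκ1
    exact hκ1
  have hκ3 : κ ≤ 1 / 3200 := by
    have h1 : κ * 3200 ≤ κ * (3200 * K ^ 2) := by
      apply mul_le_mul_of_nonneg_left _ hκ.le
      linarith
    linarith
  have hκ4 : κ * K ≤ 1 / 3200 := by
    have h1 : κ * (3200 * K) ≤ κ * (3200 * K ^ 2) := by
      apply mul_le_mul_of_nonneg_left _ hκ.le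
      nlinarith
    nlinarith
  have hk1' : (0 : ℝ) < k1 := by nlinarith
  have hk1n : 1 ≤ k1 := by
    have : 0 < k1 := by exact_mod_cast hk1'
    omega
  have hc0 : (0 : ℝ) ≤ (Θ.card : ℝ) := Nat.cast_nonneg _
  have hδ2 : δ ≤ 1 := by
    refine hδ1.trans ?_
    rw [div_le_one (by positivity)]
    nlinarith
  have hs2 : s * K ≤ 1 / 100 := by
    rw [le_div_iff₀ (by positivity)] at hs1
    linarith
  have hδs : 0 < δ * s := mul_pos hδ hs
  set g := cf G with hgdef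
  have hgnear : ∀ y, |g y - w y| ≤ 1 / 100 := hw.near
  have hg3 : ∀ y, |g y| ≤ 3 := by
    intro y
    have h1 := hgnear y
    have h2 : (0 : ℝ) ≤ w y := by exact_mod_cast hw.w0 y
    have h3 : (w y : ℝ) ≤ 2 := by exact_mod_cast hw.w2 y
    rw [abs_le] at h1 ⊢
    constructor <;> linarith
  have hfar : ∀ y, Y0 < |y| → |g y| ≤ 1 / 100 := by
    intro y hy
    have h1 := hgnear y
    rw [hw.far y hy] at h1
    simpa using h1
  -- (1)
  obtain ⟨r1, hr1a, hr1b, hr1c⟩ := exists_regular (q := q) (s := δ * s) (κ := κ) (δ := δ) hq hδs Θ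
    hκ (by linarith) hδ (hδ1.trans (by
      apply div_le_div_of_nonneg_left hκ.le (by positivity)
      have : (0:ℝ) ≤ k1 := hk1'.le
      linarith))
  set W := Bohr q Θ r1 with hW
  have hWsub : W ⊆ Bohr q Θ (δ * s) := Bohr_mono hq hr1b Θ
  have hr10 : 0 ≤ r1 := by linarith
  have hW0 : (0 : ℤ) ∈ W := Bohr_zero_mem hq hr10 Θ
  set B := Bohr q Θ r with hB
  have hr0 : 0 ≤ r := by linarith
  have hB0 : (0 : ℤ) ∈ B := Bohr_zero_mem hq hr0 Θ
  have hBne : B.Nonempty := ⟨0, hB0⟩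
  -- (2)
  obtain ⟨t0, ht0, ht0ne⟩ := dirichlet (q := q) (s := δ * s / 2) (by linarith) Θ (by
    have e : 1 / (δ * s / 2) = 2 / (δ * s) := by
      rw [one_div, inv_div]
    rw [e]
    exact hdir)
  have ht0B : AI κ B t0 := hinv t0 (Bohr_mono hq (by linarith) Θ ht0)
  -- (3)
  obtain ⟨y0, hy0⟩ := hbig
  obtain ⟨ys, hys1, hys2⟩ := walk hg3 hfar hv ht0ne hBne ht0B hy0
  -- (4)
  obtain ⟨x, c, hc, hsum⟩ := sampling hG W (fun t => ys + t * v) k1 hk1n
  set Θ' := Θ ∪ Finset.univ.image (fun i => (v : ℝ) * x i) with hΘ'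
  have hΘsub : Θ ⊆ Θ' := Finset.subset_union_left
  have hΘcard : Θ'.card ≤ Θ.card + k1 := by
    refine (Finset.card_union_le _ _).trans ?_
    have := Finset.card_image_le (s := (Finset.univ : Finset (Fin k1)))
      (f := fun i => (v : ℝ) * x i)
    simp only [Finset.card_univ, Fintype.card_fin] at this
    omega
  have hΘcard' : (Θ'.card : ℝ) ≤ Θ.card + k1 := by exact_mod_cast hΘcard
  -- (5)
  obtain ⟨r', hr'a, hr'b, hr'c⟩ := exists_regular (q := q) (s := δ ^ 2 * s) (κ := κ) (δ := δ) hq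
    (by positivity) Θ' hκ (by linarith) hδ (hδ1.trans (by
      apply div_le_div_of_nonneg_left hκ.le (by positivity)
      linarith))
  refine ⟨Θ', r', hΘsub, hΘcard, hr'a, hr'b, hr'c, ?_⟩
  by_contra hcon
  push Not at hcon
  set B' := Bohr q Θ' r' with hB'
  have hr'0 : 0 ≤ r' := by
    have : 0 ≤ δ ^ 2 * s / 2 := by positivity
    linarith
  have hB'0 : (0 : ℤ) ∈ B' := Bohr_zero_mem hq hr'0 Θ'
  have hB'ne : B'.Nonempty := ⟨0, hB'0⟩
  have hBcard : (0 : ℝ) < B.card := by exact_mod_cast Finset.card_pos.2 hBne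
  have hWcard : (0 : ℝ) < W.card := by exact_mod_cast Finset.card_pos.2 ⟨0, hW0⟩
  -- shift
  have hshift : ∀ t ∈ W, |Dv g v B (ys + t * v) - Dv g v B ys| ≤ 6 * κ := by
    intro t ht
    have hAI : AI κ B t := hinv t (hWsub ht)
    have h := shift_abs (H := 3) (φ := fun x => g (ys + x * v)) hAI (fun y => hg3 _)
    unfold Dv
    have e : ∀ x : ℤ, ys + t * v + x * v = ys + (x + t) * v := by
      intro x
      ring
    simp only [e]
    rw [← sub_div, abs_div, abs_of_pos hBcard, div_le_iff₀ hBcard]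
    calc _ ≤ _ := h
      _ = _ := by ring
  have hclose : ∀ t ∈ W, |Dv g v B' (ys + t * v) - 1 / 2| ≤ 1 / 10 + 12 * κ := by
    intro t ht
    have h1 := hshift t ht
    have h2 := hcon (ys + t * v)
    rw [abs_le] at h1 h2 ⊢
    constructor <;> linarith
  -- average
  have hsum' : ∑ t ∈ W, (g (ys + t * v) - gt k1 x c (ys + t * v)) ^ 2 ≤ W.card * (1 / 20) ^ 2 := by
    refine hsum.trans ?_
    rw [div_le_iff₀ hk1']
    have h3 : K ^ 2 ≤ (1 / 20) ^ 2 * k1 := by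
      norm_num
      linarith
    nlinarith
  have havg := avg_bound (g := g) hg3 (K := K) (ε := 1 / 20) (κ := κ) (ρ := δ ^ 2 * s) hK0.le
    (by norm_num) hk1n (x := x) (c := c) hc (W := W) (B := B') hB'ne ys v hsum'
    (by
      intro s' hs'
      apply hr1c
      have h1 : s' ∈ Bohr q Θ' (δ ^ 2 * s) := Bohr_mono hq hr'b Θ' hs'
      have h2 : s' ∈ Bohr q Θ (δ ^ 2 * s) := Bohr_anti hΘsub h1
      have e : δ * (δ * s) = δ ^ 2 * s := by ring
      rw [e]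
      exact h2)
    (by
      intro s' hs' i
      rw [hB', mem_Bohr] at hs'
      refine (hs'.2 ((v : ℝ) * x i) ?_).trans hr'b
      rw [hΘ']
      apply Finset.mem_union_right
      exact Finset.mem_image_of_mem _ (Finset.mem_univ i))
  have hnum : 2 * (1 / 20 : ℝ) + κ * (3 + K) + 2 * π * K * (δ ^ 2 * s) < 17 / 100 := by
    have hpi := Real.pi_lt_d2
    have hpi0 := Real.pi_pos
    have h1 : δ ^ 2 * s ≤ s := by
      have h0 : δ ^ 2 ≤ 1 := pow_le_one₀ hδ.le hδ2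
      have h01 := mul_le_mul_of_nonneg_right h0 hs.le
      rw [one_mul] at h01
      exact h01
    have h2 : K * (δ ^ 2 * s) ≤ 1 / 100 := by
      have := mul_le_mul_of_nonneg_left h1 hK0.le
      linarith
    have h3 : 0 ≤ K * (δ ^ 2 * s) := by positivity
    have h4 : 2 * π * K * (δ ^ 2 * s) = 2 * π * (K * (δ ^ 2 * s)) := by ring
    rw [h4]
    have h5 : 2 * π * (K * (δ ^ 2 * s)) ≤ 2 * π * (1 / 100) :=
      mul_le_mul_of_nonneg_left h2 (by positivity)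
    have h6 : κ * (3 + K) = 3 * κ + κ * K := by ring
    rw [h6]
    linarith
  have hex : ∃ t ∈ W, |Dv g v B' (ys + t * v) - g (ys + t * v)| < 17 / 100 := by
    by_contra hno
    push Not at hno
    have h1 : ∑ t ∈ W, (17 / 100 : ℝ) ≤ ∑ t ∈ W, |Dv g v B' (ys + t * v) - g (ys + t * v)| :=
      Finset.sum_le_sum hno
    rw [Finset.sum_const, nsmul_eq_mul] at h1
    have h2 := mul_lt_mul_of_pos_left hnum hWcard
    linarith
  obtain ⟨t, ht, htg⟩ := hex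
  have h1 := hclose t ht
  have h2 := hgnear (ys + t * v)
  have h3 : (0 : ℝ) < w (ys + t * v) := by
    rw [abs_lt] at htg
    rw [abs_le] at h1 h2
    linarith
  have h4 : (w (ys + t * v) : ℝ) < 1 := by
    rw [abs_lt] at htg
    rw [abs_le] at h1 h2
    linarith
  have h5 : 0 < w (ys + t * v) := by exact_mod_cast h3
  have h6 : w (ys + t * v) < 1 := by exact_mod_cast h4
  omega

end SFL
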